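import Mathlib

/-!
Common definitions for the proof of `S09443` (logarithmic girth of cosimple matroids without an
`M(K_n)*` minor).
-/

set_option autoImplicit false

namespace Pool.Agent.Lib.MP_71775e_co

/-- `u` is linearly independent modulo the span of `X`. -/
def IndepMod (F : Type) [Field F] {V : Type} [AddCommGroup V] [Module F V] (X : Set V)
    {ι : Type} [Fintype ι] (u : ι → V) : Prop :=
  ∀ c : ι → F, (∑ i, c i • u i) ∈ Submodule.span F X → c = 0

/-- The set `A` of vectors has a clique minor of order `n`. -/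
def CliqueMinor (F : Type) [Field F] {V : Type} [AddCommGroup V] [Module F V] (n : ℕ)
    (A : Set V) : Prop :=
  ∃ X : Set V, X ⊆ A ∧ ∃ u : Fin n → V, IndepMod F X u ∧
    ∀ i j : Fin n, i < j → ∃ a ∈ A, a - (u i - u j) ∈ Submodule.span F X

/-- A set of nonzero vectors closed under multiplication by nonzero scalars. -/
def LabelSet (F : Type) [Field F] {V : Type} [AddCommGroup V] [Module F V] (Y : Set V) : Prop :=
  (0 : V) ∉ Y ∧ ∀ y ∈ Y, ∀ c : F, c ≠ 0 → c • y ∈ Y

open Classical in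
/-- Number of ordered pairs of elements of `Q` whose difference lies in `Y`. -/
noncomputable def E2 {V : Type} [AddCommGroup V] (Y : Set V) (Q : Finset V) : ℕ :=
  ((Q ×ˢ Q).filter (fun p => p.2 - p.1 ∈ Y)).card

/-- The nonzero elements of the image of `Y` in `V / ⟨y⟩`. -/
def QLab (F : Type) [Field F] {V : Type} [AddCommGroup V] [Module F V] (y : V) (Y : Set V) :
    Set (V ⧸ Submodule.span F {y}) :=
  {w | w ≠ 0 ∧ ∃ z ∈ Y, (Submodule.span F {y}).mkQ z = w}

/-- The image of `R` in `V / ⟨y⟩`. -/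
def QIm (F : Type) [Field F] {V : Type} [AddCommGroup V] [Module F V] (y : V) (R : Set V) :
    Set (V ⧸ Submodule.span F {y}) :=
  {w | ∃ x ∈ R, (Submodule.span F {y}).mkQ x = w}

/-- The elements of `V / ⟨y⟩` with at least two lifts in `R`. -/
def QTwo (F : Type) [Field F] {V : Type} [AddCommGroup V] [Module F V] (y : V) (R : Set V) :
    Set (V ⧸ Submodule.span F {y}) :=
  {w | ∃ x ∈ R, ∃ x' ∈ R, x ≠ x' ∧ (Submodule.span F {y}).mkQ x = w ∧
    (Submodule.span F {y}).mkQ x' = w}

/-- Some nonempty finite subset `Q` of `R` spans at least `D * |Q|` ordered adjacent pairs. -/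
def StageHyp {V : Type} [AddCommGroup V] (D : ℕ) (Y R : Set V) : Prop :=
  ∃ Q : Finset V, Q.Nonempty ∧ (Q : Set V) ⊆ R ∧ D * Q.card ≤ E2 Y Q

/-- The cube-like structure obtained after `k` steps. -/
def Shat (F : Type) [Field F] {V : Type} [AddCommGroup V] [Module F V] (k : ℕ)
    (Y R : Set V) : Prop :=
  ∃ (m : ℕ) (x : Fin m → V) (y : Fin k → V),
    (∀ i, x i ∈ Y) ∧ (∀ i, y i ∈ Y) ∧
    (∀ (c : Fin m → F) (d : Fin k → F), (∑ i, c i • x i) + (∑ i, d i • y i) = 0 →
      c = 0 ∧ d = 0) ∧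
    ∃ (v : V) (L : Finset (Fin k → F)), 2 ^ k ≤ L.card ∧
      ∀ c ∈ L, ∃ r ∈ R, (v + ∑ i, c i • y i) - r ∈ Submodule.span F (Set.range x)

end Pool.Agent.Lib.MP_71775e_co
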