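import Mathlib
import Pool.Agent.Lib.MP_71775e_co.H15Defs

/-!
Lifting clique minors and cube structures through the quotient by a label.
-/

set_option autoImplicit false

namespace Pool.Agent.Lib.MP_71775e_co

open Finset Classical

section Lift

variable {F : Type} [Field F] {V : Type} [AddCommGroup V] [Module F V]

theorem finite_quot [Finite V] (S : Submodule F V) : Finite (V ⧸ S) :=
  Finite.of_surjective _ (Submodule.mkQ_surjective S)

theorem finrank_quot [Finite V] (y : V) (hy : y ≠ 0) :
    Module.finrank F (V ⧸ Submodule.span F {y}) + 1 = Module.finrank F V := by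
  have h := Submodule.finrank_quotient_add_finrank (R := F) (Submodule.span F {y})
  rw [finrank_span_singleton hy] at h
  exact h

theorem QLab_labelSet {Y : Set V} (hY : LabelSet F Y) (y : V) : LabelSet F (QLab F y Y) := by
  refine ⟨fun h => h.1 rfl, ?_⟩
  rintro w ⟨hw0, z, hz, hzw⟩ c hc
  refine ⟨smul_ne_zero hc hw0, c • z, hY.2 _ hz _ hc, ?_⟩
  rw [map_smul, hzw]

/-- membership in the span of lifted vectors. -/
theorem mem_span_lift {ι : Type} (y : V) (x : ι → V) (v : V)
    (h : (Submodule.span F {y}).mkQ v ∈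
      Submodule.span F (Set.range (fun i => (Submodule.span F {y}).mkQ (x i)))) :
    ∃ a : F, v + a • y ∈ Submodule.span F (Set.range x) := by
  have h1 : Submodule.span F (Set.range (fun i => (Submodule.span F {y}).mkQ (x i))) =
      (Submodule.span F (Set.range x)).map (Submodule.span F {y}).mkQ := by
    rw [Submodule.map_span, ← Set.range_comp]
    rfl
  rw [h1] at h
  obtain ⟨s, hs, hsv⟩ := Submodule.mem_map.mp h
  rw [Submodule.mkQ_apply, Submodule.mkQ_apply, Submodule.Quotient.eq,
    Submodule.mem_span_singleton] at hsv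
  obtain ⟨a, ha⟩ := hsv
  refine ⟨a, ?_⟩
  rw [ha]
  have : v + (s - v) = s := by abel
  rw [this]
  exact hs

theorem span_lift_iff {Y : Set V} (y : V) (X' : Set (V ⧸ Submodule.span F {y}))
    (hX' : X' ⊆ QLab F y Y) (v : V) :
    (Submodule.span F {y}).mkQ v ∈ Submodule.span F X' ↔
      v ∈ Submodule.span F ({y} ∪ {z | z ∈ Y ∧ (Submodule.span F {y}).mkQ z ∈ X'}) := by
  set p := (Submodule.span F {y}).mkQ with hp
  have himg : p '' {z | z ∈ Y ∧ p z ∈ X'} = X' := by
    ext w
    constructor
    · rintro ⟨z, hz, rfl⟩; exact hz.2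
    · intro hw
      obtain ⟨_, z, hz, hzw⟩ := hX' hw
      exact ⟨z, ⟨hz, by rw [hzw]; exact hw⟩, hzw⟩
  constructor
  · intro h
    rw [← himg, ← Submodule.map_span] at h
    obtain ⟨s, hs, hsv⟩ := Submodule.mem_map.mp h
    rw [hp, Submodule.mkQ_apply, Submodule.mkQ_apply, Submodule.Quotient.eq] at hsv
    have h1 : v = s - (s - v) := by abel
    rw [h1]
    apply Submodule.sub_mem
    · exact Submodule.span_mono Set.subset_union_right hs
    · exact Submodule.span_mono Set.subset_union_left hsv
  · intro h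
    have h1 : p v ∈ (Submodule.span F ({y} ∪ {z | z ∈ Y ∧ p z ∈ X'})).map p :=
      Submodule.mem_map_of_mem h
    rw [Submodule.map_span, Set.image_union, himg, Set.image_singleton] at h1
    have h2 : p y = 0 := by
      rw [hp, Submodule.mkQ_apply, Submodule.Quotient.mk_eq_zero]
      exact Submodule.mem_span_singleton_self y
    rw [h2] at h1
    have h3 : Submodule.span F ({(0 : V ⧸ Submodule.span F {y})} ∪ X') = Submodule.span F X' := by
      rw [Set.singleton_union, Submodule.span_insert_zero]
    rw [h3] at h1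
    exact h1

theorem CliqueMinor.lift {n : ℕ} {Y : Set V} {y : V} (hy : y ∈ Y)
    (h : CliqueMinor F n (QLab F y Y)) : CliqueMinor F n Y := by
  obtain ⟨X', hX', u', hu', hE⟩ := h
  set p := (Submodule.span F {y}).mkQ with hp
  have hsurj : Function.Surjective p := Submodule.mkQ_surjective _
  choose u hu using fun i => hsurj (u' i)
  refine ⟨{y} ∪ {z | z ∈ Y ∧ p z ∈ X'}, ?_, u, ?_, ?_⟩
  · rintro z (hz | hz)
    · rw [Set.mem_singleton_iff.mp hz]; exact hy
    · exact hz.1
  · intro c hc
    apply hu' c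
    have h1 := (span_lift_iff y X' hX' (∑ i, c i • u i)).mpr hc
    rw [map_sum] at h1
    have h2 : ∀ i, p (c i • u i) = c i • u' i := fun i => by rw [map_smul, hu]
    simpa [← hp, h2] using h1
  · intro i j hij
    obtain ⟨a', ⟨_, a, ha, hpa⟩, ha2⟩ := hE i j hij
    refine ⟨a, ha, ?_⟩
    apply (span_lift_iff y X' hX' _).mp
    rw [map_sub, map_sub]
    rw [← hp] at hpa
    rw [← hp, hpa, hu, hu]
    exact ha2

theorem Shat.lift1 {k : ℕ} {Y R : Set V} (hY : LabelSet F Y) {y0 : V} (hy0 : y0 ∈ Y)
    (h : Shat F k (QLab F y0 Y) (QIm F y0 R)) : Shat F k Y R := by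
  obtain ⟨m, x', y', hx', hy', hind, v', L, hL, hLr⟩ := h
  set p := (Submodule.span F {y0}).mkQ with hp
  have hy00 : y0 ≠ 0 := fun h => hY.1 (h ▸ hy0)
  choose x hxY hx using fun i => (hx' i).2
  choose y hyY hy using fun i => (hy' i).2
  obtain ⟨v, hv⟩ := Submodule.mkQ_surjective (Submodule.span F {y0}) v'
  have hpy0 : p y0 = 0 := by
    rw [hp, Submodule.mkQ_apply, Submodule.Quotient.mk_eq_zero]
    exact Submodule.mem_span_singleton_self y0
  refine ⟨m + 1, Fin.cons y0 x, y, ?_, hyY, ?_, v, L, hL, ?_⟩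
  · intro i
    refine Fin.cases ?_ ?_ i
    · simpa using hy0
    · intro j; simpa using hxY j
  · intro c d hcd
    rw [Fin.sum_univ_succ] at hcd
    simp only [Fin.cons_zero, Fin.cons_succ] at hcd
    have h1 := congrArg p hcd
    simp only [map_add, map_sum, map_smul, hpy0, smul_zero, zero_add, map_zero] at h1
    have h2 : ∀ i, p (x i) = x' i := hx
    have h3 : ∀ i, p (y i) = y' i := hy
    simp only [h2, h3] at h1
    obtain ⟨h4, h5⟩ := hind (fun i => c i.succ) d h1
    have h6 : ∀ i : Fin m, c i.succ = 0 := fun i => congrFun h4 i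
    have h7 : ∀ i : Fin k, d i = 0 := fun i => congrFun h5 i
    simp only [h6, h7, zero_smul, Finset.sum_const_zero, add_zero] at hcd
    refine ⟨?_, h5⟩
    funext i
    refine Fin.cases ?_ ?_ i
    · exact (smul_eq_zero.mp hcd).resolve_right hy00
    · intro j; exact h6 j
  · intro c hc
    obtain ⟨r', ⟨r, hr, hrr⟩, hmem⟩ := hLr c hc
    refine ⟨r, hr, ?_⟩
    have h1 : (v' + ∑ i, c i • y' i) - r' = p ((v + ∑ i, c i • y i) - r) := by
      simp only [map_sub, map_add, map_sum, map_smul]
      rw [hp, hv, hrr]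
      congr 2
      apply Finset.sum_congr rfl
      intro i _
      rw [hy]
    have h2 : Set.range x' = Set.range (fun i => p (x i)) := by
      congr 1
      funext i
      exact (hx i).symm
    rw [h1, h2] at hmem
    obtain ⟨a, ha⟩ := mem_span_lift y0 x _ hmem
    have h3 : (v + ∑ i, c i • y i) - r = ((v + ∑ i, c i • y i) - r + a • y0) - a • y0 := by abel
    rw [h3]
    apply Submodule.sub_mem
    · apply Submodule.span_mono _ ha
      rintro _ ⟨i, rfl⟩
      exact ⟨i.succ, by simp⟩
    · apply Submodule.smul_mem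
      apply Submodule.subset_span
      exact ⟨0, by simp⟩

theorem Shat.lift2 [Finite V] [Finite F] {k : ℕ} {Y R : Set V} (hY : LabelSet F Y) {y0 : V}
    (hy0 : y0 ∈ Y) (h : Shat F k (QLab F y0 Y) (QTwo F y0 R)) : Shat F (k + 1) Y R := by
  have : Fintype F := Fintype.ofFinite F
  obtain ⟨m, x', y', hx', hy', hind, v', L, hL, hLr⟩ := h
  set p := (Submodule.span F {y0}).mkQ with hp
  have hy00 : y0 ≠ 0 := fun h => hY.1 (h ▸ hy0)
  choose x hxY hx using fun i => (hx' i).2
  choose y hyY hy using fun i => (hy' i).2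
  obtain ⟨v, hv⟩ := Submodule.mkQ_surjective (Submodule.span F {y0}) v'
  have hpy0 : p y0 = 0 := by
    rw [hp, Submodule.mkQ_apply, Submodule.Quotient.mk_eq_zero]
    exact Submodule.mem_span_singleton_self y0
  have hindep : ∀ (c : Fin m → F) (d : Fin (k + 1) → F),
      (∑ i, c i • x i) + (∑ i, d i • (Fin.cons y0 y : Fin (k + 1) → V) i) = 0 →
      c = 0 ∧ d = 0 := by
    intro c d hcd
    rw [Fin.sum_univ_succ (n := k)] at hcd
    simp only [Fin.cons_zero, Fin.cons_succ] at hcd
    have h1 := congrArg p hcd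
    simp only [map_add, map_sum, map_smul, hpy0, smul_zero, zero_add, map_zero] at h1
    have h2 : ∀ i, p (x i) = x' i := hx
    have h3 : ∀ i, p (y i) = y' i := hy
    simp only [h2, h3] at h1
    obtain ⟨h4, h5⟩ := hind c (fun i => d i.succ) h1
    have h6 : ∀ i : Fin m, c i = 0 := fun i => congrFun h4 i
    have h7 : ∀ i : Fin k, d i.succ = 0 := fun i => congrFun h5 i
    simp only [h6, h7, zero_smul, Finset.sum_const_zero, add_zero, zero_add] at hcd
    refine ⟨h4, ?_⟩
    funext i
    refine Fin.cases ?_ ?_ i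
    · exact (smul_eq_zero.mp hcd).resolve_right hy00
    · intro j; exact h7 j
  -- two extensions for each element of L
  have hext : ∀ c : Fin k → F, c ∈ L → ∃ a1 a2 : F, a1 ≠ a2 ∧
      (∃ r ∈ R, (v + ∑ i, (Fin.cons a1 c : Fin (k + 1) → F) i •
        (Fin.cons y0 y : Fin (k + 1) → V) i) - r ∈ Submodule.span F (Set.range x)) ∧
      (∃ r ∈ R, (v + ∑ i, (Fin.cons a2 c : Fin (k + 1) → F) i •
        (Fin.cons y0 y : Fin (k + 1) → V) i) - r ∈ Submodule.span F (Set.range x)) := by
    intro c hc
    obtain ⟨r', ⟨r1, hr1, r2, hr2, hne, hrr1, hrr2⟩, hmem⟩ := hLr c hc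
    have h2 : Set.range x' = Set.range (fun i => p (x i)) := by
      congr 1
      funext i
      exact (hx i).symm
    have key : ∀ r : V, p r = r' → ∃ a : F, (v + ∑ i, c i • y i) - r + a • y0 ∈
        Submodule.span F (Set.range x) := by
      intro r hr
      have h1 : (v' + ∑ i, c i • y' i) - r' = p ((v + ∑ i, c i • y i) - r) := by
        simp only [map_sub, map_add, map_sum, map_smul]
        rw [hr]
        congr 2
        · exact hv.symm
        · apply Finset.sum_congr rfl
          intro i _
          have := hy i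
          rw [← hp] at this
          rw [this]
      rw [h1, h2] at hmem
      exact mem_span_lift y0 x _ hmem
    obtain ⟨a1, ha1⟩ := key r1 hrr1
    obtain ⟨a2, ha2⟩ := key r2 hrr2
    have hsum : ∀ a : F, ∀ r : V, (v + ∑ i, (Fin.cons a c : Fin (k + 1) → F) i •
        (Fin.cons y0 y : Fin (k + 1) → V) i) - r = (v + ∑ i, c i • y i) - r + a • y0 := by
      intro a r
      rw [Fin.sum_univ_succ]
      simp only [Fin.cons_zero, Fin.cons_succ]
      abel
    refine ⟨a1, a2, ?_, ⟨r1, hr1, ?_⟩, ⟨r2, hr2, ?_⟩⟩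
    · intro haa
      subst haa
      have h3 := Submodule.sub_mem _ ha2 ha1
      have h4 : (v + ∑ i, c i • y i) - r2 + a1 • y0 - ((v + ∑ i, c i • y i) - r1 + a1 • y0) =
          r1 - r2 := by abel
      rw [h4] at h3
      have h5 : p r1 = p r2 := hrr1.trans hrr2.symm
      rw [hp, Submodule.mkQ_apply, Submodule.mkQ_apply, Submodule.Quotient.eq,
        Submodule.mem_span_singleton] at h5
      obtain ⟨b, hb⟩ := h5
      rw [← hb] at h3
      obtain ⟨c', hc'⟩ := (Submodule.mem_span_range_iff_exists_fun F).mp h3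
      have h6 := hindep c' (Fin.cons (-b) 0) (by
        rw [Fin.sum_univ_succ (n := k)]
        simp only [Fin.cons_zero, Fin.cons_succ, Pi.zero_apply, zero_smul,
          Finset.sum_const_zero, add_zero]
        rw [hc', neg_smul]
        abel)
      have h7 : (Fin.cons (-b) 0 : Fin (k + 1) → F) 0 = 0 := by rw [h6.2]; rfl
      rw [Fin.cons_zero] at h7
      have h8 : b = 0 := neg_eq_zero.mp h7
      rw [h8, zero_smul] at hb
      exact hne (sub_eq_zero.mp hb.symm)
    · rw [hsum]; exact ha1
    · rw [hsum]; exact ha2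
  choose! a1 a2 haa hra1 hra2 using hext
  refine ⟨m, x, Fin.cons y0 y, hxY, ?_, hindep, v,
    Finset.univ.filter (fun c => ∃ r ∈ R, (v + ∑ i, c i •
        (Fin.cons y0 y : Fin (k + 1) → V) i) - r ∈ Submodule.span F (Set.range x)), ?_, ?_⟩
  · intro i
    refine Fin.cases ?_ ?_ i
    · simpa using hy0
    · intro j; simpa using hyY j
  · have h1 : (L ×ˢ (Finset.univ : Finset Bool)).card ≤ (Finset.univ.filter
        (fun c : Fin (k + 1) → F => ∃ r ∈ R, (v + ∑ i, c i •
        (Fin.cons y0 y : Fin (k + 1) → V) i) - r ∈ Submodule.span F (Set.range x))).card := by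
      apply Finset.card_le_card_of_injOn
        (fun t => (Fin.cons (if t.2 then a1 t.1 else a2 t.1) t.1 : Fin (k + 1) → F))
      · rintro ⟨c, b⟩ hcb
        have hc : c ∈ L := (Finset.mem_product.mp (Finset.mem_coe.mp hcb)).1
        simp only [Finset.coe_filter, Finset.mem_univ, true_and, Set.mem_ofPred_eq]
        cases b
        · exact hra2 c hc
        · exact hra1 c hc
      · rintro ⟨c, b⟩ hcb ⟨c', b'⟩ hcb' heq
        have hc : c ∈ L := (Finset.mem_product.mp (Finset.mem_coe.mp hcb)).1
        simp only at heq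
        obtain ⟨h2, h3⟩ := (Fin.cons_inj).mp heq
        subst h3
        cases b with
        | false =>
          cases b' with
          | false => rfl
          | true => exact absurd h2.symm (haa c hc)
        | true =>
          cases b' with
          | false => exact absurd h2 (haa c hc)
          | true => rfl
    rw [Finset.card_product, Finset.card_univ, Fintype.card_bool] at h1
    calc 2 ^ (k + 1) = 2 ^ k * 2 := pow_succ _ _
      _ ≤ L.card * 2 := Nat.mul_le_mul_right _ hL
      _ ≤ _ := h1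
  · intro c hc
    exact (Finset.mem_filter.mp hc).2

theorem Shat.base {Y R : Set V} {D : ℕ} (h : StageHyp D Y R) : Shat F 0 Y R := by
  obtain ⟨Q, ⟨r, hr⟩, hQR, -⟩ := h
  refine ⟨0, Fin.elim0, Fin.elim0, fun i => i.elim0, fun i => i.elim0, ?_, r,
    {Fin.elim0}, by simp, ?_⟩
  · intro c d _
    exact ⟨funext fun i => i.elim0, funext fun i => i.elim0⟩
  · intro c _
    refine ⟨r, hQR hr, ?_⟩
    simp

end Lift

end Pool.Agent.Lib.MP_71775e_co
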