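import Mathlib
import Pool.Agent.Lib.MP_71775e_co.H15Defs

/-!
Module T, part 1: pure counting lemmas for symmetric relations and fibres.
-/

set_option autoImplicit false

namespace Pool.Agent.Lib.MP_71775e_co

open Finset Classical

section Abstract

variable {V W : Type}

/-- number of ordered adjacent pairs in `Q`. -/
noncomputable def En (adj : V → V → Prop) (Q : Finset V) : ℕ :=
  ((Q ×ˢ Q).filter (fun p => adj p.1 p.2)).card

/-- number of ordered pairs of distinct elements in the same fibre. -/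
noncomputable def Ey (p : V → W) (Q : Finset V) : ℕ :=
  ((Q ×ˢ Q).filter (fun t => t.1 ≠ t.2 ∧ p t.1 = p t.2)).card

/-- number of triples `(x, x', z)`, `x ≠ x'` in the same fibre, both adjacent to `z`. -/
noncomputable def Try (adj : V → V → Prop) (p : V → W) (Q : Finset V) : ℕ :=
  ((Q ×ˢ Q ×ˢ Q).filter (fun t => t.1 ≠ t.2.1 ∧ p t.1 = p t.2.1 ∧ adj t.1 t.2.2 ∧
    adj t.2.1 t.2.2)).card

/-- number of ordered triangles. -/
noncomputable def Tr (adj : V → V → Prop) (Q : Finset V) : ℕ :=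
  ((Q ×ˢ Q ×ˢ Q).filter (fun t => adj t.1 t.2.1 ∧ adj t.1 t.2.2 ∧ adj t.2.1 t.2.2)).card

noncomputable def fib (p : V → W) (Q : Finset V) (w : W) : Finset V := Q.filter (fun x => p x = w)

noncomputable def Q2 (p : V → W) (Q : Finset V) : Finset W :=
  (Q.image p).filter (fun w => 2 ≤ (fib p Q w).card)

theorem star (p : V → W) (adj : V → V → Prop) (adjW : W → W → Prop)
    (hs : ∀ x x', adj x x' → adj x' x) (hirr : ∀ x, ¬ adj x x)
    (hadj : ∀ x x', adj x x' → p x ≠ p x' → adjW (p x) (p x')) (Q : Finset V) (q : ℕ)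
    (hq : ∀ w, (fib p Q w).card ≤ q) :
    En adj Q ≤ Ey p Q + En adjW (Q.image p) + q ^ 2 * En adjW (Q2 p Q) + 2 * Try adj p Q := by
  set T := (Q.image p) ×ˢ (Q.image p) with hT
  have e1 : En adj Q = ∑ b ∈ T, (((Q ×ˢ Q).filter (fun t => adj t.1 t.2)).filter
      (fun t => (p t.1, p t.2) = b)).card := by
    unfold En
    apply Finset.card_eq_sum_card_fiberwise
    intro t ht
    simp only [Finset.coe_filter, Finset.mem_product, Set.mem_ofPred_eq] at ht
    simp only [hT, Finset.coe_product, Finset.coe_image, Set.mem_prod, Set.mem_image,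
      Finset.mem_coe]
    exact ⟨⟨t.1, ht.1.1, rfl⟩, ⟨t.2, ht.1.2, rfl⟩⟩
  have e2 : Ey p Q = ∑ b ∈ T, (((Q ×ˢ Q).filter (fun t => t.1 ≠ t.2 ∧ p t.1 = p t.2)).filter
      (fun t => (p t.1, p t.2) = b)).card := by
    unfold Ey
    apply Finset.card_eq_sum_card_fiberwise
    intro t ht
    simp only [Finset.coe_filter, Finset.mem_product, Set.mem_ofPred_eq] at ht
    simp only [hT, Finset.coe_product, Finset.coe_image, Set.mem_prod, Set.mem_image,
      Finset.mem_coe]
    exact ⟨⟨t.1, ht.1.1, rfl⟩, ⟨t.2, ht.1.2, rfl⟩⟩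
  have e3 : En adjW (Q.image p) = ∑ b ∈ T, if adjW b.1 b.2 then 1 else 0 := by
    unfold En
    rw [Finset.card_filter]
  have e4 : En adjW (Q2 p Q) = ∑ b ∈ T, if (b.1 ∈ Q2 p Q ∧ b.2 ∈ Q2 p Q) ∧ adjW b.1 b.2
      then 1 else 0 := by
    unfold En
    rw [← Finset.card_filter]
    congr 1
    ext b
    simp only [hT, Finset.mem_filter, Finset.mem_product]
    constructor
    · rintro ⟨⟨h1, h2⟩, h3⟩
      exact ⟨⟨(Finset.mem_filter.mp h1).1, (Finset.mem_filter.mp h2).1⟩, ⟨h1, h2⟩, h3⟩
    · rintro ⟨_, ⟨h1, h2⟩, h3⟩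
      exact ⟨⟨h1, h2⟩, h3⟩
  have e5 : Try adj p Q = ∑ b ∈ T, (((Q ×ˢ Q ×ˢ Q).filter (fun t => t.1 ≠ t.2.1 ∧
      p t.1 = p t.2.1 ∧ adj t.1 t.2.2 ∧ adj t.2.1 t.2.2)).filter
      (fun t => (p t.1, p t.2.2) = b)).card := by
    unfold Try
    apply Finset.card_eq_sum_card_fiberwise
    intro t ht
    simp only [Finset.coe_filter, Finset.mem_product, Set.mem_ofPred_eq] at ht
    simp only [hT, Finset.coe_product, Finset.coe_image, Set.mem_prod, Set.mem_image,
      Finset.mem_coe]
    exact ⟨⟨t.1, ht.1.1, rfl⟩, ⟨t.2.2, ht.1.2.2, rfl⟩⟩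
  have e6 : Try adj p Q = ∑ b ∈ T, (((Q ×ˢ Q ×ˢ Q).filter (fun t => t.1 ≠ t.2.1 ∧
      p t.1 = p t.2.1 ∧ adj t.1 t.2.2 ∧ adj t.2.1 t.2.2)).filter
      (fun t => (p t.2.2, p t.1) = b)).card := by
    unfold Try
    apply Finset.card_eq_sum_card_fiberwise
    intro t ht
    simp only [Finset.coe_filter, Finset.mem_product, Set.mem_ofPred_eq] at ht
    simp only [hT, Finset.coe_product, Finset.coe_image, Set.mem_prod, Set.mem_image,
      Finset.mem_coe]
    exact ⟨⟨t.2.2, ht.1.2.2, rfl⟩, ⟨t.1, ht.1.1, rfl⟩⟩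
  have e7 : 2 * Try adj p Q = Try adj p Q + Try adj p Q := by ring
  rw [e7]
  nth_rewrite 1 [e5]
  nth_rewrite 1 [e6]
  rw [e1, e2, e3, e4, Finset.mul_sum, ← Finset.sum_add_distrib, ← Finset.sum_add_distrib,
    ← Finset.sum_add_distrib, ← Finset.sum_add_distrib]
  apply Finset.sum_le_sum
  rintro ⟨w, w'⟩ hb
  by_cases hww : w = w'
  · -- same fibre
    subst hww
    refine le_trans ?_ (Nat.le_add_right _ _)
    refine le_trans ?_ (Nat.le_add_right _ _)
    refine le_trans ?_ (Nat.le_add_right _ _)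
    apply Finset.card_le_card
    intro t ht
    simp only [Finset.mem_filter, Finset.mem_product, Prod.mk.injEq] at ht ⊢
    refine ⟨⟨ht.1.1, ?_, ?_⟩, ht.2⟩
    · intro h
      have := ht.1.2
      rw [h] at this
      exact hirr _ this
    · rw [ht.2.1, ht.2.2]
  · -- different fibres
    set S := (((Q ×ˢ Q).filter (fun t => adj t.1 t.2)).filter
      (fun t => (p t.1, p t.2) = (w, w'))) with hS
    rcases S.eq_empty_or_nonempty with hS0 | ⟨t0, ht0⟩
    · rw [hS0]; simp
    have ht0' := ht0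
    simp only [hS, Finset.mem_filter, Finset.mem_product, Prod.mk.injEq] at ht0'
    obtain ⟨⟨⟨hx0, hz0⟩, hadj0⟩, hw0, hw0'⟩ := ht0'
    have hW : adjW w w' := by
      rw [← hw0, ← hw0']
      apply hadj _ _ hadj0
      rw [hw0, hw0']
      exact hww
    have hb1 : (if adjW (w, w').1 (w, w').2 then 1 else 0) = 1 := by simp [hW]
    by_cases h2 : 2 ≤ (fib p Q w).card ∧ 2 ≤ (fib p Q w').card
    · have hm1 : w ∈ Q2 p Q := by
        simp only [Q2, Finset.mem_filter, Finset.mem_image]
        exact ⟨⟨t0.1, hx0, hw0⟩, h2.1⟩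
      have hm2 : w' ∈ Q2 p Q := by
        simp only [Q2, Finset.mem_filter, Finset.mem_image]
        exact ⟨⟨t0.2, hz0, hw0'⟩, h2.2⟩
      have hc1 : (if ((w, w').1 ∈ Q2 p Q ∧ (w, w').2 ∈ Q2 p Q) ∧ adjW (w, w').1 (w, w').2
          then 1 else 0) = 1 := by simp [hW, hm1, hm2]
      have hle : S.card ≤ q ^ 2 := by
        have : S ⊆ (fib p Q w) ×ˢ (fib p Q w') := by
          intro t ht
          simp only [hS, Finset.mem_filter, Finset.mem_product, Prod.mk.injEq] at ht
          simp only [fib, Finset.mem_filter, Finset.mem_product]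
          exact ⟨⟨ht.1.1.1, ht.2.1⟩, ⟨ht.1.1.2, ht.2.2⟩⟩
        calc S.card ≤ ((fib p Q w) ×ˢ (fib p Q w')).card := Finset.card_le_card this
          _ = (fib p Q w).card * (fib p Q w').card := Finset.card_product _ _
          _ ≤ q * q := Nat.mul_le_mul (hq _) (hq _)
          _ = q ^ 2 := by ring
      rw [hc1]
      omega
    · rcases Classical.em (2 ≤ (fib p Q w).card) with h3 | h3
      · -- the fibre of w' is a single point
        have h4 : (fib p Q w').card ≤ 1 := by
          by_contra h; exact h2 ⟨h3, by omega⟩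
        have h5 : ∀ t ∈ S, t.2 = t0.2 := by
          intro t ht
          simp only [hS, Finset.mem_filter, Finset.mem_product, Prod.mk.injEq] at ht
          apply Finset.card_le_one.mp h4
          · simp only [fib, Finset.mem_filter]; exact ⟨ht.1.1.2, ht.2.2⟩
          · simp only [fib, Finset.mem_filter]; exact ⟨hz0, hw0'⟩
        have h6 : (S.erase t0).card ≤ (((Q ×ˢ Q ×ˢ Q).filter (fun t => t.1 ≠ t.2.1 ∧
            p t.1 = p t.2.1 ∧ adj t.1 t.2.2 ∧ adj t.2.1 t.2.2)).filter
            (fun t => (p t.1, p t.2.2) = (w, w'))).card := by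
          apply Finset.card_le_card_of_injOn (fun t => (t.1, t0.1, t0.2))
          · intro t ht
            have ht1 := Finset.mem_erase.mp (Finset.mem_coe.mp ht)
            have ht2 := ht1.2
            simp only [hS, Finset.mem_filter, Finset.mem_product, Prod.mk.injEq] at ht2
            have h7 := h5 t ht1.2
            simp only [Finset.coe_filter, Finset.mem_filter, Finset.mem_product, Prod.mk.injEq,
              Set.mem_ofPred_eq]
            refine ⟨⟨⟨ht2.1.1.1, hx0, hz0⟩, ?_, ?_, ?_, hadj0⟩, ht2.2.1, hw0'⟩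
            · intro h
              exact ht1.1 (Prod.ext h h7)
            · rw [ht2.2.1, hw0]
            · rw [← h7]; exact ht2.1.2
          · intro t ht t' ht' h
            have ht1 := (Finset.mem_erase.mp (Finset.mem_coe.mp ht)).2
            have ht1' := (Finset.mem_erase.mp (Finset.mem_coe.mp ht')).2
            simp only [Prod.mk.injEq, and_true] at h
            exact Prod.ext h ((h5 t ht1).trans (h5 t' ht1').symm)
        rw [Finset.card_erase_of_mem ht0] at h6
        rw [hb1]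
        omega
      · -- the fibre of w is a single point
        have h4 : (fib p Q w).card ≤ 1 := by omega
        have h5 : ∀ t ∈ S, t.1 = t0.1 := by
          intro t ht
          simp only [hS, Finset.mem_filter, Finset.mem_product, Prod.mk.injEq] at ht
          apply Finset.card_le_one.mp h4
          · simp only [fib, Finset.mem_filter]; exact ⟨ht.1.1.1, ht.2.1⟩
          · simp only [fib, Finset.mem_filter]; exact ⟨hx0, hw0⟩
        have h6 : (S.erase t0).card ≤ (((Q ×ˢ Q ×ˢ Q).filter (fun t => t.1 ≠ t.2.1 ∧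
            p t.1 = p t.2.1 ∧ adj t.1 t.2.2 ∧ adj t.2.1 t.2.2)).filter
            (fun t => (p t.2.2, p t.1) = (w, w'))).card := by
          apply Finset.card_le_card_of_injOn (fun t => (t.2, t0.2, t0.1))
          · intro t ht
            have ht1 := Finset.mem_erase.mp (Finset.mem_coe.mp ht)
            have ht2 := ht1.2
            simp only [hS, Finset.mem_filter, Finset.mem_product, Prod.mk.injEq] at ht2
            have h7 := h5 t ht1.2
            simp only [Finset.coe_filter, Finset.mem_filter, Finset.mem_product, Prod.mk.injEq,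
              Set.mem_ofPred_eq]
            refine ⟨⟨⟨ht2.1.1.2, hz0, hx0⟩, ?_, ?_, ?_, hs _ _ hadj0⟩, hw0, ht2.2.2⟩
            · intro h
              exact ht1.1 (Prod.ext h7 h)
            · rw [ht2.2.2, hw0']
            · rw [← h7]; exact hs _ _ ht2.1.2
          · intro t ht t' ht' h
            have ht1 := (Finset.mem_erase.mp (Finset.mem_coe.mp ht)).2
            have ht1' := (Finset.mem_erase.mp (Finset.mem_coe.mp ht')).2
            simp only [Prod.mk.injEq, and_true] at h
            exact Prod.ext ((h5 t ht1).trans (h5 t' ht1').symm) h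
        rw [Finset.card_erase_of_mem ht0] at h6
        rw [hb1]
        omega

theorem Ey_le (p : V → W) (Q : Finset V) (q : ℕ) (hq : ∀ w, (fib p Q w).card ≤ q) :
    Ey p Q + q * (Q.image p).card ≤ q * Q.card := by
  have e1 : Ey p Q = ∑ b ∈ Q.image p,
      (((Q ×ˢ Q).filter (fun t => t.1 ≠ t.2 ∧ p t.1 = p t.2)).filter (fun t => p t.1 = b)).card := by
    unfold Ey
    apply Finset.card_eq_sum_card_fiberwise
    intro t ht
    simp only [Finset.coe_filter, Finset.mem_product, Set.mem_ofPred_eq] at ht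
    simp only [Finset.coe_image, Set.mem_image, Finset.mem_coe]
    exact ⟨t.1, ht.1.1, rfl⟩
  have e2 : Q.card = ∑ b ∈ Q.image p, (fib p Q b).card := by
    apply Finset.card_eq_sum_card_fiberwise
    intro t ht
    simp only [Finset.coe_image, Set.mem_image, Finset.mem_coe]
    exact ⟨t, ht, rfl⟩
  rw [e1, e2, Finset.mul_sum, mul_comm q (Q.image p).card, ← smul_eq_mul, ← Finset.sum_const,
    ← Finset.sum_add_distrib]
  apply Finset.sum_le_sum
  intro w hw
  have h1 : (((Q ×ˢ Q).filter (fun t => t.1 ≠ t.2 ∧ p t.1 = p t.2)).filter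
      (fun t => p t.1 = w)) = (fib p Q w).offDiag := by
    ext t
    simp only [fib, Finset.mem_filter, Finset.mem_product, Finset.mem_offDiag]
    constructor
    · rintro ⟨⟨⟨h1, h2⟩, h3, h4⟩, h5⟩
      exact ⟨⟨h1, h5⟩, ⟨h2, by rw [← h4, h5]⟩, h3⟩
    · rintro ⟨⟨h1, h2⟩, ⟨h3, h4⟩, h5⟩
      exact ⟨⟨⟨h1, h3⟩, h5, by rw [h2, h4]⟩, h2⟩
  rw [h1, Finset.offDiag_card]
  have h2 : 1 ≤ (fib p Q w).card := by
    obtain ⟨x, hx, hxw⟩ := Finset.mem_image.mp hw
    apply Finset.card_pos.mpr
    exact ⟨x, by simp only [fib, Finset.mem_filter]; exact ⟨hx, hxw⟩⟩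
  have h3 := hq w
  obtain ⟨k, hk⟩ : ∃ k, (fib p Q w).card = k + 1 := ⟨_, (Nat.sub_add_cancel h2).symm⟩
  rw [hk] at h3 ⊢
  have h4 : (k + 1) * (k + 1) - (k + 1) = (k + 1) * k := by
    rw [Nat.mul_succ]; omega
  rw [h4]
  nlinarith [Nat.zero_le k]

theorem Q2_le (p : V → W) (Q : Finset V) :
    (Q2 p Q).card + (Q.image p).card ≤ Q.card := by
  have e2 : Q.card = ∑ b ∈ Q.image p, (fib p Q b).card := by
    apply Finset.card_eq_sum_card_fiberwise
    intro t ht
    simp only [Finset.coe_image, Set.mem_image, Finset.mem_coe]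
    exact ⟨t, ht, rfl⟩
  have e3 : (Q2 p Q).card = ∑ b ∈ Q.image p, if 2 ≤ (fib p Q b).card then 1 else 0 := by
    unfold Q2
    rw [Finset.card_filter]
  have e4 : (Q.image p).card = ∑ b ∈ Q.image p, 1 := by simp
  rw [e2, e3, e4, ← Finset.sum_add_distrib]
  apply Finset.sum_le_sum
  intro w hw
  have h2 : 1 ≤ (fib p Q w).card := by
    obtain ⟨x, hx, hxw⟩ := Finset.mem_image.mp hw
    apply Finset.card_pos.mpr
    exact ⟨x, by simp only [fib, Finset.mem_filter]; exact ⟨hx, hxw⟩⟩
  split_ifs with h <;> omega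

/-- degree of `x` in `Q`. -/
noncomputable def dg (adj : V → V → Prop) (Q : Finset V) (x : V) : ℕ :=
  (Q.filter (fun z => adj x z)).card

theorem En_eq_sum (adj : V → V → Prop) (Q : Finset V) : En adj Q = ∑ x ∈ Q, dg adj Q x := by
  unfold En dg
  rw [Finset.card_filter, Finset.sum_product]
  apply Finset.sum_congr rfl
  intro x hx
  rw [Finset.card_filter]

theorem En_erase (adj : V → V → Prop) (hs : ∀ x x', adj x x' → adj x' x) (Q : Finset V) (x : V) :
    En adj Q ≤ En adj (Q.erase x) + 2 * dg adj Q x := by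
  have h : (Q ×ˢ Q).filter (fun p => adj p.1 p.2) ⊆
      (((Q.erase x) ×ˢ (Q.erase x)).filter (fun p => adj p.1 p.2)) ∪
      ((Q.filter (fun z => adj x z)).image (fun z => (x, z)) ∪
      (Q.filter (fun z => adj x z)).image (fun z => (z, x))) := by
    rintro ⟨a, b⟩ hab
    simp only [Finset.mem_filter, Finset.mem_product] at hab
    simp only [Finset.mem_union, Finset.mem_filter, Finset.mem_product, Finset.mem_erase,
      Finset.mem_image, Prod.mk.injEq]
    by_cases h1 : a = x
    · right; left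
      exact ⟨b, ⟨hab.1.2, h1 ▸ hab.2⟩, h1.symm, rfl⟩
    · by_cases h2 : b = x
      · right; right
        exact ⟨a, ⟨hab.1.1, h2 ▸ hs _ _ hab.2⟩, rfl, h2.symm⟩
      · left
        exact ⟨⟨⟨h1, hab.1.1⟩, ⟨h2, hab.1.2⟩⟩, hab.2⟩
  unfold En dg
  refine (Finset.card_le_card h).trans ?_
  refine (Finset.card_union_le _ _).trans ?_
  refine Nat.add_le_add_left ?_ _
  refine (Finset.card_union_le _ _).trans ?_
  have h1 := Finset.card_image_le (s := Q.filter (fun z => adj x z)) (f := fun z => (x, z))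
  have h2 := Finset.card_image_le (s := Q.filter (fun z => adj x z)) (f := fun z => (z, x))
  omega

theorem Tr_erase (adj : V → V → Prop) (hs : ∀ x x', adj x x' → adj x' x) (Q : Finset V) (x : V) :
    Tr adj Q ≤ Tr adj (Q.erase x) + 3 * En adj (Q.filter (fun z => adj x z)) := by
  set N := Q.filter (fun z => adj x z) with hN
  set P := (N ×ˢ N).filter (fun p => adj p.1 p.2) with hP
  have h : (Q ×ˢ Q ×ˢ Q).filter (fun t => adj t.1 t.2.1 ∧ adj t.1 t.2.2 ∧ adj t.2.1 t.2.2) ⊆
      (((Q.erase x) ×ˢ (Q.erase x) ×ˢ (Q.erase x)).filter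
        (fun t => adj t.1 t.2.1 ∧ adj t.1 t.2.2 ∧ adj t.2.1 t.2.2)) ∪
      (P.image (fun p => (x, p.1, p.2)) ∪ (P.image (fun p => (p.1, x, p.2)) ∪
        P.image (fun p => (p.1, p.2, x)))) := by
    rintro ⟨a, b, c⟩ habc
    simp only [Finset.mem_filter, Finset.mem_product] at habc
    obtain ⟨⟨ha, hb, hc⟩, hab, hac, hbc⟩ := habc
    simp only [Finset.mem_union, Finset.mem_filter, Finset.mem_product, Finset.mem_erase,
      Finset.mem_image, Prod.mk.injEq, hP, hN]
    by_cases h1 : a = x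
    · right; left
      subst h1
      exact ⟨(b, c), ⟨⟨⟨hb, hab⟩, ⟨hc, hac⟩⟩, hbc⟩, rfl, rfl, rfl⟩
    · by_cases h2 : b = x
      · right; right; left
        subst h2
        exact ⟨(a, c), ⟨⟨⟨ha, hs _ _ hab⟩, ⟨hc, hbc⟩⟩, hac⟩, rfl, rfl, rfl⟩
      · by_cases h3 : c = x
        · right; right; right
          subst h3
          exact ⟨(a, b), ⟨⟨⟨ha, hs _ _ hac⟩, ⟨hb, hs _ _ hbc⟩⟩, hab⟩, rfl, rfl, rfl⟩
        · left
          exact ⟨⟨⟨h1, ha⟩, ⟨h2, hb⟩, ⟨h3, hc⟩⟩, hab, hac, hbc⟩
  have hE : En adj N = P.card := rfl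
  rw [hE]
  unfold Tr
  refine (Finset.card_le_card h).trans ?_
  refine (Finset.card_union_le _ _).trans ?_
  refine Nat.add_le_add_left ?_ _
  refine (Finset.card_union_le _ _).trans ?_
  have h0 := Finset.card_union_le (P.image (fun p => (p.1, x, p.2)))
    (P.image (fun p => (p.1, p.2, x)))
  have h1 := Finset.card_image_le (s := P) (f := fun p => (x, p.1, p.2))
  have h2 := Finset.card_image_le (s := P) (f := fun p => (p.1, x, p.2))
  have h3 := Finset.card_image_le (s := P) (f := fun p => (p.1, p.2, x))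
  omega

theorem Tr_bound (adj : V → V → Prop) (hs : ∀ x x', adj x x' → adj x' x) (d T0 : ℕ)
    (Q : Finset V)
    (hdeg : ∀ Q' : Finset V, Q' ⊆ Q → Q'.Nonempty → ∃ x ∈ Q', dg adj Q' x ≤ d)
    (hT : ∀ N : Finset V, N.card ≤ d → En adj N ≤ T0) : Tr adj Q ≤ 3 * T0 * Q.card := by
  induction Q using Finset.strongInduction with
  | H Q ih =>
    rcases Q.eq_empty_or_nonempty with h0 | h0
    · subst h0
      simp [Tr]
    · obtain ⟨x, hx, hdx⟩ := hdeg Q (Finset.Subset.refl _) h0
      have h1 := ih (Q.erase x) (Finset.erase_ssubset hx)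
        (fun Q' hQ' hne => hdeg Q' (hQ'.trans (Finset.erase_subset _ _)) hne)
      have h2 := Tr_erase adj hs Q x
      have h3 := hT (Q.filter (fun z => adj x z)) hdx
      have h4 : Q.card = (Q.erase x).card + 1 := by
        rw [Finset.card_erase_of_mem hx]
        have := Finset.card_pos.mpr h0
        omega
      rw [h4]
      nlinarith

theorem exists_low_degree (adj : V → V → Prop) (hs : ∀ x x', adj x x' → adj x' x)
    (hirr : ∀ x, ¬ adj x x) (D : ℕ) (hD : 1 ≤ D)
    (Q : Finset V) (hmin : ∀ Q' : Finset V, Q' ⊂ Q → Q'.Nonempty → En adj Q' < D * Q'.card)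
    (Q' : Finset V) (hQ' : Q' ⊆ Q) (hne : Q'.Nonempty) : ∃ x ∈ Q', dg adj Q' x ≤ 2 * D := by
  obtain ⟨x, hx, hxmin⟩ := Finset.exists_min_image Q' (dg adj Q') hne
  refine ⟨x, hx, ?_⟩
  by_contra hcon
  push Not at hcon
  have h1 : dg adj Q' x * Q'.card ≤ En adj Q' := by
    rw [En_eq_sum, mul_comm, ← smul_eq_mul, ← Finset.sum_const]
    exact Finset.sum_le_sum (fun z hz => hxmin z hz)
  have h2 : dg adj Q' x + 1 ≤ Q'.card := by
    have h3 : (Q'.filter (fun z => adj x z)) ⊆ Q'.erase x := by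
      intro z hz
      simp only [Finset.mem_filter] at hz
      refine Finset.mem_erase.mpr ⟨?_, hz.1⟩
      rintro rfl
      exact hirr _ hz.2
    have h4 := Finset.card_le_card h3
    rw [Finset.card_erase_of_mem hx] at h4
    have := Finset.card_pos.mpr hne
    unfold dg
    omega
  rcases hQ'.eq_or_ssubset with heq | hss
  · subst heq
    have h5 : (Q'.erase x).Nonempty := by
      rw [← Finset.card_pos, Finset.card_erase_of_mem hx]
      omega
    have h6 := hmin (Q'.erase x) (Finset.erase_ssubset hx) h5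
    have h7 := En_erase adj hs Q' x
    rw [Finset.card_erase_of_mem hx] at h6
    obtain ⟨c, hc⟩ : ∃ c, Q'.card = c + 3 := ⟨Q'.card - 3, by omega⟩
    rw [hc] at h1 h6
    have h8 : c + 3 - 1 = c + 2 := rfl
    rw [h8] at h6
    nlinarith
  · have h6 := hmin Q' hss hne
    have h8 := Finset.card_pos.mpr hne
    nlinarith

end Abstract

end Pool.Agent.Lib.MP_71775e_co
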