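import Mathlib
import Pool.Agent.Lib.MP_71775e_co.H15Defs
import Pool.Agent.Lib.MP_71775e_co.H15Star

/-!
Module T, part 2: the trichotomy.
-/

set_option autoImplicit false

namespace Pool.Agent.Lib.MP_71775e_co

open Finset Classical

theorem E2_eq_En {V : Type} [AddCommGroup V] (Y : Set V) (Q : Finset V) :
    E2 Y Q = En (fun x x' => x' - x ∈ Y) Q := rfl

theorem LabelSet.symm {F : Type} [Field F] {V : Type} [AddCommGroup V] [Module F V] {Y : Set V}
    (hY : LabelSet F Y) (x x' : V) (h : x' - x ∈ Y) : x - x' ∈ Y := by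
  have h1 := hY.2 _ h (-1 : F) (by simp)
  have h2 : (-1 : F) • (x' - x) = x - x' := by
    rw [neg_smul, one_smul]; abel
  rwa [h2] at h1

theorem LabelSet.irr {F : Type} [Field F] {V : Type} [AddCommGroup V] [Module F V] {Y : Set V}
    (hY : LabelSet F Y) (x : V) : ¬ (x - x ∈ Y) := by
  rw [sub_self]; exact hY.1

theorem mkQ_eq_iff {F : Type} [Field F] {V : Type} [AddCommGroup V] [Module F V] (y x x' : V) :
    (Submodule.span F {y}).mkQ x = (Submodule.span F {y}).mkQ x' ↔ ∃ c : F, x' - x = c • y := by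
  rw [Submodule.mkQ_apply, Submodule.mkQ_apply, Submodule.Quotient.eq,
    Submodule.mem_span_singleton]
  constructor
  · rintro ⟨a, ha⟩
    refine ⟨-a, ?_⟩
    rw [neg_smul, ha]; abel
  · rintro ⟨a, ha⟩
    refine ⟨-a, ?_⟩
    rw [neg_smul, ← ha]; abel

theorem fib_card_le {F : Type} [Field F] [Fintype F] {V : Type} [AddCommGroup V] [Module F V]
    (y : V) (Q : Finset V) (w : V ⧸ Submodule.span F {y}) :
    (fib (Submodule.span F {y}).mkQ Q w).card ≤ Fintype.card F := by
  rcases (fib (Submodule.span F {y}).mkQ Q w).eq_empty_or_nonempty with h | ⟨x0, hx0⟩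
  · rw [h]; simp
  · have h1 : fib (Submodule.span F {y}).mkQ Q w ⊆
        (Finset.univ : Finset F).image (fun c => x0 + c • y) := by
      intro x hx
      simp only [fib, Finset.mem_filter] at hx hx0
      have h2 := (mkQ_eq_iff y x0 x).mp (hx0.2.trans hx.2.symm)
      obtain ⟨c, hc⟩ := h2
      refine Finset.mem_image.mpr ⟨c, Finset.mem_univ _, ?_⟩
      rw [← hc]; abel
    calc (fib (Submodule.span F {y}).mkQ Q w).card
        ≤ ((Finset.univ : Finset F).image (fun c => x0 + c • y)).card := Finset.card_le_card h1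
      _ ≤ (Finset.univ : Finset F).card := Finset.card_image_le
      _ = Fintype.card F := Finset.card_univ

theorem cnt_labels {F : Type} [Field F] [Fintype F] {V : Type} [AddCommGroup V] [Module F V]
    [Fintype V] {Y : Set V} (hY : LabelSet F Y) (v : V) :
    (∑ y ∈ Y.toFinset, if (v ≠ 0 ∧ ∃ c : F, v = c • y) then 1 else 0) =
      if v ∈ Y then Fintype.card F - 1 else 0 := by
  rw [← Finset.card_filter]
  split_ifs with hv
  · have hv0 : v ≠ 0 := fun h => hY.1 (h ▸ hv)
    have h1 : (Y.toFinset.filter (fun y => v ≠ 0 ∧ ∃ c : F, v = c • y)) =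
        ((Finset.univ : Finset F).erase 0).image (fun c => c • v) := by
      ext y
      simp only [Finset.mem_filter, Set.mem_toFinset, Finset.mem_image, Finset.mem_erase,
        Finset.mem_univ, and_true]
      constructor
      · rintro ⟨hy, _, c, hc⟩
        have hc0 : c ≠ 0 := by
          rintro rfl
          rw [zero_smul] at hc
          exact hv0 hc
        refine ⟨c⁻¹, inv_ne_zero hc0, ?_⟩
        rw [hc, smul_smul, inv_mul_cancel₀ hc0, one_smul]
      · rintro ⟨c, hc0, rfl⟩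
        refine ⟨hY.2 _ hv _ hc0, hv0, c⁻¹, ?_⟩
        rw [smul_smul, inv_mul_cancel₀ hc0, one_smul]
    rw [h1, Finset.card_image_of_injective _ (smul_left_injective F hv0),
      Finset.card_erase_of_mem (Finset.mem_univ _), Finset.card_univ]
  · rw [Finset.card_eq_zero, Finset.filter_eq_empty_iff]
    rintro y hy ⟨hv0, c, hc⟩
    have hc0 : c ≠ 0 := by
      rintro rfl
      rw [zero_smul] at hc
      exact hv0 hc
    apply hv
    rw [hc]
    exact hY.2 _ (Set.mem_toFinset.mp hy) _ hc0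

theorem sum_Ey {F : Type} [Field F] [Fintype F] {V : Type} [AddCommGroup V] [Module F V]
    [Fintype V] {Y : Set V} (hY : LabelSet F Y) (Q : Finset V) :
    ∑ y ∈ Y.toFinset, Ey (Submodule.span F {y}).mkQ Q = (Fintype.card F - 1) * E2 Y Q := by
  have h1 : ∀ y : V, Ey (Submodule.span F {y}).mkQ Q =
      ∑ t ∈ Q ×ˢ Q, if (t.2 - t.1 ≠ 0 ∧ ∃ c : F, t.2 - t.1 = c • y) then 1 else 0 := by
    intro y
    unfold Ey
    rw [← Finset.card_filter]
    congr 1
    apply Finset.filter_congr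
    intro t _
    rw [mkQ_eq_iff, sub_ne_zero]
    constructor
    · rintro ⟨h1, h2⟩; exact ⟨fun h => h1 h.symm, h2⟩
    · rintro ⟨h1, h2⟩; exact ⟨fun h => h1 h.symm, h2⟩
  simp only [h1]
  rw [Finset.sum_comm]
  simp only [cnt_labels hY]
  rw [E2, Finset.card_filter, Finset.mul_sum]
  apply Finset.sum_congr rfl
  intro t _
  split_ifs <;> simp

theorem sum_Try {F : Type} [Field F] [Fintype F] {V : Type} [AddCommGroup V] [Module F V]
    [Fintype V] {Y : Set V} (hY : LabelSet F Y) (Q : Finset V) :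
    ∑ y ∈ Y.toFinset, Try (fun x x' => x' - x ∈ Y) (Submodule.span F {y}).mkQ Q =
      (Fintype.card F - 1) * Tr (fun x x' => x' - x ∈ Y) Q := by
  have h1 : ∀ y : V, Try (fun x x' => x' - x ∈ Y) (Submodule.span F {y}).mkQ Q =
      ∑ t ∈ Q ×ˢ Q ×ˢ Q, if (t.2.2 - t.1 ∈ Y ∧ t.2.2 - t.2.1 ∈ Y) then
        (if (t.2.1 - t.1 ≠ 0 ∧ ∃ c : F, t.2.1 - t.1 = c • y) then 1 else 0) else 0 := by
    intro y
    unfold Try
    rw [Finset.card_filter]
    apply Finset.sum_congr rfl
    intro t _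
    by_cases h1 : (t.2.2 - t.1 ∈ Y ∧ t.2.2 - t.2.1 ∈ Y)
    · rw [if_pos h1]
      apply if_congr _ rfl rfl
      constructor
      · rintro ⟨h2, h3, _⟩
        exact ⟨sub_ne_zero.mpr (fun h => h2 h.symm), (mkQ_eq_iff _ _ _).mp h3⟩
      · rintro ⟨h2, h3⟩
        exact ⟨fun h => (sub_ne_zero.mp h2) h.symm, (mkQ_eq_iff _ _ _).mpr h3, h1⟩
    · rw [if_neg h1, if_neg]
      rintro ⟨_, _, h2⟩
      exact h1 h2
  simp only [h1]
  rw [Finset.sum_comm, Tr, Finset.card_filter, Finset.mul_sum]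
  apply Finset.sum_congr rfl
  intro t _
  by_cases h1 : (t.2.2 - t.1 ∈ Y ∧ t.2.2 - t.2.1 ∈ Y)
  · simp only [if_pos h1]
    rw [cnt_labels hY]
    by_cases h2 : t.2.1 - t.1 ∈ Y
    · rw [if_pos h2, if_pos ⟨h2, h1⟩, mul_one]
    · rw [if_neg h2, if_neg (fun h => h2 h.1), mul_zero]
  · simp only [if_neg h1]
    rw [if_neg (fun h => h1 h.2)]
    simp

/-- MODULE T. -/
theorem trichotomy (F : Type) [Field F] [Fintype F] (D D' : ℕ) (hD : 3 ≤ D)
    (hD' : 2 * (Fintype.card F ^ 2 * D' + Fintype.card F) ≤ D)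
    (V : Type) [AddCommGroup V] [Module F V] [Finite V] (Y R : Set V) (hY : LabelSet F Y)
    (h : StageHyp D Y R) :
    (∃ y ∈ Y, StageHyp D (QLab F y Y) (QIm F y R)) ∨
    (∃ y ∈ Y, StageHyp D' (QLab F y Y) (QTwo F y R)) ∨
    (∃ N : Finset V, N.card ≤ 2 * D ∧ D ^ 2 ≤ 12 * Fintype.card F * E2 Y N) := by
  have := Fintype.ofFinite V
  by_contra hcon
  push Not at hcon
  obtain ⟨hA, hB, hC⟩ := hcon
  set q := Fintype.card F with hq
  have hq2 : 2 ≤ q := Fintype.one_lt_card
  -- minimal Q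
  obtain ⟨Q0, hQ0⟩ := h
  obtain ⟨Q, hQmem, hQmin⟩ := Finset.exists_min_image
    (Finset.univ.filter (fun Q : Finset V => Q.Nonempty ∧ (Q : Set V) ⊆ R ∧ D * Q.card ≤ E2 Y Q))
    Finset.card ⟨Q0, Finset.mem_filter.mpr ⟨Finset.mem_univ _, hQ0⟩⟩
  obtain ⟨-, hQne, hQR, hQE⟩ := Finset.mem_filter.mp hQmem
  set adj : V → V → Prop := fun x x' => x' - x ∈ Y with hadj
  have hs : ∀ x x', adj x x' → adj x' x := fun x x' h => hY.symm x x' h
  have hirr : ∀ x, ¬ adj x x := fun x => hY.irr x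
  have hmin : ∀ Q' : Finset V, Q' ⊂ Q → Q'.Nonempty → En adj Q' < D * Q'.card := by
    intro Q' hQ' hne
    by_contra hle
    push Not at hle
    have h1 := hQmin Q' (Finset.mem_filter.mpr ⟨Finset.mem_univ _, hne,
      (Finset.coe_subset.mpr hQ'.1).trans hQR, hle⟩)
    exact absurd (Finset.card_lt_card hQ') (not_lt.mpr h1)
  -- the main inequality for each label
  have hmain : ∀ y ∈ Y, D * Ey (Submodule.span F {y}).mkQ Q ≤
      4 * q * Try adj (Submodule.span F {y}).mkQ Q := by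
    intro y hy
    set p := (Submodule.span F {y}).mkQ with hp
    have h1 := star (W := V ⧸ Submodule.span F {y}) p adj
      (fun w w' => w' - w ∈ QLab F y Y) hs hirr
      (by
        intro x x' hxx' hne
        refine ⟨sub_ne_zero.mpr (fun h => hne h.symm), x' - x, hxx', ?_⟩
        rw [map_sub]) Q q (fun w => fib_card_le y Q w)
    have h2 := Ey_le (W := V ⧸ Submodule.span F {y}) p Q q (fun w => fib_card_le y Q w)
    have h3 := Q2_le (W := V ⧸ Submodule.span F {y}) p Q
    have h4 : En (fun w w' => w' - w ∈ QLab F y Y) (Q.image p) < D * (Q.image p).card := by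
      by_contra hle
      push Not at hle
      apply hA y hy
      refine ⟨Q.image p, hQne.image _, ?_, hle⟩
      intro w hw
      obtain ⟨x, hx, hxw⟩ := Finset.mem_image.mp (Finset.mem_coe.mp hw)
      exact ⟨x, hQR hx, hxw⟩
    have h5 : En (fun w w' => w' - w ∈ QLab F y Y) (Q2 p Q) ≤ D' * (Q2 p Q).card := by
      rcases (Q2 p Q).eq_empty_or_nonempty with h0 | h0
      · rw [h0]; simp [En]
      · by_contra hle
        push Not at hle
        apply hB y hy
        refine ⟨Q2 p Q, h0, ?_, hle.le⟩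
        intro w hw
        have hw' := (Finset.mem_filter.mp (Finset.mem_coe.mp hw)).2
        obtain ⟨x, hx, x', hx', hne⟩ := Finset.one_lt_card.mp hw'
        simp only [fib, Finset.mem_filter] at hx hx'
        exact ⟨x, hQR hx.1, x', hQR hx'.1, hne, hx.2, hx'.2⟩
    have h6 : D * Q.card ≤ En adj Q := hQE
    -- arithmetic
    set a := Ey p Q
    set b := Try adj p Q
    set e1 := En (fun w w' => w' - w ∈ QLab F y Y) (Q.image p)
    set e2 := En (fun w w' => w' - w ∈ QLab F y Y) (Q2 p Q)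
    set e0 := En adj Q
    set cP := (Q.image p).card
    set c2 := (Q2 p Q).card
    obtain ⟨m, hm⟩ : ∃ m, Q.card = cP + m := ⟨Q.card - cP, by omega⟩
    have h7 : c2 ≤ m := by omega
    have h8 : a ≤ q * m := by
      rw [hm] at h2
      nlinarith
    have h9 : e2 ≤ D' * m := h5.trans (Nat.mul_le_mul_left _ h7)
    have h10 : D * m ≤ a + q ^ 2 * (D' * m) + 2 * b := by
      have : D * (cP + m) ≤ a + e1 + q ^ 2 * e2 + 2 * b := by
        rw [← hm]; exact h6.trans h1
      have h11 : q ^ 2 * e2 ≤ q ^ 2 * (D' * m) := Nat.mul_le_mul_left _ h9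
      nlinarith
    obtain ⟨t, ht⟩ : ∃ t, D = 2 * (q ^ 2 * D' + q) + t := ⟨D - 2 * (q ^ 2 * D' + q), by omega⟩
    have h12 : (q ^ 2 * D' + 2 * q + t) * m ≤ a + 2 * b := by
      have : (2 * (q ^ 2 * D' + q) + t) * m ≤ a + q ^ 2 * (D' * m) + 2 * b := by
        rw [← ht]; exact h10
      nlinarith
    have h13 : (q ^ 2 * D' + 2 * q + t) * a ≤ q * (a + 2 * b) := by
      calc (q ^ 2 * D' + 2 * q + t) * a ≤ (q ^ 2 * D' + 2 * q + t) * (q * m) :=
            Nat.mul_le_mul_left _ h8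
        _ = q * ((q ^ 2 * D' + 2 * q + t) * m) := by ring
        _ ≤ q * (a + 2 * b) := Nat.mul_le_mul_left _ h12
    rw [ht]
    nlinarith [Nat.zero_le (t * a), Nat.zero_le (q ^ 2 * D' * a), Nat.zero_le (q * a)]
  -- sum over labels
  have hsum : D * ((q - 1) * E2 Y Q) ≤ 4 * q * ((q - 1) * Tr adj Q) := by
    rw [← sum_Ey hY Q, ← sum_Try hY Q, Finset.mul_sum, Finset.mul_sum]
    apply Finset.sum_le_sum
    intro y hy
    exact hmain y (Set.mem_toFinset.mp hy)
  have hsum' : D * E2 Y Q ≤ 4 * q * Tr adj Q := by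
    have h1 : 0 < q - 1 := by omega
    apply Nat.le_of_mul_le_mul_left _ h1
    calc (q - 1) * (D * E2 Y Q) = D * ((q - 1) * E2 Y Q) := by ring
      _ ≤ 4 * q * ((q - 1) * Tr adj Q) := hsum
      _ = (q - 1) * (4 * q * Tr adj Q) := by ring
  -- triangle bound
  have hTr := Tr_bound adj hs (2 * D) ((D ^ 2 - 1) / (12 * q)) Q
    (fun Q' hQ' hne => exists_low_degree adj hs hirr D (by omega) Q hmin Q' hQ' hne)
    (fun N hN => by
      have h1 := hC N hN
      rw [Nat.le_div_iff_mul_le (by positivity)]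
      have h2 : E2 Y N = En adj N := rfl
      rw [h2] at h1
      have h3 : En adj N * (12 * q) = 12 * q * En adj N := by ring
      rw [h3]
      omega)
  have h1 : 12 * q * ((D ^ 2 - 1) / (12 * q)) ≤ D ^ 2 - 1 := Nat.mul_div_le _ _
  have h2 : D * E2 Y Q ≤ (D ^ 2 - 1) * Q.card := by
    calc D * E2 Y Q ≤ 4 * q * Tr adj Q := hsum'
      _ ≤ 4 * q * (3 * ((D ^ 2 - 1) / (12 * q)) * Q.card) := Nat.mul_le_mul_left _ hTr
      _ = (12 * q * ((D ^ 2 - 1) / (12 * q))) * Q.card := by ring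
      _ ≤ (D ^ 2 - 1) * Q.card := Nat.mul_le_mul_right _ h1
  have h3 : D ^ 2 * Q.card ≤ (D ^ 2 - 1) * Q.card := by
    calc D ^ 2 * Q.card = D * (D * Q.card) := by ring
      _ ≤ D * E2 Y Q := Nat.mul_le_mul_left _ hQE
      _ ≤ _ := h2
  have h4 := Finset.card_pos.mpr hQne
  have h5 : D ^ 2 ≤ D ^ 2 - 1 := Nat.le_of_mul_le_mul_right h3 h4
  have h6 : 0 < D ^ 2 := by positivity
  omega

end Pool.Agent.Lib.MP_71775e_co
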