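import Mathlib
import Pool.Agent.Lib.MP_71775e_co.H15Defs
import Pool.Agent.Lib.MP_71775e_co.H15Trich
import Pool.Agent.Lib.MP_71775e_co.H15Lift

/-!
Module L: the density theorem from the stage theorem and the cube theorem.
-/

set_option autoImplicit false

namespace Pool.Agent.Lib.MP_71775e_co

open Finset Classical

theorem exists_functional {F : Type} [Field F] {V : Type} [AddCommGroup V] [Module F V]
    {ι : Type} (z : ι → V) (hz : LinearIndependent F z) (val : ι → F) :
    ∃ ψ : V →ₗ[F] F, ∀ i, ψ (z i) = val i := by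
  obtain ⟨g, hg⟩ := LinearMap.exists_extend
    ((Finsupp.linearCombination F val) ∘ₗ (hz.repr : _ →ₗ[F] (ι →₀ F)))
  refine ⟨g, fun i => ?_⟩
  have h1 : z i ∈ Submodule.span F (Set.range z) := Submodule.subset_span ⟨i, rfl⟩
  have h2 := LinearMap.congr_fun hg ⟨z i, h1⟩
  simp only [LinearMap.comp_apply, Submodule.subtype_apply] at h2
  rw [h2]
  have h3 : hz.repr ⟨z i, h1⟩ = Finsupp.single i 1 := hz.repr_eq_single i _ rfl
  simp [h3]

theorem CliqueMinor.mono {F : Type} [Field F] {V : Type} [AddCommGroup V] [Module F V] {n : ℕ}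
    {A B : Set V} (hAB : A ⊆ B) (h : CliqueMinor F n A) : CliqueMinor F n B := by
  obtain ⟨X, hX, u, hu, hE⟩ := h
  refine ⟨X, hX.trans hAB, u, hu, fun i j hij => ?_⟩
  obtain ⟨a, ha, ha'⟩ := hE i j hij
  exact ⟨a, hAB ha, ha'⟩

section Count

variable {F : Type} [Field F] [Fintype F] {V : Type} [AddCommGroup V] [Module F V]

theorem finite_dual [Finite V] : Finite (V →ₗ[F] F) := DFunLike.finite _

theorem count1 [Fintype (V →ₗ[F] F)] (v : V) (hv : v ≠ 0) :
    Fintype.card F * ((Finset.univ : Finset (V →ₗ[F] F)).filter (fun f => f v = 1)).card =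
      Fintype.card (V →ₗ[F] F) := by
  set φ : (V →ₗ[F] F) →+ F := { toFun := fun f => f v, map_zero' := by simp, map_add' := by simp }
    with hφ
  have hsurj : ∀ z : F, z ∈ Set.range φ := by
    intro z
    obtain ⟨ψ, hψ⟩ := exists_functional (F := F) (fun _ : Unit => v)
      (LinearIndependent.of_subsingleton () hv) (fun _ => z)
    exact ⟨ψ, hψ ()⟩
  have h1 : Fintype.card (V →ₗ[F] F) = ∑ z : F,
      ((Finset.univ : Finset (V →ₗ[F] F)).filter (fun f => φ f = z)).card := by
    rw [← Finset.card_univ]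
    exact Finset.card_eq_sum_card_fiberwise (fun f _ => Finset.mem_coe.mpr (Finset.mem_univ _))
  have h2 : ∀ z : F, ((Finset.univ : Finset (V →ₗ[F] F)).filter (fun f => φ f = z)).card =
      ((Finset.univ : Finset (V →ₗ[F] F)).filter (fun f => φ f = 1)).card := fun z =>
    AddMonoidHom.card_fiber_eq_of_mem_range φ (hsurj z) (hsurj 1)
  rw [h1, Finset.sum_congr rfl (fun z _ => h2 z), Finset.sum_const, Finset.card_univ, smul_eq_mul]
  rfl

theorem count2 [Fintype (V →ₗ[F] F)] (v w : V) (hvw : ∀ a b : F, a • v + b • w = 0 → a = 0 ∧ b = 0) :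
    Fintype.card F ^ 2 * ((Finset.univ : Finset (V →ₗ[F] F)).filter
      (fun f => f v = 1 ∧ f w = 0)).card = Fintype.card (V →ₗ[F] F) := by
  set φ : (V →ₗ[F] F) →+ F × F :=
    { toFun := fun f => (f v, f w), map_zero' := by simp, map_add' := by simp } with hφ
  have hli : LinearIndependent F ![v, w] := by
    rw [LinearIndependent.pair_iff]
    exact hvw
  have hsurj : ∀ z : F × F, z ∈ Set.range φ := by
    intro z
    obtain ⟨ψ, hψ⟩ := exists_functional (F := F) ![v, w] hli ![z.1, z.2]
    refine ⟨ψ, ?_⟩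
    have h0 := hψ 0
    have h1 := hψ 1
    simp only [Matrix.cons_val_zero, Matrix.cons_val_one] at h0 h1
    exact Prod.ext h0 h1
  have h1 : Fintype.card (V →ₗ[F] F) = ∑ z : F × F,
      ((Finset.univ : Finset (V →ₗ[F] F)).filter (fun f => φ f = z)).card := by
    rw [← Finset.card_univ]
    exact Finset.card_eq_sum_card_fiberwise (fun f _ => Finset.mem_coe.mpr (Finset.mem_univ _))
  have h2 : ∀ z : F × F, ((Finset.univ : Finset (V →ₗ[F] F)).filter (fun f => φ f = z)).card =
      ((Finset.univ : Finset (V →ₗ[F] F)).filter (fun f => φ f = (1, 0))).card := fun z =>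
    AddMonoidHom.card_fiber_eq_of_mem_range φ (hsurj z) (hsurj (1, 0))
  rw [h1, Finset.sum_congr rfl (fun z _ => h2 z), Finset.sum_const, Finset.card_univ, smul_eq_mul,
    Fintype.card_prod, pow_two]
  congr 2
  apply Finset.filter_congr
  intro f _
  rw [hφ]
  simp only [AddMonoidHom.coe_mk, ZeroHom.coe_mk, Prod.mk.injEq]

end Count

theorem Ey_ge {V W : Type} (p : V → W) (Q : Finset V) :
    Q.card ≤ Ey p Q + (Q.image p).card := by
  have e1 : Ey p Q = ∑ b ∈ Q.image p,
      (((Q ×ˢ Q).filter (fun t => t.1 ≠ t.2 ∧ p t.1 = p t.2)).filter (fun t => p t.1 = b)).card := by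
    unfold Ey
    apply Finset.card_eq_sum_card_fiberwise
    intro t ht
    simp only [Finset.coe_filter, Finset.mem_product, Set.mem_ofPred_eq] at ht
    simp only [Finset.coe_image, Set.mem_image, Finset.mem_coe]
    exact ⟨t.1, ht.1.1, rfl⟩
  have e2 : Q.card = ∑ b ∈ Q.image p, (fib p Q b).card := by
    apply Finset.card_eq_sum_card_fiberwise
    intro t ht
    simp only [Finset.coe_image, Set.mem_image, Finset.mem_coe]
    exact ⟨t, ht, rfl⟩
  have e3 : (Q.image p).card = ∑ b ∈ Q.image p, 1 := by simp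
  rw [e1, e2, e3, ← Finset.sum_add_distrib]
  apply Finset.sum_le_sum
  intro w hw
  have h1 : (((Q ×ˢ Q).filter (fun t => t.1 ≠ t.2 ∧ p t.1 = p t.2)).filter
      (fun t => p t.1 = w)) = (fib p Q w).offDiag := by
    ext t
    simp only [fib, Finset.mem_filter, Finset.mem_product, Finset.mem_offDiag]
    constructor
    · rintro ⟨⟨⟨h1, h2⟩, h3, h4⟩, h5⟩
      exact ⟨⟨h1, h5⟩, ⟨h2, by rw [← h4, h5]⟩, h3⟩
    · rintro ⟨⟨h1, h2⟩, ⟨h3, h4⟩, h5⟩
      exact ⟨⟨⟨h1, h3⟩, h5, by rw [h2, h4]⟩, h2⟩
  rw [h1, Finset.offDiag_card]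
  rcases Nat.eq_zero_or_pos (fib p Q w).card with h2 | h2
  · omega
  obtain ⟨k, hk⟩ : ∃ k, (fib p Q w).card = k + 1 := ⟨_, (Nat.sub_add_cancel h2).symm⟩
  rw [hk]
  have h4 : (k + 1) * (k + 1) - (k + 1) = (k + 1) * k := by
    rw [Nat.mul_succ]; omega
  rw [h4]
  nlinarith [Nat.zero_le (k * k)]

section Loss

variable {F : Type} [Field F] [Fintype F] {V : Type} [AddCommGroup V] [Module F V] [Fintype V]

/-- pairs in the same nonzero fibre modulo `a`. -/
noncomputable def Pa (F : Type) [Field F] {V : Type} [AddCommGroup V] [Module F V] [Fintype V]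
    (A : Set V) (a : V) : ℕ :=
  ((A.toFinset ×ˢ A.toFinset).filter (fun t => (Submodule.span F {a}).mkQ t.1 ≠ 0 ∧ t.1 ≠ t.2 ∧
    (Submodule.span F {a}).mkQ t.1 = (Submodule.span F {a}).mkQ t.2)).card

/-- two independent vectors. -/
def IndPair (F : Type) [Field F] {V : Type} [AddCommGroup V] [Module F V] (v w : V) : Prop :=
  ∀ a b : F, a • v + b • w = 0 → a = 0 ∧ b = 0

/-- pairs of `A` with difference in `A` and independent. -/
noncomputable def PairsA (F : Type) [Field F] {V : Type} [AddCommGroup V] [Module F V] [Fintype V]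
    (A : Set V) : Finset (V × V) :=
  (A.toFinset ×ˢ A.toFinset).filter (fun t => t.2 - t.1 ∈ A ∧ IndPair F t.1 (t.2 - t.1))

theorem loss {A : Set V} (hA : LabelSet F A) (a : V) (ha : a ∈ A) :
    A.toFinset.card ≤ Pa F A a + (Fintype.card F - 1) + Nat.card (QLab F a A) := by
  set p := (Submodule.span F {a}).mkQ with hp
  set Af := A.toFinset.filter (fun x => p x ≠ 0) with hAf
  have ha0 : a ≠ 0 := fun h => hA.1 (h ▸ ha)
  have h1 := Ey_ge (W := V ⧸ Submodule.span F {a}) p Af
  have h2 : Ey (W := V ⧸ Submodule.span F {a}) p Af ≤ Pa F A a := by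
    apply Finset.card_le_card
    intro t ht
    simp only [hAf, Finset.mem_filter, Finset.mem_product] at ht ⊢
    exact ⟨⟨ht.1.1.1, ht.1.2.1⟩, ht.1.1.2, ht.2.1, ht.2.2⟩
  have h3 : (Af.image p).card = Nat.card (QLab F a A) := by
    have h31 : QLab F a A = ((Af.image p : Finset (V ⧸ Submodule.span F {a})) :
        Set (V ⧸ Submodule.span F {a})) := by
      ext w
      simp only [QLab, hAf, Finset.coe_image, Finset.coe_filter, Set.mem_image,
        Set.mem_ofPred_eq, Set.mem_toFinset]
      constructor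
      · rintro ⟨hw, z, hz, hzw⟩
        exact ⟨z, ⟨hz, by rw [hp, hzw]; exact hw⟩, hzw⟩
      · rintro ⟨z, ⟨hz, hz0⟩, hzw⟩
        exact ⟨by rw [← hzw]; exact hz0, z, hz, hzw⟩
    rw [h31, Nat.card_eq_fintype_card]
    simp
  have h4 : (A.toFinset.filter (fun x => ¬ (p x ≠ 0))).card ≤ Fintype.card F - 1 := by
    have h41 : A.toFinset.filter (fun x => ¬ (p x ≠ 0)) ⊆
        ((Finset.univ : Finset F).erase 0).image (fun c => c • a) := by
      intro x hx
      simp only [Finset.mem_filter, Set.mem_toFinset, not_not] at hx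
      obtain ⟨hxA, hx0⟩ := hx
      rw [hp, Submodule.mkQ_apply, Submodule.Quotient.mk_eq_zero,
        Submodule.mem_span_singleton] at hx0
      obtain ⟨c, hc⟩ := hx0
      refine Finset.mem_image.mpr ⟨c, Finset.mem_erase.mpr ⟨?_, Finset.mem_univ _⟩, hc⟩
      rintro rfl
      rw [zero_smul] at hc
      exact hA.1 (hc ▸ hxA)
    calc _ ≤ (((Finset.univ : Finset F).erase 0).image (fun c => c • a)).card :=
          Finset.card_le_card h41
      _ ≤ ((Finset.univ : Finset F).erase 0).card := Finset.card_image_le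
      _ = Fintype.card F - 1 := by
          rw [Finset.card_erase_of_mem (Finset.mem_univ _), Finset.card_univ]
  have h5 := Finset.card_filter_add_card_filter_not (s := A.toFinset) (fun x => p x ≠ 0)
  rw [← hAf] at h5
  omega

theorem sum_Pa {A : Set V} (hA : LabelSet F A) :
    ∑ a ∈ A.toFinset, Pa F A a ≤ (Fintype.card F - 1) * (PairsA F A).card := by
  have h1 : ∀ a : V, Pa F A a = ∑ t ∈ A.toFinset ×ˢ A.toFinset,
      if ((Submodule.span F {a}).mkQ t.1 ≠ 0 ∧ t.1 ≠ t.2 ∧
        (Submodule.span F {a}).mkQ t.1 = (Submodule.span F {a}).mkQ t.2) then 1 else 0 := by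
    intro a
    unfold Pa
    rw [Finset.card_filter]
  simp only [h1]
  rw [Finset.sum_comm, PairsA, Finset.card_filter, Finset.mul_sum]
  apply Finset.sum_le_sum
  intro t _
  by_cases ht : (t.2 - t.1 ∈ A ∧ IndPair F t.1 (t.2 - t.1))
  · rw [if_pos ht, mul_one]
    calc _ ≤ ∑ a ∈ A.toFinset, (if (t.2 - t.1 ≠ 0 ∧ ∃ c : F, t.2 - t.1 = c • a) then 1 else 0) := by
          apply Finset.sum_le_sum
          intro a _
          split_ifs with h2 h3
          · exact le_rfl
          · exfalso
            apply h3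
            exact ⟨sub_ne_zero.mpr (fun h => h2.2.1 h.symm), (mkQ_eq_iff _ _ _).mp h2.2.2⟩
          · exact Nat.zero_le _
          · exact le_rfl
      _ = Fintype.card F - 1 := by
          rw [cnt_labels hA, if_pos ht.1]
  · rw [if_neg ht, mul_zero]
    apply le_of_eq
    apply Finset.sum_eq_zero
    intro a ha
    rw [if_neg]
    rintro ⟨h2, h3, h4⟩
    apply ht
    obtain ⟨c, hc⟩ := (mkQ_eq_iff _ _ _).mp h4
    have hc0 : c ≠ 0 := by
      rintro rfl
      rw [zero_smul, sub_eq_zero] at hc
      exact h3 hc.symm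
    have ha' : a ∈ A := Set.mem_toFinset.mp ha
    refine ⟨by rw [hc]; exact hA.2 _ ha' _ hc0, ?_⟩
    intro α β hαβ
    have hα : α = 0 := by
      by_contra hα
      apply h2
      rw [Submodule.mkQ_apply, Submodule.Quotient.mk_eq_zero, Submodule.mem_span_singleton]
      refine ⟨-(α⁻¹ * β * c), ?_⟩
      rw [hc] at hαβ
      have h5 : t.1 = α⁻¹ • (α • t.1) := by rw [smul_smul, inv_mul_cancel₀ hα, one_smul]
      have h6 : α • t.1 = -(β • c • a) := by
        rw [← add_eq_zero_iff_eq_neg]; exact hαβ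
      rw [h5, h6, smul_neg, neg_smul, smul_smul, smul_smul, mul_assoc]
    refine ⟨hα, ?_⟩
    rw [hα, zero_smul, zero_add] at hαβ
    exact (smul_eq_zero.mp hαβ).resolve_right (sub_ne_zero.mpr (fun h => h3 h.symm))

theorem averaging {A : Set V} (hA : LabelSet F A) (hne : A.Nonempty) :
    ∃ f : V →ₗ[F] F, (A.toFinset.filter (fun b => f b = 1)).Nonempty ∧
      (PairsA F A).card * (A.toFinset.filter (fun b => f b = 1)).card ≤
        Fintype.card F * A.toFinset.card *
          ((PairsA F A).filter (fun t => f t.1 = 1 ∧ f t.2 = 1)).card := by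
  have := finite_dual (F := F) (V := V)
  have := Fintype.ofFinite (V →ₗ[F] F)
  by_contra hcon
  push Not at hcon
  set q := Fintype.card F with hq
  have hq2 : 2 ≤ q := Fintype.one_lt_card
  set P := (PairsA F A).card with hP
  set a := A.toFinset.card with ha
  set N := Fintype.card (V →ₗ[F] F) with hN
  have hN0 : 0 < N := Fintype.card_pos
  have ha0 : 0 < a := by
    obtain ⟨x, hx⟩ := hne
    exact Finset.card_pos.mpr ⟨x, Set.mem_toFinset.mpr hx⟩
  -- sum of sizes of Q_f
  have h1 : q * ∑ f : V →ₗ[F] F, (A.toFinset.filter (fun b => f b = 1)).card = a * N := by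
    have : ∀ f : V →ₗ[F] F, (A.toFinset.filter (fun b => f b = 1)).card =
        ∑ b ∈ A.toFinset, if f b = 1 then 1 else 0 := fun f => Finset.card_filter _ _
    simp only [this]
    rw [Finset.sum_comm, Finset.mul_sum]
    have h2 : ∀ b ∈ A.toFinset, q * (∑ f : V →ₗ[F] F, if f b = 1 then 1 else 0) = N := by
      intro b hb
      rw [← Finset.card_filter]
      exact count1 b (fun h => hA.1 (h ▸ Set.mem_toFinset.mp hb))
    rw [Finset.sum_congr rfl h2, Finset.sum_const, smul_eq_mul]
  have h2 : q ^ 2 * ∑ f : V →ₗ[F] F, ((PairsA F A).filter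
      (fun t => f t.1 = 1 ∧ f t.2 = 1)).card = P * N := by
    have : ∀ f : V →ₗ[F] F, ((PairsA F A).filter (fun t => f t.1 = 1 ∧ f t.2 = 1)).card =
        ∑ t ∈ PairsA F A, if (f t.1 = 1 ∧ f t.2 = 1) then 1 else 0 :=
      fun f => Finset.card_filter _ _
    simp only [this]
    rw [Finset.sum_comm, Finset.mul_sum]
    have h2 : ∀ t ∈ PairsA F A, q ^ 2 * (∑ f : V →ₗ[F] F, if (f t.1 = 1 ∧ f t.2 = 1)
        then 1 else 0) = N := by
      intro t ht
      rw [← Finset.card_filter]
      have h3 : ((Finset.univ : Finset (V →ₗ[F] F)).filter (fun f => f t.1 = 1 ∧ f t.2 = 1)) =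
          ((Finset.univ : Finset (V →ₗ[F] F)).filter (fun f => f t.1 = 1 ∧ f (t.2 - t.1) = 0)) := by
        apply Finset.filter_congr
        intro f _
        rw [map_sub]
        constructor
        · rintro ⟨h3, h4⟩; exact ⟨h3, by rw [h3, h4, sub_self]⟩
        · rintro ⟨h3, h4⟩; exact ⟨h3, by rw [sub_eq_zero.mp h4, h3]⟩
      rw [h3]
      exact count2 t.1 (t.2 - t.1) (Finset.mem_filter.mp ht).2.2
    rw [Finset.sum_congr rfl h2, Finset.sum_const, smul_eq_mul]
  -- strict inequality
  have h3 : ∑ f : V →ₗ[F] F, q * a * ((PairsA F A).filter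
      (fun t => f t.1 = 1 ∧ f t.2 = 1)).card <
      ∑ f : V →ₗ[F] F, P * (A.toFinset.filter (fun b => f b = 1)).card := by
    apply Finset.sum_lt_sum
    · intro f _
      rcases (A.toFinset.filter (fun b => f b = 1)).eq_empty_or_nonempty with h4 | h4
      · have h5 : ((PairsA F A).filter (fun t => f t.1 = 1 ∧ f t.2 = 1)) = ∅ := by
          rw [Finset.filter_eq_empty_iff]
          rintro t ht ⟨h6, h7⟩
          have h8 : t.1 ∈ (A.toFinset.filter (fun b => f b = 1)) := by
            refine Finset.mem_filter.mpr ⟨?_, h6⟩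
            exact (Finset.mem_product.mp (Finset.mem_filter.mp ht).1).1
          rw [h4] at h8
          exact absurd h8 (Finset.notMem_empty _)
        rw [h4, h5]; simp
      · exact (hcon f h4).le
    · by_contra hall
      push Not at hall
      -- all Q_f empty
      have h4 : ∀ f : V →ₗ[F] F, (A.toFinset.filter (fun b => f b = 1)).card = 0 := by
        intro f
        by_contra h5
        have h6 : (A.toFinset.filter (fun b => f b = 1)).Nonempty :=
          Finset.card_pos.mp (Nat.pos_of_ne_zero h5)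
        exact absurd (hcon f h6) (not_lt.mpr (hall f (Finset.mem_univ _)))
      simp only [h4, Finset.sum_const_zero, mul_zero] at h1
      have : 0 < a * N := Nat.mul_pos ha0 hN0
      omega
  rw [← Finset.mul_sum, ← Finset.mul_sum] at h3
  have h4 : q * (q * a * ∑ f : V →ₗ[F] F, ((PairsA F A).filter
      (fun t => f t.1 = 1 ∧ f t.2 = 1)).card) <
      q * (P * ∑ f : V →ₗ[F] F, (A.toFinset.filter (fun b => f b = 1)).card) :=
    Nat.mul_lt_mul_of_pos_left h3 (by omega)
  have h5 : q * (q * a * ∑ f : V →ₗ[F] F, ((PairsA F A).filter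
      (fun t => f t.1 = 1 ∧ f t.2 = 1)).card) = a * (P * N) := by
    rw [← h2]; ring
  have h6 : q * (P * ∑ f : V →ₗ[F] F, (A.toFinset.filter (fun b => f b = 1)).card) =
      P * (a * N) := by
    rw [← h1]; ring
  rw [h5, h6] at h4
  have h7 : a * (P * N) = P * (a * N) := by ring
  omega

end Loss

/-- The statement of the stage theorem. -/
def StageStmt (F : Type) [Field F] [Fintype F] (n : ℕ) : Prop :=
  ∀ k : ℕ, ∃ D : ℕ, ∀ (V : Type) [AddCommGroup V] [Module F V] [Finite V] (Y R : Set V),
      LabelSet F Y → StageHyp D Y R → CliqueMinor F n Y ∨ Shat F k Y R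

/-- The statement of the cube theorem. -/
def ShatStmt (F : Type) [Field F] [Fintype F] (n : ℕ) : Prop :=
  ∃ k : ℕ, ∀ (V : Type) [AddCommGroup V] [Module F V] [Finite V] (A Y R : Set V)
      (f : V →ₗ[F] F), LabelSet F A → Y ⊆ A → R ⊆ A → (∀ y ∈ Y, f y = 0) → (∀ r ∈ R, f r = 1) →
      Shat F k Y R → CliqueMinor F n A

/-- MODULE L. -/
theorem density_of (F : Type) [Field F] [Fintype F] (n : ℕ) (hst : StageStmt F n)
    (hsh : ShatStmt F n) :
    ∃ lam : ℕ, ∀ (V : Type) [AddCommGroup V] [Module F V] [Finite V] (A : Set V),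
      LabelSet F A → lam * Module.finrank F V < Nat.card A → CliqueMinor F n A := by
  obtain ⟨k, hk⟩ := hsh
  obtain ⟨D, hD⟩ := hst k
  set q := Fintype.card F with hq
  have hq2 : 2 ≤ q := Fintype.one_lt_card
  refine ⟨q ^ 2 * D + q, ?_⟩
  set lam := q ^ 2 * D + q with hlam
  have key : ∀ N : ℕ, ∀ (V : Type) [AddCommGroup V] [Module F V] [Finite V] (A : Set V),
      Module.finrank F V ≤ N → LabelSet F A → lam * Module.finrank F V < Nat.card A →
      CliqueMinor F n A := by
    intro N
    induction N with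
    | zero =>
      intro V _ _ _ A hN hA h
      exfalso
      have h0 : Module.finrank F V = 0 := Nat.le_zero.mp hN
      have hsub : Subsingleton V := Module.finrank_zero_iff.mp h0
      have hAe : A = ∅ := by
        rw [Set.eq_empty_iff_forall_notMem]
        intro x hx
        have : x = 0 := Subsingleton.elim _ _
        rw [this] at hx
        exact hA.1 hx
      subst hAe
      simp at h
    | succ N ihN =>
      intro V _ _ _ A hN hA h
      have := Fintype.ofFinite V
      by_cases hc : ∃ a ∈ A, lam * Module.finrank F (V ⧸ Submodule.span F {a}) <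
          Nat.card (QLab F a A)
      · obtain ⟨a, ha, hlt⟩ := hc
        have ha0 : a ≠ 0 := fun h => hA.1 (h ▸ ha)
        have hfr := finrank_quot (F := F) a ha0
        have := finite_quot (F := F) (Submodule.span F {a})
        exact CliqueMinor.lift ha (ihN (V ⧸ Submodule.span F {a}) (QLab F a A) (by omega)
          (QLab_labelSet hA a) hlt)
      · push Not at hc
        have hcardA : Nat.card A = A.toFinset.card := by
          rw [Nat.card_eq_fintype_card, Set.toFinset_card]
        have hAne : A.Nonempty := by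
          rw [Set.nonempty_iff_ne_empty]
          rintro rfl
          simp at h
        -- many pairs
        have hPa : ∀ a ∈ A, q ^ 2 * D ≤ Pa F A a := by
          intro a ha
          have ha0 : a ≠ 0 := fun h => hA.1 (h ▸ ha)
          have hfr := finrank_quot (F := F) a ha0
          have h1 := loss hA a ha
          have h2 := hc a ha
          rw [hcardA, ← hfr, mul_add, mul_one] at h
          rw [← hq] at h1
          omega
        have hP : A.toFinset.card * (q ^ 2 * D) ≤ (q - 1) * (PairsA F A).card := by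
          refine le_trans ?_ (sum_Pa hA)
          rw [← smul_eq_mul, ← Finset.sum_const]
          exact Finset.sum_le_sum (fun a ha => hPa a (Set.mem_toFinset.mp ha))
        obtain ⟨f, hf1, hf2⟩ := averaging hA hAne
        rw [← hq] at hf2
        set Qf := A.toFinset.filter (fun b => f b = 1) with hQf
        set Ef := ((PairsA F A).filter (fun t => f t.1 = 1 ∧ f t.2 = 1)).card with hEf
        have hA0 : 0 < A.toFinset.card := by
          obtain ⟨x, hx⟩ := hAne
          exact Finset.card_pos.mpr ⟨x, Set.mem_toFinset.mpr hx⟩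
        have hDE : D * Qf.card ≤ Ef := by
          have h1 : A.toFinset.card * q * (q * (D * Qf.card)) ≤
              A.toFinset.card * q * (q * Ef) := by
            calc A.toFinset.card * q * (q * (D * Qf.card))
                = (A.toFinset.card * (q ^ 2 * D)) * Qf.card := by ring
              _ ≤ ((q - 1) * (PairsA F A).card) * Qf.card := Nat.mul_le_mul_right _ hP
              _ = (q - 1) * ((PairsA F A).card * Qf.card) := by ring
              _ ≤ (q - 1) * (q * A.toFinset.card * Ef) := Nat.mul_le_mul_left _ hf2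
              _ ≤ q * (q * A.toFinset.card * Ef) := Nat.mul_le_mul_right _ (by omega)
              _ = A.toFinset.card * q * (q * Ef) := by ring
          have h2 : q * (D * Qf.card) ≤ q * Ef :=
            Nat.le_of_mul_le_mul_left h1 (Nat.mul_pos hA0 (by omega))
          exact Nat.le_of_mul_le_mul_left h2 (by omega)
        have hE2 : Ef ≤ E2 {a | a ∈ A ∧ f a = 0} Qf := by
          apply Finset.card_le_card
          intro t ht
          simp only [PairsA, Finset.mem_filter, Finset.mem_product, hQf,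
            Set.mem_toFinset] at ht ⊢
          obtain ⟨⟨⟨h1, h2⟩, h3, _⟩, h4, h5⟩ := ht
          refine ⟨⟨⟨h1, h4⟩, ⟨h2, h5⟩⟩, h3, ?_⟩
          rw [map_sub, h4, h5, sub_self]
        have hY : LabelSet F {a | a ∈ A ∧ f a = 0} := by
          refine ⟨fun h => hA.1 h.1, ?_⟩
          rintro y ⟨hy1, hy2⟩ c hc
          exact ⟨hA.2 _ hy1 _ hc, by rw [map_smul, hy2, smul_zero]⟩
        rcases hD V {a | a ∈ A ∧ f a = 0} (Qf : Set V) hY
          ⟨Qf, hf1, Set.Subset.refl _, hDE.trans hE2⟩ with h1 | h1
        · exact CliqueMinor.mono (fun a ha => ha.1) h1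
        · exact hk V A {a | a ∈ A ∧ f a = 0} (Qf : Set V) f hA (fun a ha => ha.1)
            (fun r hr => Set.mem_toFinset.mp (Finset.mem_filter.mp (Finset.mem_coe.mp hr)).1)
            (fun y hy => hy.2)
            (fun r hr => (Finset.mem_filter.mp (Finset.mem_coe.mp hr)).2) h1
  intro V _ _ _ A hA h
  exact key _ V A le_rfl hA h

end Pool.Agent.Lib.MP_71775e_co
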