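import Mathlib

/-!
Independence of the incidence vectors of a graph does not depend on the field.
-/

set_option autoImplicit false

namespace Pool.Agent.Lib.MP_71775e_co

open Finset Classical

/-- the incidence vector of the pair `p`. -/
noncomputable def inc (K : Type) [Field K] (n : ℕ) (p : Fin n × Fin n) : Fin n → K :=
  (Pi.single p.1 (1 : K) : Fin n → K) - (Pi.single p.2 (1 : K) : Fin n → K)

theorem inc_apply (K : Type) [Field K] (n : ℕ) (p : Fin n × Fin n) (i : Fin n) :
    inc K n p i = (if i = p.1 then 1 else 0) - (if i = p.2 then 1 else 0) := by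
  simp only [inc, Pi.sub_apply, Pi.single_apply]

/-- the combinatorial (forest) condition. -/
def Forest (n : ℕ) (I : Set (Fin n × Fin n)) : Prop :=
  ∀ J : Finset (Fin n × Fin n), (J : Set (Fin n × Fin n)) ⊆ I → J.Nonempty →
    ∃ i : Fin n, (J.filter (fun p => p.1 = i ∨ p.2 = i)).card = 1

theorem forest_of_indep (K : Type) [Field K] (n : ℕ) (I : Set (Fin n × Fin n))
    (hI : ∀ p ∈ I, p.1 ≠ p.2) (h : LinearIndependent K (fun p : I => inc K n p)) :
    Forest n I := by
  intro J hJ hJne
  by_contra hcon
  push Not at hcon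
  set VJ : Finset (Fin n) := Finset.univ.filter (fun i => ∃ p ∈ J, p.1 = i ∨ p.2 = i) with hVJ
  -- double counting
  have h1 : 2 * VJ.card ≤ 2 * J.card := by
    have h2 : ∑ i : Fin n, (J.filter (fun p => p.1 = i ∨ p.2 = i)).card = 2 * J.card := by
      simp only [Finset.card_filter]
      rw [Finset.sum_comm]
      have h3 : ∀ p ∈ J, (∑ i : Fin n, if (p.1 = i ∨ p.2 = i) then 1 else 0) = 2 := by
        intro p hp
        rw [← Finset.card_filter]
        have h4 : (Finset.univ.filter (fun i : Fin n => p.1 = i ∨ p.2 = i)) = {p.1, p.2} := by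
          ext i
          simp only [Finset.mem_filter, Finset.mem_univ, true_and, Finset.mem_insert,
            Finset.mem_singleton]
          constructor
          · rintro (h | h)
            · exact Or.inl h.symm
            · exact Or.inr h.symm
          · rintro (h | h)
            · exact Or.inl h.symm
            · exact Or.inr h.symm
        rw [h4, Finset.card_pair (hI p (hJ hp))]
      rw [Finset.sum_congr rfl h3, Finset.sum_const, smul_eq_mul, mul_comm]
    rw [← h2, mul_comm, ← smul_eq_mul, ← Finset.sum_const]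
    calc ∑ i ∈ VJ, 2 ≤ ∑ i ∈ VJ, (J.filter (fun p => p.1 = i ∨ p.2 = i)).card := by
          apply Finset.sum_le_sum
          intro i hi
          obtain ⟨p, hp, hpi⟩ := (Finset.mem_filter.mp hi).2
          have h3 : 0 < (J.filter (fun p => p.1 = i ∨ p.2 = i)).card :=
            Finset.card_pos.mpr ⟨p, Finset.mem_filter.mpr ⟨hp, hpi⟩⟩
          have h4 := hcon i
          omega
      _ ≤ ∑ i : Fin n, (J.filter (fun p => p.1 = i ∨ p.2 = i)).card :=
          Finset.sum_le_sum_of_subset (Finset.subset_univ _)
  -- dimension count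
  obtain ⟨p0, hp0⟩ := hJne
  have hindJ : LinearIndependent K (fun p : J => inc K n p) := by
    have := h.comp (fun p : J => (⟨p, hJ p.2⟩ : I)) (by
      intro a b hab
      exact Subtype.ext (congrArg (fun x : I => (x : Fin n × Fin n)) hab))
    exact this
  have hind2 : LinearIndependent K (fun o : Option J => fun i : VJ =>
      (Option.elim o (Pi.single p0.1 (1 : K) : Fin n → K) (fun p => inc K n p)) i) := by
    rw [Fintype.linearIndependent_iff]
    intro g hg
    -- the full vector vanishes
    have hfull : g none • (Pi.single p0.1 (1 : K) : Fin n → K) +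
        ∑ p : J, g (some p) • inc K n p = 0 := by
      funext i
      by_cases hi : i ∈ VJ
      · have h2 := congrFun hg ⟨i, hi⟩
        rw [Fintype.sum_option] at h2
        simpa [Finset.sum_apply] using h2
      · have h3 : i ≠ p0.1 := by
          rintro rfl
          exact hi (Finset.mem_filter.mpr ⟨Finset.mem_univ _, p0, hp0, Or.inl rfl⟩)
        have h4 : ∀ p : J, inc K n p i = 0 := by
          intro p
          rw [inc_apply, if_neg, if_neg, sub_self]
          · rintro rfl
            exact hi (Finset.mem_filter.mpr ⟨Finset.mem_univ _, p, p.2, Or.inr rfl⟩)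
          · rintro rfl
            exact hi (Finset.mem_filter.mpr ⟨Finset.mem_univ _, p, p.2, Or.inl rfl⟩)
        simp [Finset.sum_apply, h4, Pi.single_apply, h3]
    have hnone : g none = 0 := by
      have h2 := congrArg (fun w : Fin n → K => ∑ i, w i) hfull
      simp only [Pi.add_apply, Pi.smul_apply, Finset.sum_apply, Pi.zero_apply,
        Finset.sum_const_zero, Finset.sum_add_distrib, smul_eq_mul] at h2
      rw [Finset.sum_comm] at h2
      have h3 : ∀ p : J, ∑ i, g (some p) * inc K n p i = 0 := by
        intro p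
        rw [← Finset.mul_sum]
        simp [inc_apply, Finset.sum_sub_distrib]
      simp only [h3, Finset.sum_const_zero, add_zero, Pi.single_apply] at h2
      simpa using h2
    rw [hnone, zero_smul, zero_add] at hfull
    have h5 := Fintype.linearIndependent_iff.mp hindJ (fun p => g (some p)) hfull
    intro o
    cases o with
    | none => exact hnone
    | some p => exact h5 p
  have h2 := hind2.fintype_card_le_finrank
  simp only [Fintype.card_option, Fintype.card_coe, Module.finrank_fintype_fun_eq_card] at h2
  omega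

theorem indep_of_forest (K : Type) [Field K] (n : ℕ) (I : Set (Fin n × Fin n))
    (hI : ∀ p ∈ I, p.1 ≠ p.2) (h : Forest n I) :
    LinearIndependent K (fun p : I => inc K n p) := by
  rw [Fintype.linearIndependent_iff]
  intro g hg
  by_contra hcon
  push Not at hcon
  obtain ⟨p1, hp1⟩ := hcon
  set J : Finset (Fin n × Fin n) := Finset.image (Subtype.val : I → Fin n × Fin n)
    (Finset.univ.filter (fun p : I => g p ≠ 0)) with hJ
  have hJI : (J : Set (Fin n × Fin n)) ⊆ I := by
    intro p hp
    obtain ⟨q, _, rfl⟩ := Finset.mem_image.mp (Finset.mem_coe.mp hp)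
    exact q.2
  have hJne : J.Nonempty := ⟨p1.1, Finset.mem_image.mpr ⟨p1, Finset.mem_filter.mpr
    ⟨Finset.mem_univ _, hp1⟩, rfl⟩⟩
  obtain ⟨i, hi⟩ := h J hJI hJne
  obtain ⟨p0, hp0⟩ := Finset.card_eq_one.mp hi
  have hp0' : p0 ∈ J.filter (fun p => p.1 = i ∨ p.2 = i) := by rw [hp0]; simp
  obtain ⟨hp0J, hp0i⟩ := Finset.mem_filter.mp hp0'
  obtain ⟨q0, hq0, hq0'⟩ := Finset.mem_image.mp hp0J
  have hgq0 : g q0 ≠ 0 := (Finset.mem_filter.mp hq0).2
  have h1 := congrFun hg i
  rw [Finset.sum_apply, Finset.sum_eq_single q0] at h1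
  · simp only [Pi.smul_apply, smul_eq_mul, Pi.zero_apply, mul_eq_zero] at h1
    rcases h1 with h1 | h1
    · exact hgq0 h1
    · rw [inc_apply, hq0'] at h1
      have hne := hI p0 (hJI hp0J)
      rcases hp0i with h2 | h2
      · rw [if_pos h2.symm, if_neg (fun h3 => hne (h2.trans h3))] at h1
        simp at h1
      · rw [if_pos h2.symm, if_neg (fun h3 => hne (h3.symm.trans h2.symm))] at h1
        simp at h1
  · intro q _ hq
    by_cases hgq : g q = 0
    · simp [hgq]
    · have hqJ : (q : Fin n × Fin n) ∈ J := Finset.mem_image.mpr ⟨q, Finset.mem_filter.mpr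
        ⟨Finset.mem_univ _, hgq⟩, rfl⟩
      have h2 : ¬ ((q : Fin n × Fin n).1 = i ∨ (q : Fin n × Fin n).2 = i) := by
        intro h3
        have h4 : (q : Fin n × Fin n) ∈ J.filter (fun p => p.1 = i ∨ p.2 = i) :=
          Finset.mem_filter.mpr ⟨hqJ, h3⟩
        rw [hp0, Finset.mem_singleton] at h4
        exact hq (Subtype.ext (h4.trans hq0'.symm))
      push Not at h2
      simp only [Pi.smul_apply, smul_eq_mul, inc_apply]
      rw [if_neg (fun h3 => h2.1 h3.symm), if_neg (fun h3 => h2.2 h3.symm)]
      simp
  · intro h3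
    exact absurd (Finset.mem_univ _) h3

/-- independence of incidence vectors over any two fields is the same. -/
theorem inc_indep_iff (K K' : Type) [Field K] [Field K'] (n : ℕ) (I : Set (Fin n × Fin n))
    (hI : ∀ p ∈ I, p.1 ≠ p.2) :
    LinearIndependent K (fun p : I => inc K n p) ↔ LinearIndependent K' (fun p : I => inc K' n p) :=
  ⟨fun h => indep_of_forest K' n I hI (forest_of_indep K n I hI h),
    fun h => indep_of_forest K n I hI (forest_of_indep K' n I hI h)⟩

end Pool.Agent.Lib.MP_71775e_co
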