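import Mathlib
import Pool.Agent.Lib.MP_71775e_co.H15Defs

/-!
Module C (bridge) of the proof of `S09443`: circuits and minors of the dual of a representable
matroid in terms of relations. (helper56)
-/

set_option autoImplicit false
open Matroid

namespace Pool.Agent.Lib.MP_71775e_co

/-- The relation space of `X`. -/
def Rel (F : Type) [Field F] {α : Type} [Fintype α] {m : ℕ} (v : α → (Fin m → F))
    (X : Set α) : Submodule F (α → F) where
  carrier := {c | (∀ x, x ∉ X → c x = 0) ∧ ∑ x, c x • v x = 0}
  zero_mem' := by simp
  add_mem' := by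
    rintro a b ⟨ha, ha'⟩ ⟨hb, hb'⟩
    refine ⟨fun x hx => by simp [ha x hx, hb x hx], ?_⟩
    simp [add_smul, Finset.sum_add_distrib, ha', hb']
  smul_mem' := by
    rintro c a ⟨ha, ha'⟩
    refine ⟨fun x hx => by simp [ha x hx], ?_⟩
    simp [mul_smul, ← Finset.smul_sum, ha']

lemma mem_Rel {F : Type} [Field F] {α : Type} [Fintype α] {m : ℕ} {v : α → (Fin m → F)}
    {X : Set α} {c : α → F} :
    c ∈ Rel F v X ↔ (∀ x, x ∉ X → c x = 0) ∧ ∑ x, c x • v x = 0 := Iff.rfl

lemma sum_set {α : Type} [Fintype α] {W : Type*} [AddCommMonoid W] (I : Set α) [Fintype I]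
    (G : α → W) (hG : ∀ x, x ∉ I → G x = 0) : ∑ x : I, G x = ∑ x, G x := by
  classical
  rw [← Finset.sum_subtype (Finset.univ.filter (fun x => x ∈ I)) (by simp) G]
  apply Finset.sum_subset (Finset.subset_univ _)
  intro x _ hx
  exact hG x (by simpa using hx)

lemma linInd_iff_Rel {F : Type} [Field F] {α : Type} [Fintype α] {m : ℕ} (v : α → (Fin m → F))
    (I : Set α) : LinearIndependent F (fun x : I => v x) ↔ ∀ c ∈ Rel F v I, c = 0 := by
  classical
  rw [Fintype.linearIndependent_iff]
  have key : ∀ c : α → F, (∀ x, x ∉ I → c x = 0) →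
      ∑ x : I, c x • v x = ∑ x, c x • v x := by
    intro c hc
    exact sum_set I (fun x => c x • v x) (fun x hx => by rw [hc x hx, zero_smul])
  constructor
  · intro h c hc
    rw [mem_Rel] at hc
    have h1 := h (fun x => c x) (by rw [key c hc.1]; exact hc.2)
    funext x
    by_cases hx : x ∈ I
    · exact h1 ⟨x, hx⟩
    · exact hc.1 x hx
  · intro h g hg x
    let c : α → F := fun y => if hy : y ∈ I then g ⟨y, hy⟩ else 0
    have hc0 : ∀ y, y ∉ I → c y = 0 := fun y hy => by simp [c, hy]
    have hcI : ∀ y : I, c y = g y := fun y => by simp [c]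
    have hc : c ∈ Rel F v I := by
      rw [mem_Rel]
      refine ⟨hc0, ?_⟩
      rw [← key c hc0, ← hg]
      exact Finset.sum_congr rfl fun y _ => by rw [hcI]
    rw [← hcI x, h c hc]
    rfl

/-- circuits have relations with full support. -/
theorem circuit_rel (F : Type) [Field F] {α : Type} [Fintype α] {m : ℕ} (v : α → (Fin m → F))
    (M : Matroid α)
    (hM : ∀ I : Set α, M.Indep I ↔ (I ⊆ M.E ∧ LinearIndependent F (fun x : I => v x)))
    (C : Set α) (hC : M.IsCircuit C) :
    ∃ c ∈ Rel F v C, ∀ x ∈ C, c x ≠ 0 := by
  have h1 := hC.not_indep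
  rw [hM, linInd_iff_Rel] at h1
  push Not at h1
  obtain ⟨c, hc, hc0⟩ := h1 hC.subset_ground
  refine ⟨c, hc, ?_⟩
  intro x hx h0
  have h2 := hC.sdiff_singleton_indep hx
  rw [hM, linInd_iff_Rel] at h2
  apply hc0
  apply h2.2
  rw [mem_Rel] at hc ⊢
  refine ⟨?_, hc.2⟩
  intro y hy
  by_cases hyx : y = x
  · rw [hyx, h0]
  · exact hc.1 y (fun hyC => hy ⟨hyC, hyx⟩)

/-- MODULE C1: circuits and nullity. -/
theorem rel_circuit (F : Type) [Field F] {α : Type} [Fintype α] {m : ℕ} (v : α → (Fin m → F))
    (M : Matroid α)
    (hM : ∀ I : Set α, M.Indep I ↔ (I ⊆ M.E ∧ LinearIndependent F (fun x : I => v x)))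
    (X : Set α) (hX : X ⊆ M.E) (c : α → F) (hc : c ∈ Rel F v X) (x : α) (hx : c x ≠ 0) :
    ∃ C, M.IsCircuit C ∧ x ∈ C ∧ C ⊆ X := by
  classical
  have main : ∀ n : ℕ, ∀ c : α → F, (Finset.univ.filter (fun y => c y ≠ 0)).card = n →
      c ∈ Rel F v X → c x ≠ 0 → ∃ C, M.IsCircuit C ∧ x ∈ C ∧ C ⊆ X := by
    intro n
    induction n using Nat.strong_induction_on with
    | _ n ih =>
      intro c hn hc hx
      have hcX : {y | c y ≠ 0} ⊆ X := by
        intro y hy
        by_contra hyX
        exact hy (hc.1 y hyX)
      have hcC : c ∈ Rel F v {y | c y ≠ 0} := ⟨fun y hy => by simpa using hy, hc.2⟩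
      have hdep : M.Dep {y | c y ≠ 0} := by
        rw [Matroid.Dep, hM, linInd_iff_Rel]
        refine ⟨?_, hcX.trans hX⟩
        intro h
        have := h.2 c hcC
        rw [this] at hx
        exact hx rfl
      by_cases hall : ∀ y ∈ {y | c y ≠ 0}, M.Indep ({y | c y ≠ 0} \ {y})
      · refine ⟨{y | c y ≠ 0}, ?_, hx, hcX⟩
        rw [Matroid.isCircuit_iff_dep_forall_sdiff_singleton_indep]
        exact ⟨hdep, hall⟩
      · push Not at hall
        obtain ⟨y, hy, hyd⟩ := hall
        rw [hM, linInd_iff_Rel] at hyd
        push Not at hyd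
        obtain ⟨b, hb, hb0⟩ := hyd (Set.sdiff_subset.trans (hcX.trans hX))
        have hbX : b ∈ Rel F v X := by
          refine ⟨?_, hb.2⟩
          intro w hw
          apply hb.1
          intro hw2
          exact hw (hcX hw2.1)
        have hbsub : ∀ w, b w ≠ 0 → c w ≠ 0 ∧ w ≠ y := by
          intro w hw
          by_contra h
          apply hw
          apply hb.1
          intro hw2
          exact h ⟨hw2.1, hw2.2⟩
        by_cases hbx : b x = 0
        · -- subtract
          obtain ⟨w, hw⟩ : ∃ w, b w ≠ 0 := by
            by_contra h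
            push Not at h
            exact hb0 (funext h)
          let c' : α → F := c - (c w / b w) • b
          have hc' : c' ∈ Rel F v X := Submodule.sub_mem _ hc (Submodule.smul_mem _ _ hbX)
          have hc'x : c' x ≠ 0 := by
            simp only [c', Pi.sub_apply, Pi.smul_apply, hbx, smul_zero, sub_zero]
            exact hx
          refine ih _ ?_ c' rfl hc' hc'x
          rw [← hn]
          apply Finset.card_lt_card
          rw [Finset.ssubset_iff_of_subset]
          · refine ⟨w, ?_, ?_⟩
            · simp only [Finset.mem_filter, Finset.mem_univ, true_and]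
              exact (hbsub w hw).1
            · simp only [Finset.mem_filter, Finset.mem_univ, true_and, not_not, c', Pi.sub_apply,
                Pi.smul_apply, smul_eq_mul]
              field_simp
              simp
          · intro z hz
            simp only [Finset.mem_filter, Finset.mem_univ, true_and] at hz ⊢
            intro hcz
            apply hz
            have hbz : b z = 0 := by
              by_contra h
              exact (hbsub z h).1 hcz
            simp [c', hcz, hbz]
        · refine ih _ ?_ b rfl hbX hbx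
          rw [← hn]
          apply Finset.card_lt_card
          rw [Finset.ssubset_iff_of_subset]
          · refine ⟨y, ?_, ?_⟩
            · simp only [Finset.mem_filter, Finset.mem_univ, true_and]
              exact hy
            · simp only [Finset.mem_filter, Finset.mem_univ, true_and, not_not]
              by_contra h
              exact (hbsub y h).2 rfl
          · intro z hz
            simp only [Finset.mem_filter, Finset.mem_univ, true_and] at hz ⊢
            exact (hbsub z hz).1
  exact main _ c rfl hc hx

/-- MODULE C2: minors of the dual in terms of relations. -/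
theorem dual_minor_indep (F : Type) [Field F] {α : Type} [Fintype α] {m : ℕ}
    (v : α → (Fin m → F)) (M : Matroid α)
    (hM : ∀ I : Set α, M.Indep I ↔ (I ⊆ M.E ∧ LinearIndependent F (fun x : I => v x)))
    (Z J : Set α) (hZ : Z ⊆ M.E) (hJ : J ⊆ Z) :
    (M✶ ／ (M.E \ Z)).Indep J ↔
      ∀ b : α → F, (∀ x, x ∉ J → b x = 0) → (∀ c ∈ Rel F v Z, ∑ x, b x * c x = 0) → b = 0 := by
  classical
  have e1 : M✶ ／ (M.E \ Z) = (M ↾ Z)✶ := by
    rw [← Matroid.dual_delete, Matroid.delete_compl hZ]
  have hJE : J ⊆ (M ↾ Z).E := hJ
  rw [e1, Matroid.dual_indep_iff_exists hJE]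
  simp only [Matroid.isBase_restrict_iff hZ]
  constructor
  · rintro ⟨B, hB, hdisj⟩ b hb0 hb
    funext j
    by_contra hj
    have hjJ : j ∈ J := by
      by_contra h
      exact hj (hb0 j h)
    have hjB : j ∉ B := Set.disjoint_left.1 hdisj hjJ
    have hdep := hB.insert_dep ⟨hJ hjJ, hjB⟩
    have h1 := hdep.not_indep
    rw [hM, linInd_iff_Rel] at h1
    push Not at h1
    obtain ⟨c, hc, hc0⟩ := h1 hdep.subset_ground
    have hBind := hB.indep
    rw [hM, linInd_iff_Rel] at hBind
    have hcj : c j ≠ 0 := by
      intro h0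
      apply hc0
      apply hBind.2
      refine ⟨?_, hc.2⟩
      intro y hy
      by_cases hyj : y = j
      · rw [hyj, h0]
      · exact hc.1 y (by simp [hyj, hy])
    have h2 := hb c ⟨fun y hy => hc.1 y (fun h => hy (by
      rcases h with h | h
      · rw [h]; exact hJ hjJ
      · exact hB.subset h)), hc.2⟩
    rw [Finset.sum_eq_single j] at h2
    · exact (mul_ne_zero hj hcj) h2
    · intro y _ hyj
      by_cases hyB : y ∈ B
      · have : y ∉ J := fun h => Set.disjoint_left.1 hdisj h hyB
        rw [hb0 y this, zero_mul]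
      · rw [hc.1 y (by simp [hyj, hyB]), mul_zero]
    · simp
  · intro h
    obtain ⟨B, hB⟩ := M.exists_isBasis (Z \ J) (Set.sdiff_subset.trans hZ)
    refine ⟨B, ?_, ?_⟩
    · refine hB.indep.isBasis_of_forall_insert (hB.subset.trans Set.sdiff_subset) ?_
      rintro e ⟨heZ, heB⟩
      by_cases heJ : e ∈ J
      · -- surjectivity
        let π : (α → F) →ₗ[F] (J → F) := LinearMap.funLeft F F (fun x : J => (x : α))
        have hsurj : (Rel F v Z).map π = ⊤ := by
          by_contra hne
          obtain ⟨φ, hφ, hφ2⟩ := Submodule.exists_le_ker_of_lt_top _ (lt_top_iff_ne_top.2 hne)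
          let b : α → F := fun x =>
            if hx : x ∈ J then φ (fun j => if (⟨x, hx⟩ : J) = j then 1 else 0) else 0
          have hφb : ∀ w : J → F, φ w = ∑ x : J, b x * w x := by
            intro w
            rw [LinearMap.pi_apply_eq_sum_univ φ w]
            refine Finset.sum_congr rfl fun x _ => ?_
            simp [b, mul_comm]
          have hb0 : ∀ x, x ∉ J → b x = 0 := fun x hx => by simp [b, hx]
          have hb := h b hb0 (by
            intro c hc
            have h1 : φ (π c) = 0 := hφ2 (Submodule.mem_map_of_mem hc)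
            rw [hφb] at h1
            rw [← h1]
            exact (sum_set J (fun x => b x * c x) (fun x hx => by rw [hb0 x hx, zero_mul])).symm)
          apply hφ
          apply LinearMap.ext
          intro w
          rw [hφb]
          simp [hb]
        have hmem : (fun j : J => if (⟨e, heJ⟩ : J) = j then (1 : F) else 0) ∈
            (Rel F v Z).map π := by rw [hsurj]; trivial
        obtain ⟨c, hc, hcπ⟩ := hmem
        have hce : c e = 1 := by
          have := congrFun hcπ ⟨e, heJ⟩
          simpa [π, LinearMap.funLeft] using this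
        have hcJ : ∀ i ∈ J, i ≠ e → c i = 0 := by
          intro i hi hie
          have := congrFun hcπ ⟨i, hi⟩
          have hne : (⟨e, heJ⟩ : J) ≠ ⟨i, hi⟩ := fun h => hie (congrArg Subtype.val h).symm
          simpa [π, LinearMap.funLeft, hne] using this
        have hBli : LinearIndepOn F v B := ((hM B).1 hB.indep).2
        have hspan : ∀ y ∈ Z, y ∉ J → v y ∈ Submodule.span F (v '' B) := by
          intro y hyZ hyJ
          by_cases hyB : y ∈ B
          · exact Submodule.subset_span ⟨y, hyB, rfl⟩
          · by_contra hns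
            have hdep := hB.insert_dep ⟨⟨hyZ, hyJ⟩, hyB⟩
            apply hdep.not_indep
            rw [hM]
            refine ⟨hdep.subset_ground, ?_⟩
            exact (linearIndepOn_insert hyB).2 ⟨hBli, hns⟩
        have hve : v e ∈ Submodule.span F (v '' B) := by
          have h1 := hc.2
          rw [← Finset.add_sum_erase _ _ (Finset.mem_univ e), hce, one_smul] at h1
          rw [eq_neg_of_add_eq_zero_left h1]
          apply Submodule.neg_mem
          apply Submodule.sum_mem
          intro y hy
          have hye : y ≠ e := (Finset.mem_erase.1 hy).1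
          by_cases hyZ : y ∈ Z
          · by_cases hyJ : y ∈ J
            · rw [hcJ y hyJ hye, zero_smul]; exact Submodule.zero_mem _
            · exact Submodule.smul_mem _ _ (hspan y hyZ hyJ)
          · rw [hc.1 y hyZ, zero_smul]; exact Submodule.zero_mem _
        rw [Matroid.Dep]
        refine ⟨?_, Set.insert_subset (hZ heZ) (hB.indep.subset_ground)⟩
        intro hind
        have := ((hM _).1 hind).2
        have h2 := (linearIndepOn_insert heB).1 this
        exact h2.2 hve
      · exact hB.insert_dep ⟨⟨heZ, heJ⟩, heB⟩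
    · exact (Set.disjoint_left.2 fun x hxJ hxB => (hB.subset hxB).2 hxJ)

end Pool.Agent.Lib.MP_71775e_co
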