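import Mathlib
import Pool.Agent.Lib.MP_71775e_co.H15Defs
import Pool.Agent.Lib.MP_71775e_co.H56_Bridge
import Pool.Agent.Lib.MP_71775e_co.H15Graph

/-!
From a clique minor among evaluation functionals to an `M(K_n)` minor of the dual matroid.
-/

set_option autoImplicit false

open Matroid

namespace Pool.Agent.Lib.MP_71775e_co

open Finset Classical

theorem inc_pair (K : Type) [Field K] (n : ℕ) (p p' : Fin n × Fin n) (hp : p.1 < p.2)
    (hp' : p'.1 < p'.2) (hne : p ≠ p') (x y : K)
    (h : x • inc K n p - y • inc K n p' = 0) : x = 0 := by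
  have hc : ∀ i, x * ((if i = p.1 then 1 else 0) - (if i = p.2 then 1 else 0)) -
      y * ((if i = p'.1 then 1 else 0) - (if i = p'.2 then 1 else 0)) = 0 := by
    intro i
    have := congrFun h i
    simpa only [Pi.sub_apply, Pi.smul_apply, smul_eq_mul, inc_apply, Pi.zero_apply] using this
  by_cases h1 : p.1 = p'.1
  · have h2 : p.2 ≠ p'.2 := fun h2 => hne (Prod.ext h1 h2)
    have h3 := hc p.2
    rw [if_neg hp.ne', if_pos rfl, if_neg (fun h4 => hp.ne' (h4.trans h1.symm)), if_neg h2] at h3
    simpa using h3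
  · by_cases h2 : p.1 = p'.2
    · have h3 := hc p.2
      have h4 : p'.2 < p.2 := h2 ▸ hp
      rw [if_neg hp.ne', if_pos rfl, if_neg (hp'.trans h4).ne', if_neg h4.ne'] at h3
      simpa using h3
    · have h3 := hc p.1
      rw [if_pos rfl, if_neg hp.ne, if_neg h1, if_neg h2] at h3
      simpa using h3

section

variable {F : Type} [Field F] {α : Type} [Fintype α] {m : ℕ}

/-- evaluation at `x`, as a functional on `P`. -/
def ev (P : Submodule F (α → F)) (x : α) : P →ₗ[F] F := (LinearMap.proj x).comp P.subtype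

theorem ev_apply (P : Submodule F (α → F)) (x : α) (c : P) : ev P x c = (c : α → F) x := rfl

theorem Rel_mono (v : α → (Fin m → F)) {Z X : Set α} (h : Z ⊆ X) : Rel F v Z ≤ Rel F v X := by
  rintro c ⟨h1, h2⟩
  exact ⟨fun x hx => h1 x (fun hz => hx (h hz)), h2⟩

theorem sum_inc (n : ℕ) (I : Set (Fin n × Fin n)) (g : I → F) (w : Fin n → F) :
    ∑ i, (∑ p : I, g p • inc F n p) i * w i =
      ∑ p : I, g p * (w (p : Fin n × Fin n).1 - w (p : Fin n × Fin n).2) := by
  simp only [Finset.sum_apply, Pi.smul_apply, smul_eq_mul, Finset.sum_mul]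
  rw [Finset.sum_comm]
  apply Finset.sum_congr rfl
  intro p _
  simp only [inc_apply, mul_assoc]
  rw [← Finset.mul_sum]
  congr 1
  simp [sub_mul, Finset.sum_sub_distrib]

theorem minor_of_clique [Nonempty α] (v : α → (Fin m → F)) (M : Matroid α)
    (hM : ∀ I : Set α, M.Indep I ↔ (I ⊆ M.E ∧ LinearIndependent F (fun x : I => v x)))
    (X : Set α) (hX : X ⊆ M.E) (T : Set α) (hT : T ⊆ X) (n : ℕ)
    (h : CliqueMinor F n {w : (Rel F v X) →ₗ[F] F | ∃ t ∈ T, ∃ c : F, c ≠ 0 ∧
      w = c • ev (Rel F v X) t}) :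
    ∃ (C D : Set α) (f : Fin n × Fin n → α),
      Set.InjOn f {p : Fin n × Fin n | p.1 < p.2} ∧
      f '' {p : Fin n × Fin n | p.1 < p.2} = (M✶ ／ C ＼ D).E ∧
      ∀ I : Set (Fin n × Fin n), I ⊆ {p : Fin n × Fin n | p.1 < p.2} →
        ((M✶ ／ C ＼ D).Indep (f '' I) ↔
          LinearIndependent ℚ
            (fun p : I => ((Pi.single p.1.1 (1:ℚ) : Fin n → ℚ) -
              (Pi.single p.1.2 (1:ℚ) : Fin n → ℚ)))) := by
  set P := Rel F v X with hP
  obtain ⟨X0, hX0, u, hu, hE⟩ := h
  set T0 : Set α := {t | t ∈ T ∧ ∃ c : F, c ≠ 0 ∧ c • ev P t ∈ X0} with hT0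
  set Z : Set α := X \ T0 with hZ
  have hZX : Z ⊆ X := Set.sdiff_subset
  have hE' : ∀ p : Fin n × Fin n, p.1 < p.2 → ∃ t : α, ∃ c : F, t ∈ T ∧ c ≠ 0 ∧
      c • ev P t - (u p.1 - u p.2) ∈ Submodule.span F X0 := by
    intro p hp
    obtain ⟨w, ⟨t, ht, c, hc, rfl⟩, hw⟩ := hE p.1 p.2 hp
    exact ⟨t, c, ht, hc, hw⟩
  choose! a c haT hc0 hac using hE'
  -- functionals in the span of `X0` vanish on `Rel Z`
  have hvan : ∀ w ∈ Submodule.span F X0, ∀ d (hd : d ∈ Rel F v Z), w ⟨d, Rel_mono v hZX hd⟩ = 0 := by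
    intro w hw d hd
    induction hw using Submodule.span_induction with
    | mem w hw =>
      obtain ⟨t, ht, c', hc', hwt⟩ := hX0 hw
      rw [hwt, LinearMap.smul_apply, ev_apply]
      have h1 : t ∉ Z := fun hz => hz.2 ⟨ht, c', hc', by rw [← hwt]; exact hw⟩
      have h2 : d t = 0 := hd.1 t h1
      simp [h2]
    | zero => simp
    | add x y _ _ hx hy => rw [LinearMap.add_apply, hx, hy, add_zero]
    | smul b x _ hx => rw [LinearMap.smul_apply, hx, smul_zero]
  have hval : ∀ p : Fin n × Fin n, p.1 < p.2 → ∀ d (hd : d ∈ Rel F v Z),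
      c p * d (a p) = u p.1 ⟨d, Rel_mono v hZX hd⟩ - u p.2 ⟨d, Rel_mono v hZX hd⟩ := by
    intro p hp d hd
    have h1 := hvan _ (hac p hp) d hd
    rw [LinearMap.sub_apply, LinearMap.sub_apply, LinearMap.smul_apply, ev_apply,
      sub_eq_zero] at h1
    exact h1
  -- `u` is independent on `Rel Z`
  have hindep : ∀ b : Fin n → F, (∀ d (hd : d ∈ Rel F v Z),
      ∑ i, b i * u i ⟨d, Rel_mono v hZX hd⟩ = 0) → b = 0 := by
    intro b hb
    apply hu b
    have h1 : (∑ i, b i • u i) ∈ Submodule.span F (Set.range (fun t : T0 => ev P t)) := by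
      apply mem_span_of_iInf_ker_le_ker
      intro d hd
      rw [Submodule.mem_iInf] at hd
      have hdZ : (d : α → F) ∈ Rel F v Z := by
        refine ⟨?_, d.2.2⟩
        intro x hx
        by_cases hxX : x ∈ X
        · have hxT : x ∈ T0 := by
            by_contra hxT
            exact hx ⟨hxX, hxT⟩
          have := hd ⟨x, hxT⟩
          rw [LinearMap.mem_ker, ev_apply] at this
          exact this
        · exact d.2.1 x hxX
      have h2 := hb d hdZ
      rw [LinearMap.mem_ker, LinearMap.sum_apply]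
      simpa using h2
    refine Submodule.span_le.mpr ?_ h1
    rintro _ ⟨⟨t, ht, c', hc', hct⟩, rfl⟩
    have h2 : ev P t = c'⁻¹ • (c' • ev P t) := by
      rw [smul_smul, inv_mul_cancel₀ hc', one_smul]
    change ev P t ∈ Submodule.span F X0
    rw [h2]
    exact Submodule.smul_mem _ _ (Submodule.subset_span hct)
  -- `a p` is in `Z`
  have haZ : ∀ p : Fin n × Fin n, p.1 < p.2 → a p ∈ Z := by
    intro p hp
    refine ⟨hT (haT p hp), ?_⟩
    intro hT0'
    have h1 : inc F n p = 0 := by
      apply hindep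
      intro d hd
      have h2 := hval p hp d hd
      have h3 : d (a p) = 0 := hd.1 _ (fun hz => hz.2 hT0')
      rw [h3, mul_zero] at h2
      simp only [inc_apply, sub_mul, Finset.sum_sub_distrib]
      simpa using h2.symm
    have h2 := congrFun h1 p.1
    rw [inc_apply, if_pos rfl, if_neg hp.ne] at h2
    simp at h2
  have hinj : Set.InjOn a {p : Fin n × Fin n | p.1 < p.2} := by
    intro p hp p' hp' hpp
    by_contra hne
    have h1 : c p' • inc F n p - c p • inc F n p' = 0 := by
      apply hindep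
      intro d hd
      have h2 := hval p hp d hd
      have h3 := hval p' hp' d hd
      rw [← hpp] at h3
      have h4 : ∀ p : Fin n × Fin n, ∑ i, inc F n p i * u i ⟨d, Rel_mono v hZX hd⟩ =
          u p.1 ⟨d, Rel_mono v hZX hd⟩ - u p.2 ⟨d, Rel_mono v hZX hd⟩ := by
        intro p
        simp [inc_apply, sub_mul, Finset.sum_sub_distrib]
      simp only [Pi.sub_apply, Pi.smul_apply, smul_eq_mul, sub_mul, Finset.sum_sub_distrib,
        mul_assoc, ← Finset.mul_sum]
      rw [h4, h4, ← h2, ← h3]
      ring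
    exact hc0 p' hp' (inc_pair F n p p' hp hp' hne _ _ h1)
  have hZE : Z ⊆ M.E := hZX.trans hX
  refine ⟨M.E \ Z, Z \ a '' {p : Fin n × Fin n | p.1 < p.2}, a, hinj, ?_, ?_⟩
  · rw [Matroid.delete_ground, Matroid.contract_ground, Matroid.dual_ground,
      Set.sdiff_sdiff_cancel_left hZE, Set.sdiff_sdiff_cancel_left]
    rintro _ ⟨p, hp, rfl⟩
    exact haZ p hp
  · intro I hI
    have hIZ : a '' I ⊆ Z := by
      rintro _ ⟨p, hp, rfl⟩
      exact haZ p (hI hp)
    have hinjI : Function.Injective (fun p : I => a p) := by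
      intro p p' hpp
      exact Subtype.ext (hinj (hI p.2) (hI p'.2) hpp)
    have hne : ∀ p ∈ I, p.1 ≠ p.2 := fun p hp => (hI hp).ne
    rw [Matroid.delete_indep_iff]
    have hdisj : Disjoint (a '' I) (Z \ a '' {p : Fin n × Fin n | p.1 < p.2}) := by
      rw [Set.disjoint_left]
      rintro x hx ⟨_, hx2⟩
      exact hx2 (Set.image_mono hI hx)
    rw [and_iff_left hdisj, dual_minor_indep F v M hM Z (a '' I) hZE hIZ]
    have hQ : LinearIndependent ℚ (fun p : I => ((Pi.single p.1.1 (1:ℚ) : Fin n → ℚ) -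
        (Pi.single p.1.2 (1:ℚ) : Fin n → ℚ))) ↔ LinearIndependent F (fun p : I => inc F n p) :=
      inc_indep_iff ℚ F n I hne
    rw [hQ, Fintype.linearIndependent_iff]
    constructor
    · intro hb g hg p
      have h1 := hb (fun x => ∑ p : I, if a p = x then g p * c p else 0) (by
        intro x hx
        apply Finset.sum_eq_zero
        intro p _
        rw [if_neg]
        rintro rfl
        exact hx ⟨p, p.2, rfl⟩) (by
        intro d hd
        simp only [Finset.sum_mul]
        rw [Finset.sum_comm]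
        have h2 : ∀ p : I, ∑ x, (if a p = x then g p * c p else 0) * d x =
            g p * (u (p : Fin n × Fin n).1 ⟨d, Rel_mono v hZX hd⟩ -
              u (p : Fin n × Fin n).2 ⟨d, Rel_mono v hZX hd⟩) := by
          intro p
          rw [← hval p (hI p.2) d hd]
          simp [mul_assoc]
        rw [Finset.sum_congr rfl (fun p _ => h2 p), ← sum_inc n I g
          (fun i => u i ⟨d, Rel_mono v hZX hd⟩), hg]
        simp)
      have h2 := congrFun h1 (a p)
      simp only [Pi.zero_apply] at h2
      rw [Finset.sum_eq_single p] at h2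
      · rw [if_pos rfl] at h2
        exact (mul_eq_zero.mp h2).resolve_right (hc0 p (hI p.2))
      · intro q _ hq
        rw [if_neg]
        intro h3
        exact hq (hinjI h3)
      · intro h3
        exact absurd (Finset.mem_univ _) h3
    · intro hli b hb0 hb
      have h1 : ∑ p : I, (b (a p) * (c p)⁻¹) • inc F n p = 0 := by
        apply hindep
        intro d hd
        rw [sum_inc n I (fun p => b (a p) * (c p)⁻¹) (fun i => u i ⟨d, Rel_mono v hZX hd⟩)]
        have h2 : ∑ x, b x * d x = ∑ p : I, b (a p) * d (a p) := by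
          rw [← Finset.sum_subset (Finset.subset_univ
            ((Finset.univ : Finset I).image (fun p : I => a p)))]
          · rw [Finset.sum_image (fun p _ q _ h => hinjI h)]
          · intro x _ hx
            rw [hb0 x, zero_mul]
            rintro ⟨p, hp, rfl⟩
            exact hx (Finset.mem_image.mpr ⟨⟨p, hp⟩, Finset.mem_univ _, rfl⟩)
        rw [← hb d hd, h2]
        apply Finset.sum_congr rfl
        intro p _
        rw [← hval p (hI p.2) d hd]
        have h3 := hc0 p (hI p.2)
        field_simp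
      have h2 := hli _ h1
      funext x
      by_cases hx : x ∈ a '' I
      · obtain ⟨p, hp, rfl⟩ := hx
        have h3 := h2 ⟨p, hp⟩
        exact (mul_eq_zero.mp h3).resolve_right (inv_ne_zero (hc0 p (hI hp)))
      · exact hb0 x hx

end

end Pool.Agent.Lib.MP_71775e_co
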