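import Mathlib
import Pool.Agent.Lib.MP_71775e_co.H15Defs
import Pool.Agent.Lib.MP_71775e_co.H15Trich
import Pool.Agent.Lib.MP_71775e_co.H15Lift

/-!
Module St: the stage induction.
-/

set_option autoImplicit false

namespace Pool.Agent.Lib.MP_71775e_co

open Finset Classical

/-- The statement of the dense lemma. -/
def DenseStmt (F : Type) [Field F] [Fintype F] (n : ℕ) : Prop :=
    ∃ D0 : ℕ, ∀ D : ℕ, D0 ≤ D → ∀ (V : Type) [AddCommGroup V] [Module F V] [Finite V]
      (Y : Set V), LabelSet F Y → ∀ N : Finset V, N.card ≤ 2 * D →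
      D ^ 2 ≤ 12 * Fintype.card F * E2 Y N → CliqueMinor F n Y

/-- MODULE St. -/
theorem stage_of_dense (F : Type) [Field F] [Fintype F] (n : ℕ) (hdense : DenseStmt F n) (k : ℕ) :
    ∃ D : ℕ, ∀ (V : Type) [AddCommGroup V] [Module F V] [Finite V] (Y R : Set V),
      LabelSet F Y → StageHyp D Y R → CliqueMinor F n Y ∨ Shat F k Y R := by
  obtain ⟨D0, hD0⟩ := hdense
  induction k with
  | zero =>
    refine ⟨0, ?_⟩
    intro V _ _ _ Y R _ h
    exact Or.inr (Shat.base h)
  | succ k ih =>
    obtain ⟨D', hD'⟩ := ih
    refine ⟨3 + 2 * (Fintype.card F ^ 2 * D' + Fintype.card F) + D0, ?_⟩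
    set D := 3 + 2 * (Fintype.card F ^ 2 * D' + Fintype.card F) + D0 with hD
    have key : ∀ N : ℕ, ∀ (V : Type) [AddCommGroup V] [Module F V] [Finite V] (Y R : Set V),
        Module.finrank F V ≤ N → LabelSet F Y → StageHyp D Y R →
        CliqueMinor F n Y ∨ Shat F (k + 1) Y R := by
      intro N
      induction N with
      | zero =>
        intro V _ _ _ Y R hN hY h
        exfalso
        have h0 : Module.finrank F V = 0 := Nat.le_zero.mp hN
        have hsub : Subsingleton V := Module.finrank_zero_iff.mp h0
        obtain ⟨Q, hQ, -, hE⟩ := h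
        have h1 : E2 Y Q = 0 := by
          unfold E2
          rw [Finset.card_eq_zero, Finset.filter_eq_empty_iff]
          intro p _ hp
          have : p.2 - p.1 = 0 := Subsingleton.elim _ _
          rw [this] at hp
          exact hY.1 hp
        have h2 := Finset.card_pos.mpr hQ
        have h3 : 0 < D := by omega
        have h4 : 0 < D * Q.card := Nat.mul_pos h3 h2
        omega
      | succ N ihN =>
        intro V _ _ _ Y R hN hY h
        rcases trichotomy F D D' (by omega) (by omega) V Y R hY h with ⟨y, hy, h1⟩ | ⟨y, hy, h1⟩ |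
          ⟨N', hN', h1⟩
        · have hy0 : y ≠ 0 := fun h => hY.1 (h ▸ hy)
          have hfr := finrank_quot (F := F) y hy0
          have := finite_quot (F := F) (Submodule.span F {y})
          rcases ihN (V ⧸ Submodule.span F {y}) (QLab F y Y) (QIm F y R) (by omega)
            (QLab_labelSet hY y) h1 with h2 | h2
          · exact Or.inl (CliqueMinor.lift hy h2)
          · exact Or.inr (Shat.lift1 hY hy h2)
        · have := finite_quot (F := F) (Submodule.span F {y})
          rcases hD' (V ⧸ Submodule.span F {y}) (QLab F y Y) (QTwo F y R)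
            (QLab_labelSet hY y) h1 with h2 | h2
          · exact Or.inl (CliqueMinor.lift hy h2)
          · exact Or.inr (Shat.lift2 hY hy h2)
        · exact Or.inl (hD0 D (by omega) V Y hY N' hN' h1)
    intro V _ _ _ Y R hY h
    exact key _ V Y R le_rfl hY h

end Pool.Agent.Lib.MP_71775e_co
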