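import Mathlib
import Pool.Agent.Lib.MP_71775e_co.H15Defs

/-!
# MP_71775e_co, module D: a dense set of labels gives a clique minor
-/

set_option autoImplicit false

namespace Pool.Agent.Lib.MP_71775e_co

open Classical in
/-- at most `q ^ |ι|` elements lie in the span of a family indexed by `ι` -/
theorem H68D_card_span (F : Type) [Field F] [Fintype F] {V : Type} [AddCommGroup V] [Module F V]
    {ι : Type} [Fintype ι] (v : ι → V) (T : Finset V) :
    (T.filter (fun z => z ∈ Submodule.span F (Set.range v))).card ≤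
      Fintype.card F ^ Fintype.card ι := by
  have h : T.filter (fun z => z ∈ Submodule.span F (Set.range v)) ⊆
      (Finset.univ : Finset (ι → F)).image (fun c => ∑ i, c i • v i) := by
    intro z hz
    rw [Finset.mem_filter] at hz
    obtain ⟨c, hc⟩ := (Submodule.mem_span_range_iff_exists_fun F).1 hz.2
    exact Finset.mem_image.2 ⟨c, Finset.mem_univ _, hc⟩
  refine (Finset.card_le_card h).trans (Finset.card_image_le.trans ?_)
  rw [Finset.card_univ, Fintype.card_fun]

open Classical in
/-- number of elements of `Q` adjacent to `z` -/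
noncomputable def H68Ddeg {V : Type} [AddCommGroup V] (Y : Set V) (Q : Finset V) (z : V) : ℕ :=
  (Q.filter (fun z' => z' - z ∈ Y)).card

open Classical in
theorem H68D_E2_erase {V : Type} [AddCommGroup V] (Y : Set V) (hs : ∀ y ∈ Y, -y ∈ Y)
    (Q : Finset V) (z : V) :
    E2 Y Q ≤ E2 Y (Q.erase z) + 2 * H68Ddeg Y Q z := by
  unfold E2 H68Ddeg
  set A := Q.filter (fun z' => z' - z ∈ Y) with hA
  have h : ((Q ×ˢ Q).filter (fun p => p.2 - p.1 ∈ Y)) ⊆
      (((Q.erase z) ×ˢ (Q.erase z)).filter (fun p => p.2 - p.1 ∈ Y)) ∪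
        (A.image (fun x => (z, x)) ∪ A.image (fun x => (x, z))) := by
    rintro ⟨a, b⟩ hp
    rw [Finset.mem_filter, Finset.mem_product] at hp
    obtain ⟨⟨h1, h2⟩, h3⟩ := hp
    simp only at h1 h2 h3
    rw [Finset.mem_union, Finset.mem_union]
    by_cases hz1 : a = z
    · right; left
      subst hz1
      exact Finset.mem_image.2 ⟨b, Finset.mem_filter.2 ⟨h2, h3⟩, rfl⟩
    · by_cases hz2 : b = z
      · right; right
        subst hz2
        refine Finset.mem_image.2 ⟨a, Finset.mem_filter.2 ⟨h1, ?_⟩, rfl⟩
        have := hs _ h3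
        rwa [neg_sub] at this
      · left
        rw [Finset.mem_filter, Finset.mem_product, Finset.mem_erase, Finset.mem_erase]
        exact ⟨⟨⟨hz1, h1⟩, ⟨hz2, h2⟩⟩, h3⟩
  have h1 := Finset.card_le_card h
  have h2 := Finset.card_union_le
    (((Q.erase z) ×ˢ (Q.erase z)).filter (fun p => p.2 - p.1 ∈ Y))
    (A.image (fun x => (z, x)) ∪ A.image (fun x => (x, z)))
  have h3 := Finset.card_union_le (A.image (fun x => (z, x))) (A.image (fun x => (x, z)))
  have h4 : (A.image (fun x => (z, x))).card ≤ A.card := Finset.card_image_le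
  have h5 : (A.image (fun x => (x, z))).card ≤ A.card := Finset.card_image_le
  omega

open Classical in
/-- (1) a nonempty subset in which all degrees are large -/
theorem H68D_minimal {V : Type} [AddCommGroup V] (Y : Set V) (h0 : (0 : V) ∉ Y)
    (hs : ∀ y ∈ Y, -y ∈ Y) (q D : ℕ) (hD : 1 ≤ D) (N : Finset V) (hN : N.card ≤ 2 * D)
    (hE : D ^ 2 ≤ 12 * q * E2 Y N) :
    ∃ N' ⊆ N, N'.Nonempty ∧ ∀ z ∈ N', D ≤ 48 * q * H68Ddeg Y N' z := by
  set P := N.powerset.filter (fun Q => Q.Nonempty ∧ D * Q.card ≤ 24 * q * E2 Y Q) with hP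
  have hNne : N.Nonempty := by
    rw [Finset.nonempty_iff_ne_empty]
    rintro rfl
    have : E2 Y (∅ : Finset V) = 0 := by simp [E2]
    rw [this] at hE
    have : 1 ≤ D ^ 2 := Nat.one_le_pow _ _ hD
    omega
  have hNP : N ∈ P := by
    rw [hP, Finset.mem_filter, Finset.mem_powerset]
    refine ⟨Finset.Subset.refl _, hNne, ?_⟩
    calc D * N.card ≤ D * (2 * D) := Nat.mul_le_mul_left _ hN
      _ = 2 * D ^ 2 := by ring
      _ ≤ 2 * (12 * q * E2 Y N) := Nat.mul_le_mul_left _ hE
      _ = 24 * q * E2 Y N := by ring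
  obtain ⟨N', hN', hmin⟩ := Finset.exists_min_image P Finset.card ⟨N, hNP⟩
  rw [hP, Finset.mem_filter, Finset.mem_powerset] at hN'
  obtain ⟨hsub, hne, hden⟩ := hN'
  refine ⟨N', hsub, hne, ?_⟩
  intro z hz
  by_contra hlt
  push Not at hlt
  have hcard : (N'.erase z).card = N'.card - 1 := Finset.card_erase_of_mem hz
  have hpos : 0 < N'.card := Finset.card_pos.2 hne
  by_cases hem : (N'.erase z).Nonempty
  · have hnot : N'.erase z ∉ P := by
      intro hmem
      have := hmin _ hmem
      omega
    rw [hP, Finset.mem_filter, Finset.mem_powerset] at hnot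
    push Not at hnot
    have hlt2 := hnot ((Finset.erase_subset _ _).trans hsub) hem
    have hE2 := H68D_E2_erase Y hs N' z
    have h1 : 24 * q * E2 Y N' ≤ 24 * q * E2 Y (N'.erase z) + 48 * q * H68Ddeg Y N' z := by
      calc 24 * q * E2 Y N' ≤ 24 * q * (E2 Y (N'.erase z) + 2 * H68Ddeg Y N' z) :=
            Nat.mul_le_mul_left _ hE2
        _ = _ := by ring
    have h2 : D * N'.card = D * (N'.erase z).card + D := by
      rw [hcard]
      obtain ⟨m, hm⟩ := Nat.exists_eq_succ_of_ne_zero (Nat.pos_iff_ne_zero.1 hpos)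
      rw [hm]
      simp [Nat.mul_succ]
    omega
  · rw [Finset.not_nonempty_iff_eq_empty] at hem
    have hN'z : N' = {z} := by
      ext x
      rw [Finset.mem_singleton]
      constructor
      · intro hx
        by_contra hxz
        have : x ∈ N'.erase z := Finset.mem_erase.2 ⟨hxz, hx⟩
        rw [hem] at this
        exact absurd this (Finset.notMem_empty _)
      · rintro rfl; exact hz
    have hE0 : E2 Y N' = 0 := by
      rw [hN'z]
      simp [E2, Finset.filter_singleton, h0]
    rw [hE0, hN'z] at hden
    simp at hden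
    omega

open Classical in
/-- (2) greedy choice of independent vectors with many common neighbours -/
theorem H68D_greedy (F : Type) [Field F] [Fintype F] {V : Type} [AddCommGroup V] [Module F V]
    (Y : Set V) (hs : ∀ y ∈ Y, -y ∈ Y) (n D : ℕ) (hD : 1 ≤ D)
    (hD2 : 96 * Fintype.card F * Fintype.card F ^ n ≤ D)
    (N' : Finset V) (hne : N'.Nonempty) (hcard : N'.card ≤ 2 * D)
    (hdeg : ∀ z ∈ N', D ≤ 48 * Fintype.card F * H68Ddeg Y N' z) (i : ℕ) (hi : i ≤ n) :
    ∃ (e : Fin i → V) (M : Finset V), (∀ j, e j ∈ N') ∧ LinearIndependent F e ∧ M ⊆ N' ∧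
      (∀ j, ∀ z ∈ M, z - e j ∈ Y) ∧ N'.card ≤ (192 * Fintype.card F) ^ i * M.card := by
  set q := Fintype.card F with hq
  have hq0 : 0 < q := Fintype.card_pos
  induction i with
  | zero =>
    refine ⟨Fin.elim0, N', fun j => j.elim0, ?_, Finset.Subset.refl _, fun j => j.elim0, ?_⟩
    · exact linearIndependent_empty_type
    · simp
  | succ i ih =>
    obtain ⟨e, M, heN, hli, hM, hMY, hMc⟩ := ih (by omega)
    have hNpos : 0 < N'.card := Finset.card_pos.2 hne
    have hMpos : 0 < M.card := by
      by_contra h
      push Not at h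
      have : M.card = 0 := by omega
      rw [this] at hMc
      omega
    set S := N'.filter (fun x => x ∉ Submodule.span F (Set.range e)) with hS
    -- lower bound for the number of neighbours outside the span
    have hkey : ∀ z ∈ M, D ≤ 96 * q * (S.filter (fun x => z - x ∈ Y)).card := by
      intro z hz
      have h1 := hdeg z (hM hz)
      have h2 : H68Ddeg Y N' z ≤ (S.filter (fun x => z - x ∈ Y)).card + q ^ i := by
        have hsub : N'.filter (fun z' => z' - z ∈ Y) ⊆ (S.filter (fun x => z - x ∈ Y)) ∪
            (N'.filter (fun x => x ∈ Submodule.span F (Set.range e))) := by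
          intro x hx
          rw [Finset.mem_filter] at hx
          rw [Finset.mem_union]
          by_cases hxs : x ∈ Submodule.span F (Set.range e)
          · right; exact Finset.mem_filter.2 ⟨hx.1, hxs⟩
          · left
            rw [Finset.mem_filter, hS, Finset.mem_filter]
            refine ⟨⟨hx.1, hxs⟩, ?_⟩
            have := hs _ hx.2
            rwa [neg_sub] at this
        have h3 := H68D_card_span F e N'
        rw [Fintype.card_fin] at h3
        exact (Finset.card_le_card hsub).trans ((Finset.card_union_le _ _).trans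
          (Nat.add_le_add_left h3 _))
      have h3 : q ^ i ≤ q ^ n := Nat.pow_le_pow_right hq0 (by omega)
      have h4 : 48 * q * H68Ddeg Y N' z ≤
          48 * q * (S.filter (fun x => z - x ∈ Y)).card + 48 * q * q ^ n := by
        calc 48 * q * H68Ddeg Y N' z ≤
            48 * q * ((S.filter (fun x => z - x ∈ Y)).card + q ^ n) :=
              Nat.mul_le_mul_left _ (h2.trans (Nat.add_le_add_left h3 _))
          _ = _ := by ring
      have h5 : 2 * (48 * q * q ^ n) ≤ D := by
        calc 2 * (48 * q * q ^ n) = 96 * q * q ^ n := by ring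
          _ ≤ D := hD2
      have h6 : 96 * q * (S.filter (fun x => z - x ∈ Y)).card =
          2 * (48 * q * (S.filter (fun x => z - x ∈ Y)).card) := by ring
      omega
    -- double counting
    have hdc : ∑ x ∈ S, (M.filter (fun z => z - x ∈ Y)).card =
        ∑ z ∈ M, (S.filter (fun x => z - x ∈ Y)).card := by
      simp only [Finset.card_filter]
      exact Finset.sum_comm
    have hsum : M.card * D ≤ 96 * q * ∑ x ∈ S, (M.filter (fun z => z - x ∈ Y)).card := by
      rw [hdc, Finset.mul_sum]
      calc M.card * D = ∑ _z ∈ M, D := by simp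
        _ ≤ _ := Finset.sum_le_sum hkey
    have hex : ∃ x ∈ S, M.card ≤ 192 * q * (M.filter (fun z => z - x ∈ Y)).card := by
      by_contra hno
      push Not at hno
      have hSne : S.Nonempty := by
        rw [Finset.nonempty_iff_ne_empty]
        intro hSe
        rw [hSe] at hsum
        simp at hsum
        rcases hsum with h | h
        · rw [h] at hMpos; simp at hMpos
        · omega
      have h1 : ∑ x ∈ S, 192 * q * (M.filter (fun z => z - x ∈ Y)).card < ∑ _x ∈ S, M.card :=
        Finset.sum_lt_sum_of_nonempty hSne hno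
      rw [← Finset.mul_sum, Finset.sum_const, smul_eq_mul] at h1
      have h2 : S.card ≤ 2 * D := (Finset.card_le_card (Finset.filter_subset _ _)).trans hcard
      have h3 : S.card * M.card ≤ 2 * D * M.card := Nat.mul_le_mul_right _ h2
      have h4 : 192 * q * ∑ x ∈ S, (M.filter (fun z => z - x ∈ Y)).card =
          2 * (96 * q * ∑ x ∈ S, (M.filter (fun z => z - x ∈ Y)).card) := by ring
      have h5 : 2 * D * M.card = 2 * (M.card * D) := by ring
      omega
    obtain ⟨x, hxS, hxM⟩ := hex
    rw [hS, Finset.mem_filter] at hxS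
    refine ⟨Fin.cons x e, M.filter (fun z => z - x ∈ Y), ?_, ?_, ?_, ?_, ?_⟩
    · intro j
      refine Fin.cases ?_ (fun j => ?_) j
      · simpa using hxS.1
      · simpa using heN j
    · rw [linearIndependent_finCons]
      exact ⟨hli, hxS.2⟩
    · exact (Finset.filter_subset _ _).trans hM
    · intro j z hz
      rw [Finset.mem_filter] at hz
      refine Fin.cases ?_ (fun j => ?_) j
      · simpa using hz.2
      · simpa using hMY j z hz.1
    · calc N'.card ≤ (192 * q) ^ i * M.card := hMc
        _ ≤ (192 * q) ^ i * (192 * q * (M.filter (fun z => z - x ∈ Y)).card) :=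
          Nat.mul_le_mul_left _ hxM
        _ = (192 * q) ^ (i + 1) * (M.filter (fun z => z - x ∈ Y)).card := by ring

open Classical in
/-- (3) independent common neighbours -/
theorem H68D_extend (F : Type) [Field F] [Fintype F] {V : Type} [AddCommGroup V] [Module F V]
    [Finite V] (n : ℕ) (e : Fin n → V) (he : LinearIndependent F e) (M : Finset V)
    (hM : Fintype.card F ^ (n + n * n) ≤ M.card) :
    ∃ x : Fin n × Fin n → V, (∀ p, x p ∈ M) ∧ LinearIndependent F (Sum.elim e x) := by
  set q := Fintype.card F with hq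
  have hq1 : 1 < q := Fintype.one_lt_card
  have hs : LinearIndepOn F id (Set.range e) := he.linearIndepOn_id
  obtain ⟨b, hb1, hb2, hb3, hb4⟩ := exists_linearIndepOn_id_extension hs
    (Set.subset_union_left : Set.range e ⊆ Set.range e ∪ (M : Set V))
  have : Finite b := Set.toFinite b
  have : Fintype b := Fintype.ofFinite b
  have hcb : n + n * n ≤ Fintype.card b := by
    have h1 : M.card ≤ q ^ Fintype.card b := by
      have h2 := H68D_card_span F (Subtype.val : b → V) M
      have h3 : M.filter (fun z => z ∈ Submodule.span F (Set.range (Subtype.val : b → V))) = M := by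
        rw [Finset.filter_eq_self]
        intro z hz
        rw [Subtype.range_coe]
        exact hb3 (Set.mem_union_right _ hz)
      rwa [h3] at h2
    exact (Nat.pow_le_pow_iff_right hq1).1 (hM.trans h1)
  -- the part of `b` outside the range of `e`
  have hcr : Fintype.card (Set.range e) = n := by
    rw [Set.card_range_of_injective he.injective, Fintype.card_fin]
  set c : Set V := b \ Set.range e with hc
  have : Fintype c := Fintype.ofFinite c
  have hcc : n * n ≤ Fintype.card c := by
    have h1 : b.ncard = (Set.range e).ncard + c.ncard := by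
      rw [hc, add_comm]
      exact (Set.ncard_sdiff_add_ncard_of_subset hb2 (Set.toFinite _)).symm
    have h2 : b.ncard = Fintype.card b := by
      rw [← Nat.card_coe_set_eq, Nat.card_eq_fintype_card]
    have h3 : (Set.range e).ncard = n := by
      rw [← Nat.card_coe_set_eq, Nat.card_eq_fintype_card, hcr]
    have h4 : c.ncard = Fintype.card c := by
      rw [← Nat.card_coe_set_eq, Nat.card_eq_fintype_card]
    omega
  have hcard : Fintype.card (Fin n × Fin n) ≤ Fintype.card c := by
    rw [Fintype.card_prod, Fintype.card_fin]; exact hcc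
  obtain ⟨g⟩ := Function.Embedding.nonempty_of_card_le hcard
  refine ⟨fun p => (g p : V), ?_, ?_⟩
  · intro p
    have h1 : (g p : V) ∈ b \ Set.range e := (g p).2
    rcases hb1 h1.1 with h | h
    · exact absurd h h1.2
    · exact h
  · have hb5 : LinearIndependent F (Subtype.val : b → V) := hb4
    let G : Fin n ⊕ (Fin n × Fin n) → b := Sum.elim (fun i => ⟨e i, hb2 ⟨i, rfl⟩⟩)
      (fun p => ⟨(g p : V), (g p).2.1⟩)
    have hG : Function.Injective G := by
      rintro (i | p) (j | p') h
      · have : e i = e j := congrArg (Subtype.val : b → V) h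
        rw [he.injective this]
      · exfalso
        have : e i = (g p' : V) := congrArg (Subtype.val : b → V) h
        exact (g p').2.2 ⟨i, this⟩
      · exfalso
        have : (g p : V) = e j := congrArg (Subtype.val : b → V) h
        exact (g p).2.2 ⟨j, this.symm⟩
      · have : (g p : V) = (g p' : V) := congrArg (Subtype.val : b → V) h
        rw [g.injective (Subtype.ext this)]
    have h1 := hb5.comp G hG
    have h2 : (Subtype.val : b → V) ∘ G = Sum.elim e (fun p => (g p : V)) := by
      funext s
      rcases s with i | p <;> rfl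
    rwa [h2] at h1

/-- functionals with prescribed values on an independent family -/
theorem H68D_functional (F : Type) [Field F] {V : Type} [AddCommGroup V] [Module F V]
    {ι : Type} (v : ι → V) (hv : LinearIndependent F v) (a : ι → F) :
    ∃ ψ : V →ₗ[F] F, ∀ i, ψ (v i) = a i := by
  obtain ⟨ψ, hψ⟩ := LinearMap.exists_extend ((Module.Basis.span hv).constr F a)
  refine ⟨ψ, fun i => ?_⟩
  have h1 := congrArg (fun f => f ((Module.Basis.span hv) i)) hψ
  simp only [LinearMap.comp_apply, Submodule.subtype_apply, Module.Basis.constr_basis] at h1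
  rwa [Module.Basis.span_apply] at h1

/-- MODULE D (dense set gives clique minor). -/
theorem dense_clique (F : Type) [Field F] [Fintype F] (n : ℕ) :
    ∃ D0 : ℕ, ∀ D : ℕ, D0 ≤ D → ∀ (V : Type) [AddCommGroup V] [Module F V] [Finite V]
      (Y : Set V), LabelSet F Y → ∀ N : Finset V, N.card ≤ 2 * D →
      D ^ 2 ≤ 12 * Fintype.card F * E2 Y N → CliqueMinor F n Y := by
  classical
  set q := Fintype.card F with hq
  have hq0 : 0 < q := Fintype.card_pos
  refine ⟨96 * q * (192 * q) ^ n * q ^ (n + n * n), ?_⟩
  intro D hD V _ _ _ Y hY N hN hE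
  have hs : ∀ y ∈ Y, -y ∈ Y := by
    intro y hy
    have := hY.2 y hy (-1) (by simp)
    simpa using this
  have hp1 : 1 ≤ (192 * q) ^ n := Nat.one_le_pow _ _ (by omega)
  have hp2 : q ^ n ≤ q ^ (n + n * n) := Nat.pow_le_pow_right hq0 (by omega)
  have hp3 : 1 ≤ q ^ n := Nat.one_le_pow _ _ hq0
  have hD2 : 96 * q * q ^ n ≤ D := by
    refine le_trans ?_ hD
    calc 96 * q * q ^ n = 96 * q * 1 * q ^ n := by ring
      _ ≤ 96 * q * (192 * q) ^ n * q ^ (n + n * n) :=
        Nat.mul_le_mul (Nat.mul_le_mul_left _ hp1) hp2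
  have hD1 : 1 ≤ D := by
    refine le_trans ?_ hD2
    have : 1 ≤ 96 * q := by omega
    calc 1 = 1 * 1 := by ring
      _ ≤ 96 * q * q ^ n := Nat.mul_le_mul this hp3
  obtain ⟨N', hN'N, hne, hdeg⟩ := H68D_minimal Y hY.1 hs q D hD1 N hN hE
  have hcard : N'.card ≤ 2 * D := (Finset.card_le_card hN'N).trans hN
  obtain ⟨e, M, -, hli, hM, hMY, hMc⟩ :=
    H68D_greedy F Y hs n D hD1 hD2 N' hne hcard hdeg n le_rfl
  have hMbig : q ^ (n + n * n) ≤ M.card := by
    obtain ⟨z, hz⟩ := hne
    have h1 := hdeg z hz
    have h2 : H68Ddeg Y N' z ≤ N'.card := Finset.card_le_card (Finset.filter_subset _ _)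
    have h3 : D ≤ 48 * q * ((192 * q) ^ n * M.card) :=
      h1.trans (Nat.mul_le_mul_left _ (h2.trans hMc))
    have h4 : (48 * q * (192 * q) ^ n) * (2 * q ^ (n + n * n)) ≤
        (48 * q * (192 * q) ^ n) * M.card := by
      calc (48 * q * (192 * q) ^ n) * (2 * q ^ (n + n * n)) =
          96 * q * (192 * q) ^ n * q ^ (n + n * n) := by ring
        _ ≤ D := hD
        _ ≤ 48 * q * ((192 * q) ^ n * M.card) := h3
        _ = _ := by ring
    have h5 : 0 < 48 * q * (192 * q) ^ n := by positivity
    have h6 := Nat.le_of_mul_le_mul_left h4 h5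
    omega
  obtain ⟨x, hxM, hLI⟩ := H68D_extend F n e hli M hMbig
  refine ⟨Set.range (fun p : Fin n × Fin n => e p.1 - x p), ?_, e, ?_, ?_⟩
  · rintro _ ⟨p, rfl⟩
    have h1 := hs _ (hMY p.1 (x p) (hxM p))
    rwa [neg_sub] at h1
  · intro c hc
    funext i
    obtain ⟨ψ, hψ⟩ := H68D_functional F (Sum.elim e x) hLI
      (Sum.elim (fun j => if j = i then 1 else 0) (fun p => if p.1 = i then 1 else 0))
    have hψe : ∀ j, ψ (e j) = if j = i then 1 else 0 := fun j => hψ (Sum.inl j)
    have hψx : ∀ p, ψ (x p) = if p.1 = i then 1 else 0 := fun p => hψ (Sum.inr p)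
    have hker : Submodule.span F (Set.range (fun p : Fin n × Fin n => e p.1 - x p)) ≤
        LinearMap.ker ψ := by
      rw [Submodule.span_le]
      rintro _ ⟨p, rfl⟩
      simp only [SetLike.mem_coe, LinearMap.mem_ker, map_sub, hψe, hψx, sub_self]
    have h1 := hker hc
    rw [LinearMap.mem_ker, map_sum] at h1
    simpa [hψe] using h1
  · intro i j _
    refine ⟨x (i, j) - e j, hMY j (x (i, j)) (hxM _), ?_⟩
    have h1 : x (i, j) - e j - (e i - e j) = -(e i - x (i, j)) := by abel
    rw [h1]
    exact Submodule.neg_mem _ (Submodule.subset_span ⟨(i, j), rfl⟩)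

end Pool.Agent.Lib.MP_71775e_co
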