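import Mathlib

/-!
# Module A: the abstract girth theorem
-/

set_option autoImplicit false

open Finset

namespace Pool.Agent.Lib.MP_71775e_co

namespace H82

/-- the hypotheses of the abstract girth theorem -/
structure NS {α : Type} [DecidableEq α] (lam : ℕ) (n : Finset α → ℕ)
    (Circ : Finset α → Prop) : Prop where
  n0 : n ∅ = 0
  le_succ : ∀ X : Finset α, ∀ x ∈ X, n X ≤ n (X.erase x) + 1
  mono1 : ∀ X : Finset α, ∀ x ∈ X, n (X.erase x) ≤ n X
  lt_iff : ∀ X : Finset α, ∀ x ∈ X, (n (X.erase x) < n X ↔ ∃ C, Circ C ∧ x ∈ C ∧ C ⊆ X)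
  sep : ∀ X T : Finset α, T ⊆ X → (∀ t ∈ T, ∃ C, Circ C ∧ C ⊆ X ∧ t ∈ C) →
      (∀ s ∈ T, ∀ t ∈ T, s ≠ t → ∃ C, Circ C ∧ C ⊆ X ∧ ¬ (s ∈ C ↔ t ∈ C)) →
      T.card ≤ lam * n X

variable {α : Type} [DecidableEq α] {lam : ℕ} {n : Finset α → ℕ} {Circ : Finset α → Prop}

lemma NS.mono_lam (h : NS lam n Circ) {lam' : ℕ} (hl : lam ≤ lam') : NS lam' n Circ where
  n0 := h.n0
  le_succ := h.le_succ
  mono1 := h.mono1
  lt_iff := h.lt_iff
  sep := fun X T h1 h2 h3 => (h.sep X T h1 h2 h3).trans (Nat.mul_le_mul_right _ hl)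

lemma sdiff_insert_eq (X Q : Finset α) (q : α) : X \ insert q Q = (X.erase q) \ Q := by
  ext x
  simp only [Finset.mem_sdiff, Finset.mem_insert, Finset.mem_erase]
  tauto

lemma NS.sdiff_eq (h : NS lam n Circ) (Q : Finset α) : ∀ X : Finset α, Q ⊆ X →
    (∀ q ∈ Q, ¬ ∃ C, Circ C ∧ q ∈ C ∧ C ⊆ X) → n (X \ Q) = n X := by
  induction Q using Finset.induction_on with
  | empty => intro X _ _; simp
  | insert q Q hq ih =>
    intro X hQ hno
    have hqX : q ∈ X := hQ (Finset.mem_insert_self q Q)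
    rw [sdiff_insert_eq, ih (X.erase q)]
    · have h1 := h.mono1 X q hqX
      have h2 := (h.lt_iff X q hqX).not.2 (hno q (Finset.mem_insert_self q Q))
      omega
    · intro x hx
      rw [Finset.mem_erase]
      exact ⟨fun hxq => hq (hxq ▸ hx), hQ (Finset.mem_insert_of_mem hx)⟩
    · rintro x hx ⟨C, hC, hxC, hCX⟩
      exact hno x (Finset.mem_insert_of_mem hx) ⟨C, hC, hxC, hCX.trans (Finset.erase_subset _ _)⟩

lemma NS.exists_circuit (h : NS lam n Circ) {X : Finset α} (hX : 1 ≤ n X) :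
    ∃ C, Circ C ∧ C ⊆ X ∧ C.Nonempty := by
  by_contra hcon
  push Not at hcon
  have h1 := h.sdiff_eq X X (Finset.Subset.refl X) (by
    rintro q _ ⟨C, hC, hqC, hCX⟩
    have := hcon C hC hCX
    rw [this] at hqC
    simp at hqC)
  rw [Finset.sdiff_self] at h1
  have := h.n0
  omega

lemma NS.sdiff_le (h : NS lam n Circ) (Q : Finset α) : ∀ X : Finset α, n (X \ Q) ≤ n X := by
  induction Q using Finset.induction_on with
  | empty => intro X; simp
  | insert q Q _ ih =>
    intro X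
    rw [sdiff_insert_eq]
    refine (ih _).trans ?_
    by_cases hq : q ∈ X
    · exact h.mono1 X q hq
    · rw [Finset.erase_eq_of_notMem hq]

lemma NS.mono (h : NS lam n Circ) {X Y : Finset α} (hXY : Y ⊆ X) : n Y ≤ n X := by
  have := h.sdiff_le (X \ Y) X
  rwa [Finset.sdiff_sdiff_eq_self hXY] at this

lemma NS.drop (h : NS lam n Circ) (Q : Finset α) : ∀ X : Finset α, n X ≤ n (X \ Q) + Q.card := by
  induction Q using Finset.induction_on with
  | empty => intro X; simp
  | insert q Q hq ih =>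
    intro X
    rw [sdiff_insert_eq, Finset.card_insert_of_notMem hq]
    have h1 := ih (X.erase q)
    have h2 : n X ≤ n (X.erase q) + 1 := by
      by_cases hq : q ∈ X
      · exact h.le_succ X q hq
      · rw [Finset.erase_eq_of_notMem hq]; omega
    omega

lemma NS.exists_val (h : NS lam n Circ) : ∀ (k : ℕ) (X : Finset α), X.card = k → ∀ v, v ≤ n X →
    ∃ Y, Y ⊆ X ∧ n Y = v := by
  intro k
  induction k with
  | zero =>
    intro X hX v hv
    rw [Finset.card_eq_zero] at hX
    subst hX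
    have := h.n0
    exact ⟨∅, Finset.Subset.refl _, by omega⟩
  | succ k ih =>
    intro X hX v hv
    by_cases hv' : v = n X
    · exact ⟨X, Finset.Subset.refl _, hv'.symm⟩
    obtain ⟨x, hx⟩ : X.Nonempty := by
      rw [← Finset.card_pos]; omega
    obtain ⟨Y, hY, hYv⟩ := ih (X.erase x) (by rw [Finset.card_erase_of_mem hx]; omega) v (by
      have := h.le_succ X x hx
      omega)
    exact ⟨Y, hY.trans (Finset.erase_subset _ _), hYv⟩

/-- a transversal of the fibres -/
lemma transversal {β : Type*} (f : α → β) (X : Finset α) :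
    ∃ R, R ⊆ X ∧ (∀ x ∈ R, ∀ y ∈ R, f x = f y → x = y) ∧ ∀ x ∈ X, ∃ r ∈ R, f r = f x := by
  classical
  induction X using Finset.induction_on with
  | empty => exact ⟨∅, Finset.Subset.refl _, by simp, by simp⟩
  | insert x X _ ih =>
    obtain ⟨R, hRX, hinj, hsur⟩ := ih
    by_cases hx : ∃ r ∈ R, f r = f x
    · refine ⟨R, hRX.trans (Finset.subset_insert _ _), hinj, ?_⟩
      intro y hy
      rw [Finset.mem_insert] at hy
      rcases hy with rfl | hy
      · exact hx
      · exact hsur y hy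
    · push Not at hx
      refine ⟨insert x R, Finset.insert_subset_insert x hRX, ?_, ?_⟩
      · intro y hy z hz hyz
        rw [Finset.mem_insert] at hy hz
        rcases hy with rfl | hy <;> rcases hz with rfl | hz
        · rfl
        · exact absurd hyz.symm (hx z hz)
        · exact absurd hyz (hx y hy)
        · exact hinj y hy z hz hyz
      · intro y hy
        rw [Finset.mem_insert] at hy
        rcases hy with rfl | hy
        · exact ⟨y, Finset.mem_insert_self _ _, rfl⟩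
        · obtain ⟨r, hr, hr'⟩ := hsur y hy
          exact ⟨r, Finset.mem_insert_of_mem hr, hr'⟩

/-- the circuits of `X` through `x` -/
noncomputable def sig (Circ : Finset α → Prop) (X : Finset α) (x : α) : Finset (Finset α) :=
  @Finset.filter _ (fun C => Circ C ∧ x ∈ C) (Classical.decPred _) X.powerset

lemma mem_sig {X : Finset α} {x : α} {C : Finset α} :
    C ∈ sig Circ X x ↔ C ⊆ X ∧ Circ C ∧ x ∈ C := by
  letI : DecidablePred (fun C : Finset α => Circ C ∧ x ∈ C) := Classical.decPred _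
  rw [sig, Finset.mem_filter, Finset.mem_powerset]

lemma NS.transversal_card (h : NS lam n Circ) {X R : Finset α} (hRX : R ⊆ X)
    (hinj : ∀ x ∈ R, ∀ y ∈ R, sig Circ X x = sig Circ X y → x = y)
    (hcirc : ∀ x ∈ R, ∃ C, Circ C ∧ C ⊆ X ∧ x ∈ C) : R.card ≤ lam * n X := by
  refine h.sep X R hRX hcirc ?_
  intro s hs t ht hst
  by_contra hcon
  push Not at hcon
  apply hst
  apply hinj s hs t ht
  ext C
  rw [mem_sig, mem_sig]
  constructor
  · rintro ⟨h1, h2, h3⟩
    exact ⟨h1, h2, (hcon C h2 h1).1 h3⟩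
  · rintro ⟨h1, h2, h3⟩
    exact ⟨h1, h2, (hcon C h2 h1).2 h3⟩

lemma bern (k x : ℕ) : x ^ (k + 1) + (k + 1) * x ^ k ≤ (x + 1) ^ (k + 1) := by
  induction k with
  | zero => simp
  | succ k ih =>
    calc x ^ (k + 1 + 1) + (k + 1 + 1) * x ^ (k + 1)
        ≤ (x + 1) * (x ^ (k + 1) + (k + 1) * x ^ k) := by
          have h0 : 0 ≤ (k + 1) * x ^ k := Nat.zero_le _
          have e1 : (x + 1) * (x ^ (k + 1) + (k + 1) * x ^ k) =
              x ^ (k + 1 + 1) + (k + 1 + 1) * x ^ (k + 1) + (k + 1) * x ^ k := by ring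
          rw [e1]
          omega
      _ ≤ (x + 1) * (x + 1) ^ (k + 1) := Nat.mul_le_mul_left _ ih
      _ = (x + 1) ^ (k + 1 + 1) := by ring

/-- Lemma A -/
theorem NS.lemA (h : NS lam n Circ) (hlam : 1 ≤ lam) (g : ℕ) : ∀ (k : ℕ) (X : Finset α),
    X.card = k → 1 ≤ n X → (∀ C, Circ C → C ⊆ X → C.Nonempty → g ≤ C.card) →
    (n X + 1) * g ^ lam ≤ 2 * X.card ^ lam := by
  classical
  intro k
  induction k using Nat.strong_induction_on with
  | _ k ih =>
    intro X hXk hn hg
    by_cases hall : ∀ x ∈ X, ∃ C, Circ C ∧ x ∈ C ∧ C ⊆ X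
    swap
    · push Not at hall
      obtain ⟨x, hx, hxno⟩ := hall
      have hcard := Finset.card_erase_of_mem hx
      have hpos : 0 < X.card := Finset.card_pos.2 ⟨x, hx⟩
      have h1 : n (X.erase x) = n X := by
        have h1 := h.mono1 X x hx
        have h2 := (h.lt_iff X x hx).not.2 (by
          rintro ⟨C, hC, hxC, hCX⟩
          exact hxno C hC hxC hCX)
        omega
      have h2 := ih (X.erase x).card (by omega) (X.erase x) rfl (by omega)
        (fun C hC hCX hne => hg C hC (hCX.trans (Finset.erase_subset _ _)) hne)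
      rw [h1] at h2
      refine h2.trans (Nat.mul_le_mul_left _ (Nat.pow_le_pow_left ?_ _))
      omega
    -- all elements lie in circuits
    set s := n X with hs
    obtain ⟨R, hRX, hinj, hsur⟩ := transversal (sig Circ X) X
    have hR := h.transversal_card hRX hinj (fun x hx => by
      obtain ⟨C, h1, h2, h3⟩ := hall x (hRX hx)
      exact ⟨C, h1, h3, h2⟩)
    rw [← hs] at hR
    obtain ⟨C0, hC0, hC0X, hC0ne⟩ := h.exists_circuit (X := X) (by omega)
    have hXne : X.Nonempty := hC0ne.mono hC0X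
    have hRne : R.Nonempty := by
      obtain ⟨x, hx⟩ := hXne
      obtain ⟨r, hr, _⟩ := hsur x hx
      exact ⟨r, hr⟩
    -- a large fibre
    have hfib : ∃ r ∈ R, X.card ≤ lam * s * (X.filter fun x => sig Circ X x = sig Circ X r).card := by
      by_contra hcon
      push Not at hcon
      have h1 : ∑ r ∈ R, lam * s * (X.filter fun x => sig Circ X x = sig Circ X r).card <
          ∑ r ∈ R, X.card := Finset.sum_lt_sum_of_nonempty hRne hcon
      have h2 : X.card = ∑ r ∈ R, (X.filter fun x => sig Circ X x = sig Circ X r).card := by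
        have h3 : X = R.biUnion fun r => X.filter fun x => sig Circ X x = sig Circ X r := by
          ext x
          rw [Finset.mem_biUnion]
          constructor
          · intro hx
            obtain ⟨r, hr, hr'⟩ := hsur x hx
            exact ⟨r, hr, Finset.mem_filter.2 ⟨hx, hr'.symm⟩⟩
          · rintro ⟨r, _, hx⟩
            exact (Finset.mem_filter.1 hx).1
        conv_lhs => rw [h3]
        refine Finset.card_biUnion ?_
        intro r hr r' hr' hne
        rw [Function.onFun, Finset.disjoint_left]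
        intro x hx hx'
        have e1 := (Finset.mem_filter.1 hx).2
        have e2 := (Finset.mem_filter.1 hx').2
        exact hne (hinj r hr r' hr' (e1.symm.trans e2))
      rw [← Finset.mul_sum, ← h2, Finset.sum_const, smul_eq_mul] at h1
      have h3 := Nat.mul_le_mul_right X.card hR
      omega
    obtain ⟨q0, hq0R, hq0⟩ := hfib
    have hq0X : q0 ∈ X := hRX hq0R
    set Q := X.filter fun x => sig Circ X x = sig Circ X q0 with hQ
    have hq0Q : q0 ∈ Q := Finset.mem_filter.2 ⟨hq0X, rfl⟩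
    have hQX : Q ⊆ X := Finset.filter_subset _ _
    have hXQ : X \ Q = (X.erase q0) \ (Q.erase q0) := by
      ext x
      simp only [Finset.mem_sdiff, Finset.mem_erase]
      constructor
      · rintro ⟨h1, h2⟩
        exact ⟨⟨fun hx => h2 (hx ▸ hq0Q), h1⟩, fun h3 => h2 h3.2⟩
      · rintro ⟨⟨h1, h2⟩, h3⟩
        exact ⟨h2, fun h4 => h3 ⟨h1, h4⟩⟩
    have hnQ : n (X \ Q) = n (X.erase q0) := by
      rw [hXQ]
      refine h.sdiff_eq _ _ (Finset.erase_subset_erase _ hQX) ?_
      rintro q hq ⟨C, hC, hqC, hCX⟩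
      rw [Finset.mem_erase] at hq
      have h1 : C ∈ sig Circ X q := mem_sig.2 ⟨hCX.trans (Finset.erase_subset _ _), hC, hqC⟩
      rw [(Finset.mem_filter.1 hq.2).2, mem_sig] at h1
      have h2 := hCX h1.2.2
      rw [Finset.mem_erase] at h2
      exact h2.1 rfl
    have hn1 : n (X \ Q) + 1 = s := by
      have h1 := h.le_succ X q0 hq0X
      have h2 := (h.lt_iff X q0 hq0X).2 (hall q0 hq0X)
      omega
    have hcardXQ : (X \ Q).card + Q.card = X.card := Finset.card_sdiff_add_card_eq_card hQX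
    have hQpos : 0 < Q.card := Finset.card_pos.2 ⟨q0, hq0Q⟩
    rcases Nat.lt_or_ge s 2 with hs2 | hs2
    · -- `s = 1`
      have hs1 : s = 1 := by omega
      rw [hs1]
      have h1 := hg C0 hC0 hC0X hC0ne
      have h2 := h1.trans (Finset.card_le_card hC0X)
      exact Nat.mul_le_mul_left 2 (Nat.pow_le_pow_left h2 _)
    · have h1 := ih (X \ Q).card (by omega) (X \ Q) rfl (by omega)
        (fun C hC hCX hne => hg C hC (hCX.trans Finset.sdiff_subset) hne)
      rw [hn1] at h1
      obtain ⟨l, rfl⟩ : ∃ l, lam = l + 1 := ⟨lam - 1, by omega⟩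
      obtain ⟨x, hx⟩ : ∃ x, (l + 1) * s = x + 1 := ⟨(l + 1) * s - 1, by
        have : 1 ≤ (l + 1) * s := Nat.mul_pos (by omega) (by omega)
        omega⟩
      have h2 : (x + 1) * (X \ Q).card ≤ x * X.card := by
        rw [hx] at hq0
        have h3 : (x + 1) * X.card = (x + 1) * (X \ Q).card + (x + 1) * Q.card := by
          rw [← hcardXQ]; ring
        have h4 : (x + 1) * X.card = x * X.card + X.card := by ring
        omega
      have h3 : (s + 1) * x ^ (l + 1) ≤ s * (x + 1) ^ (l + 1) := by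
        have h4 := bern l x
        calc (s + 1) * x ^ (l + 1) = s * x ^ (l + 1) + x * x ^ l := by ring
          _ ≤ s * x ^ (l + 1) + (x + 1) * x ^ l :=
              Nat.add_le_add_left (Nat.mul_le_mul_right (x ^ l) (Nat.le_succ x)) _
          _ = s * (x ^ (l + 1) + (l + 1) * x ^ l) := by rw [← hx]; ring
          _ ≤ s * (x + 1) ^ (l + 1) := Nat.mul_le_mul_left _ h4
      have hpos : 0 < s * (x + 1) ^ (l + 1) := Nat.mul_pos (by omega) (by positivity)
      refine Nat.le_of_mul_le_mul_left ?_ hpos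
      calc s * (x + 1) ^ (l + 1) * ((s + 1) * g ^ (l + 1))
          = (s + 1) * (x + 1) ^ (l + 1) * (s * g ^ (l + 1)) := by ring
        _ ≤ (s + 1) * (x + 1) ^ (l + 1) * (2 * (X \ Q).card ^ (l + 1)) :=
            Nat.mul_le_mul_left _ h1
        _ = 2 * (s + 1) * ((x + 1) * (X \ Q).card) ^ (l + 1) := by rw [mul_pow]; ring
        _ ≤ 2 * (s + 1) * (x * X.card) ^ (l + 1) :=
            Nat.mul_le_mul_left _ (Nat.pow_le_pow_left h2 _)
        _ = 2 * X.card ^ (l + 1) * ((s + 1) * x ^ (l + 1)) := by rw [mul_pow]; ring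
        _ ≤ 2 * X.card ^ (l + 1) * (s * (x + 1) ^ (l + 1)) := Nat.mul_le_mul_left _ h3
        _ = s * (x + 1) ^ (l + 1) * (2 * X.card ^ (l + 1)) := by ring

/-- Lemma C: shattered sets are small -/
theorem NS.lemC (h : NS lam n Circ) (hlam : 1 ≤ lam) {g : ℕ} (hg1 : 1 ≤ g) {X : Finset α}
    (hg : ∀ C, Circ C → C ⊆ X → C.Nonempty → g ≤ C.card) (FF : Finset (Finset α))
    (hFF : ∀ C ∈ FF, Circ C ∧ C ⊆ X ∧ C.Nonempty ∧ C.card < 2 * g) (S : Finset α) (m : ℕ)
    (hSm : S.card = 2 ^ m) (hS : FF.Shatters S) : 2 ^ m ≤ lam * (2 * (2 * (m + 1)) ^ lam) := by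
  classical
  have hcard : Fintype.card S = Fintype.card (Finset (Fin m)) := by
    rw [Fintype.card_coe, hSm, Fintype.card_finset, Fintype.card_fin]
  set e : S ≃ Finset (Fin m) := Fintype.equivOfCardEq hcard with he
  set T : Fin m → Finset α := fun i => (S.attach.filter fun s => i ∈ e s).image Subtype.val with hT
  have hTS : ∀ i, T i ⊆ S := by
    intro i x hx
    rw [hT] at hx
    simp only [Finset.mem_image, Finset.mem_filter] at hx
    obtain ⟨y, _, rfl⟩ := hx
    exact y.2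
  have hex : ∀ i, ∃ C ∈ FF, S ∩ C = T i := fun i => hS (hTS i)
  choose C hCF hCT using hex
  obtain ⟨Cs, hCsF, hCs⟩ := hS (Finset.Subset.refl S)
  have hmem : ∀ (x : α) (hx : x ∈ S) (i : Fin m), x ∈ C i ↔ i ∈ e ⟨x, hx⟩ := by
    intro x hx i
    have h1 : x ∈ S ∩ C i ↔ x ∈ T i := by rw [hCT]
    rw [Finset.mem_inter] at h1
    have h2 : x ∈ T i ↔ i ∈ e ⟨x, hx⟩ := by
      rw [hT]
      simp only [Finset.mem_image, Finset.mem_filter, Finset.mem_attach, true_and]
      constructor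
      · rintro ⟨y, hy, rfl⟩
        exact hy
      · intro hi
        exact ⟨⟨x, hx⟩, hi, rfl⟩
    rw [← h2, ← h1]
    exact ⟨fun h3 => ⟨hx, h3⟩, fun h3 => h3.2⟩
  set U : Finset α := Cs ∪ Finset.univ.biUnion C with hU
  have hCsU : Cs ⊆ U := Finset.subset_union_left
  have hCU : ∀ i, C i ⊆ U := fun i =>
    (Finset.subset_biUnion_of_mem C (Finset.mem_univ i)).trans Finset.subset_union_right
  have hUX : U ⊆ X := by
    refine Finset.union_subset (hFF Cs hCsF).2.1 ?_
    rw [Finset.biUnion_subset]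
    intro i _
    exact (hFF (C i) (hCF i)).2.1
  have hUcard : U.card ≤ 2 * g * (m + 1) := by
    calc U.card ≤ Cs.card + (Finset.univ.biUnion C).card := Finset.card_union_le _ _
      _ ≤ Cs.card + ∑ i : Fin m, (C i).card := by
          have := Finset.card_biUnion_le (s := Finset.univ) (t := C)
          omega
      _ ≤ 2 * g + ∑ _i : Fin m, 2 * g := by
          have h1 := (hFF Cs hCsF).2.2.2
          have h2 : ∑ i : Fin m, (C i).card ≤ ∑ _i : Fin m, 2 * g :=
            Finset.sum_le_sum fun i _ => (hFF (C i) (hCF i)).2.2.2.le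
          omega
      _ = 2 * g * (m + 1) := by
          rw [Finset.sum_const, Finset.card_univ, Fintype.card_fin, smul_eq_mul]; ring
  have hSCs : S ⊆ Cs := by
    intro x hx
    have : x ∈ S ∩ Cs := by rw [hCs]; exact hx
    exact (Finset.mem_inter.1 this).2
  have hSU : S ⊆ U := hSCs.trans hCsU
  have hsep := h.sep U S hSU (fun t ht => ⟨Cs, (hFF Cs hCsF).1, hCsU, hSCs ht⟩) (by
    intro s hs t ht hst
    have hne : e ⟨s, hs⟩ ≠ e ⟨t, ht⟩ := by
      intro h1
      apply hst
      have := e.injective h1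
      exact congrArg Subtype.val this
    obtain ⟨i, hi⟩ : ∃ i, ¬ (i ∈ e ⟨s, hs⟩ ↔ i ∈ e ⟨t, ht⟩) := by
      by_contra hcon
      push Not at hcon
      exact hne (Finset.ext hcon)
    refine ⟨C i, (hFF (C i) (hCF i)).1, hCU i, ?_⟩
    rw [hmem s hs i, hmem t ht i]
    exact hi)
  have hSpos : 0 < S.card := by rw [hSm]; positivity
  have hnU : 1 ≤ n U := by
    by_contra hcon
    have : n U = 0 := by omega
    rw [this] at hsep
    omega
  have hA := h.lemA hlam g U.card U rfl hnU (fun C hC hCU hne => hg C hC (hCU.trans hUX) hne)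
  have h2 : (n U + 1) * g ^ lam ≤ (2 * (2 * (m + 1)) ^ lam) * g ^ lam := by
    refine hA.trans ?_
    calc 2 * U.card ^ lam ≤ 2 * (2 * g * (m + 1)) ^ lam :=
          Nat.mul_le_mul_left _ (Nat.pow_le_pow_left hUcard _)
      _ = (2 * (2 * (m + 1)) ^ lam) * g ^ lam := by
          have : 2 * g * (m + 1) = (2 * (m + 1)) * g := by ring
          rw [this, mul_pow]; ring
  have h3 := Nat.le_of_mul_le_mul_right h2 (by positivity)
  rw [← hSm]
  exact hsep.trans (Nat.mul_le_mul_left _ (by omega))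

lemma exists_m0 (lam : ℕ) : ∃ m : ℕ, lam * (2 * (2 * (m + 1)) ^ lam) < 2 ^ m := by
  have h1 := tendsto_pow_const_div_const_pow_of_one_lt lam (show (1 : ℝ) < 2 by norm_num)
  have hc : (0 : ℝ) < 1 / (4 * (lam + 1) * 2 ^ lam) := by positivity
  have h2 := (h1.eventually (gt_mem_nhds hc)).and (Filter.eventually_ge_atTop 1)
  obtain ⟨N, hN, hN1⟩ := h2.exists
  obtain ⟨m, rfl⟩ : ∃ m, N = m + 1 := ⟨N - 1, by omega⟩
  refine ⟨m, ?_⟩
  have h3 : (0 : ℝ) < 2 ^ (m + 1) := by positivity
  rw [div_lt_iff₀ h3] at hN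
  have h4 : (4 * ((lam : ℝ) + 1) * 2 ^ lam) * ((m + 1 : ℕ) : ℝ) ^ lam < 2 ^ (m + 1) := by
    have h5 : (0 : ℝ) < 4 * (lam + 1) * 2 ^ lam := by positivity
    calc (4 * ((lam : ℝ) + 1) * 2 ^ lam) * ((m + 1 : ℕ) : ℝ) ^ lam
        < (4 * (lam + 1) * 2 ^ lam) * (1 / (4 * (lam + 1) * 2 ^ lam) * 2 ^ (m + 1)) :=
          mul_lt_mul_of_pos_left hN h5
      _ = 2 ^ (m + 1) := by field_simp
  have h5 : (4 * (lam + 1) * 2 ^ lam) * (m + 1) ^ lam < 2 ^ (m + 1) := by
    have : (((4 * (lam + 1) * 2 ^ lam) * (m + 1) ^ lam : ℕ) : ℝ) < ((2 ^ (m + 1) : ℕ) : ℝ) := by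
      push_cast
      push_cast at h4
      exact h4
    exact_mod_cast this
  have h6 : 2 * (lam * (2 * (2 * (m + 1)) ^ lam)) ≤ (4 * (lam + 1) * 2 ^ lam) * (m + 1) ^ lam := by
    rw [mul_pow]
    calc 2 * (lam * (2 * (2 ^ lam * (m + 1) ^ lam))) = 4 * lam * 2 ^ lam * (m + 1) ^ lam := by ring
      _ ≤ 4 * (lam + 1) * 2 ^ lam * (m + 1) ^ lam := by
          refine Nat.mul_le_mul_right _ (Nat.mul_le_mul_right _ (Nat.mul_le_mul_left _ ?_))
          omega
  rw [pow_succ] at h5
  omega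

/-- the number of subsets of size less than `D` -/
lemma card_small_subsets (R : Finset α) (D : ℕ) :
    (R.powerset.filter fun S => S.card < D).card ≤ (R.card + 1) ^ D := by
  have h1 : R.powerset.filter (fun S => S.card < D) =
      (Finset.range D).biUnion fun j => R.powersetCard j := by
    ext S
    rw [Finset.mem_filter, Finset.mem_biUnion, Finset.mem_powerset]
    constructor
    · rintro ⟨h1, h2⟩
      exact ⟨S.card, Finset.mem_range.2 h2, Finset.mem_powersetCard.2 ⟨h1, rfl⟩⟩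
    · rintro ⟨j, hj, hS⟩
      rw [Finset.mem_powersetCard] at hS
      rw [Finset.mem_range] at hj
      exact ⟨hS.1, by omega⟩
  rw [h1]
  refine Finset.card_biUnion_le.trans ?_
  have h2 : ∑ j ∈ Finset.range D, (R.powersetCard j).card ≤ ∑ j ∈ Finset.range D, R.card ^ j := by
    refine Finset.sum_le_sum fun j _ => ?_
    rw [Finset.card_powersetCard]
    exact Nat.choose_le_pow _ _
  refine h2.trans ?_
  clear h1 h2
  generalize R.card = r
  induction D with
  | zero => simp
  | succ D ih =>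
    rw [Finset.sum_range_succ, pow_succ]
    have h3 : r ^ D ≤ (r + 1) ^ D := Nat.pow_le_pow_left (Nat.le_succ r) D
    rcases Nat.eq_zero_or_pos r with h0 | h0
    · subst h0
      rcases Nat.eq_zero_or_pos D with hD | hD
      · subst hD; simp
      · have h4 : ∀ j ∈ Finset.range D, j ≠ 0 → (0 : ℕ) ^ j = 0 := fun j _ hj => zero_pow hj
        rw [Finset.sum_eq_single_of_mem 0 (Finset.mem_range.2 hD) h4]
        simp [hD.ne']
    · have h4 : (r + 1) ^ D * (r + 1) = (r + 1) ^ D * r + (r + 1) ^ D := by ring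
      have h5 : (r + 1) ^ D ≤ (r + 1) ^ D * r := Nat.le_mul_of_pos_right _ h0
      omega

/-- Lemma D -/
theorem NS.lemD (h : NS lam n Circ) (hlam : 1 ≤ lam) {D : ℕ}
    (hD : ∃ m : ℕ, D = 2 ^ m ∧ lam * (2 * (2 * (m + 1)) ^ lam) < 2 ^ m)
    {g : ℕ} (hg1 : 1 ≤ g) {X : Finset α}
    (hg : ∀ C, Circ C → C ⊆ X → C.Nonempty → g ≤ C.card) (FF : Finset (Finset α))
    (hFF : ∀ C ∈ FF, Circ C ∧ C ⊆ X ∧ C.Nonempty ∧ C.card < 2 * g) :
    FF.card ≤ (lam * n X + 1) ^ D := by
  classical
  obtain ⟨m, rfl, hm⟩ := hD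
  set X0 := X.filter fun x => ∃ C, Circ C ∧ C ⊆ X ∧ x ∈ C with hX0
  obtain ⟨R, hRX0, hinj, hsur⟩ := transversal (sig Circ X) X0
  have hRX : R ⊆ X := hRX0.trans (Finset.filter_subset _ _)
  have hR := h.transversal_card hRX hinj (fun x hx => (Finset.mem_filter.1 (hRX0 hx)).2)
  set AA := FF.image fun C => C ∩ R with hAA
  have hAAcard : AA.card = FF.card := by
    refine Finset.card_image_of_injOn ?_
    have key : ∀ C ∈ FF, ∀ C' ∈ FF, C ∩ R = C' ∩ R → C ⊆ C' := by
      intro C hC C' hC' heq x hx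
      have hC1 := hFF C hC
      have hC1' := hFF C' hC'
      have hxX0 : x ∈ X0 := Finset.mem_filter.2 ⟨hC1.2.1 hx, C, hC1.1, hC1.2.1, hx⟩
      obtain ⟨r, hr, hr'⟩ := hsur x hxX0
      have h1 : C ∈ sig Circ X x := mem_sig.2 ⟨hC1.2.1, hC1.1, hx⟩
      rw [← hr', mem_sig] at h1
      have h2 : r ∈ C ∩ R := Finset.mem_inter.2 ⟨h1.2.2, hr⟩
      rw [heq] at h2
      have h3 : C' ∈ sig Circ X r := mem_sig.2 ⟨hC1'.2.1, hC1'.1, (Finset.mem_inter.1 h2).1⟩
      rw [hr', mem_sig] at h3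
      exact h3.2.2
    intro C hC C' hC' heq
    exact Finset.Subset.antisymm (key C hC C' hC' heq) (key C' hC' C hC heq.symm)
  rw [← hAAcard]
  refine (Finset.card_le_card_shatterer AA).trans ?_
  have hsub : AA.shatterer ⊆ R.powerset.filter fun S => S.card < 2 ^ m := by
    intro S hS
    rw [Finset.mem_shatterer] at hS
    have hSR : S ⊆ R := by
      obtain ⟨u, hu, huS⟩ := hS (Finset.Subset.refl S)
      rw [hAA, Finset.mem_image] at hu
      obtain ⟨C, _, rfl⟩ := hu
      intro x hx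
      have : x ∈ S ∩ (C ∩ R) := by rw [huS]; exact hx
      exact (Finset.mem_inter.1 (Finset.mem_inter.1 this).2).2
    rw [Finset.mem_filter, Finset.mem_powerset]
    refine ⟨hSR, ?_⟩
    by_contra hcon
    push Not at hcon
    obtain ⟨S', hS'S, hS'card⟩ := Finset.exists_subset_card_eq hcon
    have hS'AA : AA.Shatters S' := hS.mono_right hS'S
    have hS'FF : FF.Shatters S' := by
      intro t ht
      obtain ⟨u, hu, hut⟩ := hS'AA ht
      rw [hAA, Finset.mem_image] at hu
      obtain ⟨C, hC, rfl⟩ := hu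
      refine ⟨C, hC, ?_⟩
      rw [← hut]
      ext x
      simp only [Finset.mem_inter]
      constructor
      · rintro ⟨h1, h2⟩
        exact ⟨h1, h2, hSR (hS'S h1)⟩
      · rintro ⟨h1, h2, _⟩
        exact ⟨h1, h2⟩
    have h1 := h.lemC hlam hg1 hg FF hFF S' m hS'card hS'FF
    omega
  refine (Finset.card_le_card hsub).trans ((card_small_subsets R _).trans ?_)
  exact Nat.pow_le_pow_left (by omega) _

/-- Lemma E: greedy hitting -/
theorem greedy {X : Finset α} {g : ℕ} (hg1 : 1 ≤ g) (FF : Finset (Finset α))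
    (hFF : ∀ C ∈ FF, C ⊆ X ∧ g ≤ C.card) (k : ℕ) :
    ∃ Y, Y ⊆ X ∧ Y.card ≤ k ∧
      (FF.filter fun C => Disjoint C Y).card * X.card ^ k ≤ FF.card * (X.card - g) ^ k := by
  classical
  induction k with
  | zero =>
    refine ⟨∅, Finset.empty_subset _, by simp, ?_⟩
    simp
  | succ k ih =>
    obtain ⟨Y, hYX, hYk, hY⟩ := ih
    set F' := FF.filter fun C => Disjoint C Y with hF'
    rcases F'.eq_empty_or_nonempty with hE | hne
    · refine ⟨Y, hYX, by omega, ?_⟩
      rw [← hF', hE]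
      simp
    obtain ⟨C1, hC1⟩ := hne
    have hC1' := hFF C1 (Finset.mem_filter.1 hC1).1
    have hgX : g ≤ X.card := hC1'.2.trans (Finset.card_le_card hC1'.1)
    have hXne : X.Nonempty := by
      rw [← Finset.card_pos]; omega
    -- an element of large degree
    have hdeg : ∃ x ∈ X, g * F'.card ≤ X.card * (F'.filter fun C => x ∈ C).card := by
      by_contra hcon
      push Not at hcon
      have h1 : ∑ x ∈ X, X.card * (F'.filter fun C => x ∈ C).card < ∑ x ∈ X, g * F'.card :=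
        Finset.sum_lt_sum_of_nonempty hXne hcon
      have h2 : ∑ x ∈ X, (F'.filter fun C => x ∈ C).card = ∑ C ∈ F', C.card := by
        simp only [Finset.card_filter]
        rw [Finset.sum_comm]
        refine Finset.sum_congr rfl fun C hC => ?_
        rw [← Finset.card_filter]
        congr 1
        ext x
        rw [Finset.mem_filter]
        exact ⟨fun h3 => h3.2, fun h3 => ⟨(hFF C (Finset.mem_filter.1 hC).1).1 h3, h3⟩⟩
      have h3 : g * F'.card ≤ ∑ C ∈ F', C.card := by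
        rw [mul_comm, ← smul_eq_mul, ← Finset.sum_const]
        exact Finset.sum_le_sum fun C hC => (hFF C (Finset.mem_filter.1 hC).1).2
      rw [← Finset.mul_sum, h2, Finset.sum_const, smul_eq_mul] at h1
      have h4 := Nat.mul_le_mul_left X.card h3
      omega
    obtain ⟨x, hxX, hx⟩ := hdeg
    refine ⟨insert x Y, Finset.insert_subset hxX hYX, (Finset.card_insert_le _ _).trans (by omega),
      ?_⟩
    have h1 : FF.filter (fun C => Disjoint C (insert x Y)) = F'.filter fun C => ¬ x ∈ C := by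
      ext C
      rw [hF', Finset.mem_filter, Finset.mem_filter, Finset.mem_filter,
        Finset.disjoint_insert_right]
      tauto
    have h2 : (F'.filter fun C => x ∈ C).card + (F'.filter fun C => ¬ x ∈ C).card = F'.card :=
      Finset.card_filter_add_card_filter_not _
    rw [h1]
    have h3 : (F'.filter fun C => ¬ x ∈ C).card * X.card ≤ F'.card * (X.card - g) := by
      obtain ⟨t, ht⟩ := Nat.exists_eq_add_of_le hgX
      rw [ht, Nat.add_sub_cancel_left, ← ht]
      have h4 : F'.card * X.card = X.card * (F'.filter fun C => x ∈ C).card +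
          (F'.filter fun C => ¬ x ∈ C).card * X.card := by
        rw [← h2]; ring
      have h5 : F'.card * X.card = g * F'.card + F'.card * t := by
        rw [ht]; ring
      omega
    calc (F'.filter fun C => ¬ x ∈ C).card * X.card ^ (k + 1)
        = ((F'.filter fun C => ¬ x ∈ C).card * X.card) * X.card ^ k := by ring
      _ ≤ (F'.card * (X.card - g)) * X.card ^ k := Nat.mul_le_mul_right _ h3
      _ = (F'.card * X.card ^ k) * (X.card - g) := by ring
      _ ≤ (FF.card * (X.card - g) ^ k) * (X.card - g) := Nat.mul_le_mul_right _ hY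
      _ = FF.card * (X.card - g) ^ (k + 1) := by ring

/-- the numerical contradiction -/
lemma num_contra {g N nu L E k : ℕ} (hgN : g ≤ N) (hN : 1 ≤ N) (hk : nu ≤ 3 * k)
    (hbig : 3 * E * L * N < g * nu) (h : N ^ k ≤ 2 ^ (E * L) * (N - g) ^ k) : False := by
  have hNR : (0 : ℝ) < N := by exact_mod_cast hN
  have h1 : (N : ℝ) ^ k ≤ 2 ^ (E * L) * ((N : ℝ) - g) ^ k := by
    have : ((N ^ k : ℕ) : ℝ) ≤ ((2 ^ (E * L) * (N - g) ^ k : ℕ) : ℝ) := by exact_mod_cast h
    push_cast [Nat.cast_sub hgN] at this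
    exact this
  have h2 : ((N : ℝ) - g) ^ k = (N : ℝ) ^ k * (1 - g / N) ^ k := by
    rw [← mul_pow]
    congr 1
    field_simp
  have h3 : (0 : ℝ) ≤ 1 - g / N := by
    rw [sub_nonneg, div_le_one hNR]
    exact_mod_cast hgN
  have h4 : (1 - (g : ℝ) / N) ^ k ≤ Real.exp (-(g * k / N)) := by
    have h5 : 1 - (g : ℝ) / N ≤ Real.exp (-(g / N)) := by
      have := Real.add_one_le_exp (-((g : ℝ) / N))
      linarith
    calc (1 - (g : ℝ) / N) ^ k ≤ (Real.exp (-(g / N))) ^ k := pow_le_pow_left₀ h3 h5 k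
      _ = Real.exp (-(g * k / N)) := by
          rw [← Real.exp_nat_mul]
          congr 1
          ring
  have h5 : (2 : ℝ) ^ (E * L) ≤ Real.exp (E * L) := by
    have h6 : (2 : ℝ) ≤ Real.exp 1 := by
      have := Real.add_one_le_exp (1 : ℝ)
      linarith
    calc (2 : ℝ) ^ (E * L) ≤ (Real.exp 1) ^ (E * L) := pow_le_pow_left₀ (by norm_num) h6 _
      _ = Real.exp (E * L) := by
          rw [← Real.exp_nat_mul]
          congr 1
          push_cast
          ring
  have hNk : (0 : ℝ) < (N : ℝ) ^ k := by positivity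
  rw [h2] at h1
  have h6 : (1 : ℝ) ≤ 2 ^ (E * L) * (1 - (g : ℝ) / N) ^ k := by
    have h7 : (N : ℝ) ^ k * 1 ≤ (N : ℝ) ^ k * (2 ^ (E * L) * (1 - (g : ℝ) / N) ^ k) := by
      calc (N : ℝ) ^ k * 1 = (N : ℝ) ^ k := by ring
        _ ≤ _ := h1
        _ = _ := by ring
    exact le_of_mul_le_mul_left h7 hNk
  have h7 : (1 : ℝ) ≤ Real.exp (E * L) * Real.exp (-(g * k / N)) :=
    h6.trans (mul_le_mul h5 h4 (pow_nonneg h3 _) (Real.exp_pos _).le)
  rw [← Real.exp_add, Real.one_le_exp_iff] at h7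
  have h8 : (g : ℝ) * k / N ≤ E * L := by linarith
  rw [div_le_iff₀ hNR] at h8
  have h9 : g * k ≤ E * L * N := by exact_mod_cast h8
  have h10 : g * nu ≤ g * (3 * k) := Nat.mul_le_mul_left _ hk
  have h11 : g * (3 * k) = 3 * (g * k) := by ring
  have h12 : 3 * E * L * N = 3 * (E * L * N) := by ring
  omega

/-- Lemma F -/
theorem NS.lemF {D a : ℕ} (hlam : 1 ≤ lam)
    (hD : ∃ m : ℕ, D = 2 ^ m ∧ lam * (2 * (2 * (m + 1)) ^ lam) < 2 ^ m)
    (ha : lam + 1 ≤ 2 ^ a) (h : NS lam n Circ) : ∀ (nu : ℕ) (X : Finset α), n X = nu → 1 ≤ nu →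
      ∃ C, Circ C ∧ C ⊆ X ∧ C.Nonempty ∧
        C.card * nu ≤ 3 * (D * (a + 1)) * (1 + Nat.log 2 nu) * X.card := by
  classical
  have hD1 : 1 ≤ D := by
    obtain ⟨m, rfl, _⟩ := hD
    exact Nat.one_le_two_pow
  intro nu
  induction nu using Nat.strong_induction_on with
  | _ nu ih =>
    intro X hnX hnu
    set E := D * (a + 1) with hE
    have hE1 : 1 ≤ E := Nat.mul_pos hD1 (by omega)
    set L := 1 + Nat.log 2 nu with hL
    -- the minimal circuit
    obtain ⟨C1, hC1, hC1X, hC1ne⟩ := h.exists_circuit (X := X) (by omega)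
    have hfin : ((X.powerset.filter fun C => Circ C ∧ C.Nonempty)).Nonempty :=
      ⟨C1, Finset.mem_filter.2 ⟨Finset.mem_powerset.2 hC1X, hC1, hC1ne⟩⟩
    obtain ⟨C0, hC0, hmin⟩ := Finset.exists_min_image _ (fun C => C.card) hfin
    rw [Finset.mem_filter, Finset.mem_powerset] at hC0
    set g := C0.card with hg
    have hg1 : 1 ≤ g := Finset.card_pos.2 hC0.2.2
    have hgmin : ∀ C, Circ C → C ⊆ X → C.Nonempty → g ≤ C.card := fun C h1 h2 h3 =>
      hmin C (Finset.mem_filter.2 ⟨Finset.mem_powerset.2 h2, h1, h3⟩)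
    set N := X.card with hN
    have hgN : g ≤ N := Finset.card_le_card hC0.1
    by_contra hcon
    have hbig : 3 * E * L * N < g * nu := by
      by_contra h1
      push Not at h1
      exact hcon ⟨C0, hC0.2.1, hC0.1, hC0.2.2, h1⟩
    -- `nu` is large
    have hL1 : 1 ≤ L := by omega
    have hnu3 : 3 < nu := by
      by_contra h1
      push Not at h1
      have h2 : g * nu ≤ N * 3 := Nat.mul_le_mul hgN h1
      have h3 : N * 3 ≤ 3 * E * L * N := by
        have h4 : 1 ≤ E * L := Nat.mul_pos hE1 hL1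
        calc N * 3 = 3 * 1 * N := by ring
          _ ≤ 3 * (E * L) * N := Nat.mul_le_mul_right _ (Nat.mul_le_mul_left _ h4)
          _ = 3 * E * L * N := by ring
      omega
    set FF := X.powerset.filter fun C => Circ C ∧ C.Nonempty ∧ C.card < 2 * g with hFF
    have hFF' : ∀ C ∈ FF, Circ C ∧ C ⊆ X ∧ C.Nonempty ∧ C.card < 2 * g := by
      intro C hC
      rw [hFF, Finset.mem_filter, Finset.mem_powerset] at hC
      exact ⟨hC.2.1, hC.1, hC.2.2.1, hC.2.2.2⟩
    have hcardFF := h.lemD hlam hD hg1 hgmin FF hFF'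
    have hFFb : FF.card ≤ 2 ^ (E * L) := by
      refine hcardFF.trans ?_
      have h1 : lam * n X + 1 ≤ 2 ^ ((a + 1) * L) := by
        rw [hnX]
        have h2 : nu < 2 ^ L := by
          rw [hL, add_comm]
          exact Nat.lt_pow_succ_log_self (by norm_num) nu
        calc lam * nu + 1 ≤ (lam + 1) * nu := by
              have : (lam + 1) * nu = lam * nu + nu := by ring
              omega
          _ ≤ 2 ^ a * 2 ^ L := Nat.mul_le_mul ha h2.le
          _ = 2 ^ (a + L) := (pow_add 2 a L).symm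
          _ ≤ 2 ^ ((a + 1) * L) := by
              refine Nat.pow_le_pow_right (by norm_num) ?_
              have h3 : a * 1 ≤ a * L := Nat.mul_le_mul_left _ hL1
              have h4 : (a + 1) * L = a * L + L := by ring
              omega
      calc (lam * n X + 1) ^ D ≤ (2 ^ ((a + 1) * L)) ^ D := Nat.pow_le_pow_left h1 _
        _ = 2 ^ (E * L) := by
            rw [← pow_mul, hE]
            congr 1
            ring
    obtain ⟨Y, hYX, hYk, hY⟩ := greedy hg1 FF (fun C hC => ⟨(hFF' C hC).2.1,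
      hgmin C (hFF' C hC).1 (hFF' C hC).2.1 (hFF' C hC).2.2.1⟩) (nu / 2)
    -- every short circuit meets `Y`
    have hhit : ∀ C ∈ FF, ¬ Disjoint C Y := by
      intro C hC hdis
      have h1 : 1 ≤ (FF.filter fun C => Disjoint C Y).card :=
        Finset.card_pos.2 ⟨C, Finset.mem_filter.2 ⟨hC, hdis⟩⟩
      have h2 : N ^ (nu / 2) ≤ 2 ^ (E * L) * (N - g) ^ (nu / 2) := by
        calc N ^ (nu / 2) = 1 * N ^ (nu / 2) := by ring
          _ ≤ (FF.filter fun C => Disjoint C Y).card * N ^ (nu / 2) := Nat.mul_le_mul_right _ h1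
          _ ≤ FF.card * (N - g) ^ (nu / 2) := hY
          _ ≤ 2 ^ (E * L) * (N - g) ^ (nu / 2) := Nat.mul_le_mul_right _ hFFb
      exact num_contra hgN (hg1.trans hgN) (by omega) hbig h2
    have hdrop := h.drop Y X
    obtain ⟨X2, hX2, hnX2⟩ := h.exists_val (X \ Y).card (X \ Y) rfl (nu - nu / 2) (by omega)
    have hX2X : X2 ⊆ X := hX2.trans Finset.sdiff_subset
    obtain ⟨C2, hC2, hC2X, hC2ne, hC2b⟩ := ih (nu - nu / 2) (by omega) X2 hnX2 (by omega)
    have hC2card : 2 * g ≤ C2.card := by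
      by_contra h1
      push Not at h1
      have h2 : C2 ∈ FF := by
        rw [hFF, Finset.mem_filter, Finset.mem_powerset]
        exact ⟨hC2X.trans hX2X, hC2, hC2ne, h1⟩
      refine hhit C2 h2 ?_
      rw [Finset.disjoint_left]
      intro x hx hxY
      have := hX2 (hC2X hx)
      rw [Finset.mem_sdiff] at this
      exact this.2 hxY
    have hlog : Nat.log 2 (nu - nu / 2) ≤ Nat.log 2 nu := Nat.log_mono_right (by omega)
    have h1 : g * nu ≤ C2.card * (nu - nu / 2) := by
      calc g * nu ≤ g * (2 * (nu - nu / 2)) := Nat.mul_le_mul_left _ (by omega)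
        _ = 2 * g * (nu - nu / 2) := by ring
        _ ≤ C2.card * (nu - nu / 2) := Nat.mul_le_mul_right _ hC2card
    have h2 : 3 * E * (1 + Nat.log 2 (nu - nu / 2)) * X2.card ≤ 3 * E * L * N := by
      refine Nat.mul_le_mul (Nat.mul_le_mul_left _ ?_) (Finset.card_le_card hX2X)
      omega
    have h3 := h1.trans (hC2b.trans h2)
    omega

end H82

/-- MODULE A (abstract girth theorem).  -/
theorem abstract_girth (lam : ℕ) : ∃ K : ℕ, ∀ (α : Type) [DecidableEq α] (n : Finset α → ℕ)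
    (Circ : Finset α → Prop),
    n ∅ = 0 →
    (∀ X : Finset α, ∀ x ∈ X, n X ≤ n (X.erase x) + 1) →
    (∀ X : Finset α, ∀ x ∈ X, n (X.erase x) ≤ n X) →
    (∀ X : Finset α, ∀ x ∈ X, (n (X.erase x) < n X ↔ ∃ C, Circ C ∧ x ∈ C ∧ C ⊆ X)) →
    (∀ X T : Finset α, T ⊆ X → (∀ t ∈ T, ∃ C, Circ C ∧ C ⊆ X ∧ t ∈ C) →
      (∀ s ∈ T, ∀ t ∈ T, s ≠ t → ∃ C, Circ C ∧ C ⊆ X ∧ ¬ (s ∈ C ↔ t ∈ C)) →
      T.card ≤ lam * n X) →
    ∀ X : Finset α, 1 ≤ n X →
      ∃ C, Circ C ∧ C ⊆ X ∧ C.card * n X ≤ K * (1 + Nat.log 2 (n X)) * X.card := by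
  obtain ⟨m, hm⟩ := H82.exists_m0 (lam + 1)
  obtain ⟨a, ha⟩ : ∃ a, lam + 1 + 1 ≤ 2 ^ a := ⟨lam + 1 + 1, Nat.lt_two_pow_self.le⟩
  refine ⟨3 * (2 ^ m * (a + 1)), ?_⟩
  intro α _ n Circ h0 h1 h2 h3 h4 X hX
  have hNS : H82.NS (lam + 1) n Circ := (H82.NS.mk h0 h1 h2 h3 h4).mono_lam (Nat.le_succ lam)
  obtain ⟨C, hC, hCX, _, hb⟩ := hNS.lemF (D := 2 ^ m) (a := a) (by omega) ⟨m, rfl, hm⟩ ha
    (n X) X rfl hX
  exact ⟨C, hC, hCX, hb⟩

end Pool.Agent.Lib.MP_71775e_co
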