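import Mathlib

/-!
# Natarajan's lemma (a Sauer-Shelah lemma for families of functions)
-/

set_option autoImplicit false

namespace Pool.Agent.Lib.MP_71775e_co

private theorem nat_split {K : Type} [Fintype K] [DecidableEq K] {k : ℕ}
    (L : Finset (Fin (k + 1) → K)) :
    L.card ≤ (L.image (Fin.tail (α := fun _ => K))).card +
      ∑ p ∈ (Finset.univ : Finset K).offDiag, ((L.image (Fin.tail (α := fun _ => K))).filter
        (fun c' => (Fin.cons p.1 c' : Fin (k + 1) → K) ∈ L ∧
          (Fin.cons p.2 c' : Fin (k + 1) → K) ∈ L)).card := by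
  classical
  set L' := L.image (Fin.tail (α := fun _ => K)) with hL'
  have hr : ∀ c' ∈ L', ∃ a : K, (Fin.cons a c' : Fin (k + 1) → K) ∈ L := by
    intro c' hc'
    obtain ⟨c, hc, rfl⟩ := Finset.mem_image.1 hc'
    exact ⟨c 0, by rwa [Fin.cons_self_tail]⟩
  rcases L.eq_empty_or_nonempty with rfl | ⟨c0, hc0⟩
  · simp
  let r : (Fin k → K) → K := fun c' => if h : c' ∈ L' then (hr c' h).choose else c0 0
  have hrL : ∀ c' ∈ L', (Fin.cons (r c') c' : Fin (k + 1) → K) ∈ L := by
    intro c' hc'
    have := (hr c' hc').choose_spec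
    simp only [r, hc', dif_pos]
    exact this
  have hsub : L ⊆ L'.image (fun c' => (Fin.cons (r c') c' : Fin (k + 1) → K)) ∪
      ((Finset.univ : Finset K).offDiag).biUnion (fun p => (L'.filter
        (fun c' => (Fin.cons p.1 c' : Fin (k + 1) → K) ∈ L ∧
          (Fin.cons p.2 c' : Fin (k + 1) → K) ∈ L)).image
            (fun c' => (Fin.cons p.2 c' : Fin (k + 1) → K))) := by
    intro c hc
    have hc' : Fin.tail c ∈ L' := Finset.mem_image_of_mem _ hc
    rw [Finset.mem_union]
    by_cases h : c 0 = r (Fin.tail c)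
    · left
      rw [Finset.mem_image]
      refine ⟨Fin.tail c, hc', ?_⟩
      rw [← h, Fin.cons_self_tail]
    · right
      rw [Finset.mem_biUnion]
      refine ⟨(r (Fin.tail c), c 0), by simp [Finset.mem_offDiag, Ne.symm h], ?_⟩
      rw [Finset.mem_image]
      refine ⟨Fin.tail c, ?_, by rw [Fin.cons_self_tail]⟩
      rw [Finset.mem_filter]
      refine ⟨hc', hrL _ hc', ?_⟩
      rwa [Fin.cons_self_tail]
  refine le_trans (Finset.card_le_card hsub) (le_trans (Finset.card_union_le _ _) ?_)
  refine add_le_add Finset.card_image_le (le_trans Finset.card_biUnion_le ?_)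
  exact Finset.sum_le_sum fun p _ => Finset.card_image_le

/-- MODULE N (Natarajan lemma). -/
theorem natarajan (K : Type) [Fintype K] [DecidableEq K] (k d : ℕ) (L : Finset (Fin k → K))
    (h : (k * Fintype.card K ^ 2 + 1) ^ d < L.card) :
    ∃ (A0 : Finset (Fin k)) (g0 g1 : Fin k → K), d < A0.card ∧ (∀ i ∈ A0, g0 i ≠ g1 i) ∧
      ∀ J : Finset (Fin k), J ⊆ A0 → ∃ c ∈ L, ∀ i ∈ A0, c i = if i ∈ J then g1 i else g0 i := by
  classical
  induction k generalizing d with
  | zero =>
    exfalso
    have h1 : L.card ≤ 1 := Finset.card_le_one_of_subsingleton L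
    simp at h
    omega
  | succ k ih =>
    obtain ⟨c0, hc0⟩ : L.Nonempty := Finset.card_pos.1 (lt_of_le_of_lt (Nat.zero_le _) h)
    set q := Fintype.card K with hq
    set L' := L.image (Fin.tail (α := fun _ => K)) with hL'
    have hsplit := nat_split L
    rw [← hL'] at hsplit
    -- lifting a configuration from a family of pairs
    have hpair : ∀ (a b : K) (e : ℕ), a ≠ b → (k * q ^ 2 + 1) ^ e < (L'.filter
        (fun c' => (Fin.cons a c' : Fin (k + 1) → K) ∈ L ∧
          (Fin.cons b c' : Fin (k + 1) → K) ∈ L)).card →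
        ∃ (A0 : Finset (Fin (k + 1))) (g0 g1 : Fin (k + 1) → K), e + 1 < A0.card ∧
          (∀ i ∈ A0, g0 i ≠ g1 i) ∧ ∀ J : Finset (Fin (k + 1)), J ⊆ A0 →
            ∃ c ∈ L, ∀ i ∈ A0, c i = if i ∈ J then g1 i else g0 i := by
      intro a b e hab hcard
      obtain ⟨A1, g0, g1, h1, h2, h3⟩ := ih e _ hcard
      refine ⟨insert 0 (A1.map (Fin.succEmb k)), Fin.cons a g0, Fin.cons b g1, ?_, ?_, ?_⟩
      · rw [Finset.card_insert_of_notMem, Finset.card_map]
        · omega
        · simp [Fin.succ_ne_zero]
      · intro i hi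
        rcases Finset.mem_insert.1 hi with rfl | hi
        · simpa using hab
        · obtain ⟨j, hj, rfl⟩ := Finset.mem_map.1 hi
          simpa using h2 j hj
      · intro J hJ
        obtain ⟨c', hc', hc''⟩ := h3 (A1.filter (fun i => i.succ ∈ J)) (Finset.filter_subset _ _)
        have hcL := (Finset.mem_filter.1 hc').2
        refine ⟨Fin.cons (if 0 ∈ J then b else a) c', ?_, ?_⟩
        · split_ifs
          · exact hcL.2
          · exact hcL.1
        · intro i hi
          rcases Finset.mem_insert.1 hi with rfl | hi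
          · simp
          · obtain ⟨j, hj, rfl⟩ := Finset.mem_map.1 hi
            have := hc'' j hj
            simp only [Finset.mem_filter, hj, true_and] at this
            simpa using this
    by_cases hbig : (k * q ^ 2 + 1) ^ d < L'.card
    · obtain ⟨A1, g0, g1, h1, h2, h3⟩ := ih d _ hbig
      refine ⟨A1.map (Fin.succEmb k), Fin.cons (c0 0) g0, Fin.cons (c0 0) g1, ?_, ?_, ?_⟩
      · rwa [Finset.card_map]
      · intro i hi
        obtain ⟨j, hj, rfl⟩ := Finset.mem_map.1 hi
        simpa using h2 j hj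
      · intro J hJ
        obtain ⟨c', hc', hc''⟩ := h3 (A1.filter (fun i => i.succ ∈ J)) (Finset.filter_subset _ _)
        obtain ⟨c, hc, rfl⟩ := Finset.mem_image.1 hc'
        refine ⟨c, hc, ?_⟩
        intro i hi
        obtain ⟨j, hj, rfl⟩ := Finset.mem_map.1 hi
        have := hc'' j hj
        simp only [Finset.mem_filter, hj, true_and] at this
        simpa [Fin.tail] using this
    · push Not at hbig
      rcases d with _ | d
      · -- some pair is nonempty
        have h4 : 0 < ∑ p ∈ (Finset.univ : Finset K).offDiag, (L'.filter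
          (fun c' => (Fin.cons p.1 c' : Fin (k + 1) → K) ∈ L ∧
            (Fin.cons p.2 c' : Fin (k + 1) → K) ∈ L)).card := by
          simp only [pow_zero] at h hbig
          omega
        obtain ⟨p, hp, hp'⟩ := Finset.sum_pos_iff.1 h4
        obtain ⟨c', hc'⟩ := Finset.card_pos.1 hp'
        have hcL := (Finset.mem_filter.1 hc').2
        rw [Finset.mem_offDiag] at hp
        refine ⟨{0}, Fin.cons p.1 c', Fin.cons p.2 c', by simp, ?_, ?_⟩
        · intro i hi
          rw [Finset.mem_singleton] at hi
          subst hi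
          simpa using hp.2.2
        · intro J hJ
          refine ⟨Fin.cons (if 0 ∈ J then p.2 else p.1) c', ?_, ?_⟩
          · split_ifs
            · exact hcL.2
            · exact hcL.1
          · intro i hi
            rw [Finset.mem_singleton] at hi
            subst hi
            simp
      · by_contra hcon
        have h5 : ∀ p ∈ (Finset.univ : Finset K).offDiag, (L'.filter
          (fun c' => (Fin.cons p.1 c' : Fin (k + 1) → K) ∈ L ∧
            (Fin.cons p.2 c' : Fin (k + 1) → K) ∈ L)).card ≤ (k * q ^ 2 + 1) ^ d := by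
          intro p hp
          by_contra hlt
          push Not at hlt
          rw [Finset.mem_offDiag] at hp
          exact hcon (hpair p.1 p.2 d hp.2.2 hlt)
        have h6 := Finset.sum_le_card_nsmul _ _ _ h5
        rw [smul_eq_mul, Finset.offDiag_card, Finset.card_univ, ← hq] at h6
        have h7 : (q * q - q) * (k * q ^ 2 + 1) ^ d ≤ q ^ 2 * (k * q ^ 2 + 1) ^ d :=
          Nat.mul_le_mul_right _ (by rw [pow_two]; exact Nat.sub_le _ _)
        have h8 : ((k + 1) * q ^ 2 + 1) ^ (d + 1) ≥
            (k * q ^ 2 + 1) ^ d * ((k + 1) * q ^ 2 + 1) := by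
          rw [pow_succ]
          refine Nat.mul_le_mul_right _ (Nat.pow_le_pow_left ?_ d)
          nlinarith [Nat.zero_le (q ^ 2)]
        have h9 : (k * q ^ 2 + 1) ^ (d + 1) = (k * q ^ 2 + 1) ^ d * (k * q ^ 2 + 1) := pow_succ _ _
        have h10 : (k * q ^ 2 + 1) ^ d * ((k + 1) * q ^ 2 + 1) =
            (k * q ^ 2 + 1) ^ d * (k * q ^ 2 + 1) + q ^ 2 * (k * q ^ 2 + 1) ^ d := by ring
        omega

end Pool.Agent.Lib.MP_71775e_co
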