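import Mathlib
import Pool.Agent.Lib.MP_71775e_co.H15Defs
import Pool.Agent.Lib.MP_71775e_co.H90_Natarajan

/-!
# A shattered set of large dimension gives a clique minor
-/

set_option autoImplicit false

namespace Pool.Agent.Lib.MP_71775e_co

private theorem exists_k (q d : ℕ) : ∃ k : ℕ, (k * q ^ 2 + 1) ^ d < 2 ^ k := by
  rcases d with _ | d
  · exact ⟨1, by simp⟩
  · set D := d + 1 with hD
    set M := D * q ^ 2 + 1 with hM
    refine ⟨D * (4 * M), ?_⟩
    have h1 : D * (4 * M) * q ^ 2 + 1 < 2 ^ (4 * M) := by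
      have h2 : D * (4 * M) * q ^ 2 + 1 ≤ (2 * M) ^ 2 := by
        have : (2 * M) ^ 2 = D * (4 * M) * q ^ 2 + 4 * M := by
          rw [hM]; ring
        rw [this]
        omega
      have h3 : 2 * M < 2 ^ (2 * M) := Nat.lt_two_pow_self
      calc D * (4 * M) * q ^ 2 + 1 ≤ (2 * M) ^ 2 := h2
        _ < (2 ^ (2 * M)) ^ 2 := Nat.pow_lt_pow_left h3 (by norm_num)
        _ = 2 ^ (4 * M) := by rw [← pow_mul]; congr 1; ring
    calc (D * (4 * M) * q ^ 2 + 1) ^ D < (2 ^ (4 * M)) ^ D :=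
          Nat.pow_lt_pow_left h1 (by omega)
      _ = 2 ^ (D * (4 * M)) := by rw [← pow_mul]; congr 1; ring

private theorem exists_functional {F : Type} [Field F] {V : Type} [AddCommGroup V] [Module F V]
    {ι : Type} (w : ι → V) (hw : LinearIndependent F w) (a : ι → F) :
    ∃ g : V →ₗ[F] F, ∀ i, g (w i) = a i := by
  let b := Module.Basis.span hw
  obtain ⟨g, hg⟩ := LinearMap.exists_extend (b.constr F a)
  refine ⟨g, fun i => ?_⟩
  have h1 : g (w i) = (g ∘ₗ (Submodule.span F (Set.range w)).subtype) (b i) := by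
    rw [LinearMap.comp_apply, Submodule.subtype_apply, Module.Basis.span_apply]
  rw [h1, hg, Module.Basis.constr_basis]

/-- MODULE S (uses natarajan). -/
theorem shat_clique (F : Type) [Field F] [Fintype F] (n : ℕ) :
    ∃ k : ℕ, ∀ (V : Type) [AddCommGroup V] [Module F V] [Finite V] (A Y R : Set V)
      (f : V →ₗ[F] F), LabelSet F A → Y ⊆ A → R ⊆ A → (∀ y ∈ Y, f y = 0) → (∀ r ∈ R, f r = 1) →
      Shat F k Y R → CliqueMinor F n A := by
  classical
  obtain ⟨k, hk⟩ := exists_k (Fintype.card F) (n + n * n)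
  refine ⟨k, ?_⟩
  intro V _ _ _ A Y R f hA hYA hRA hfY hfR hS
  obtain ⟨m, x, y, hx, hy, hind, v, L, hL, hLR⟩ := hS
  obtain ⟨A0, g0, g1, hA0, hg, hJ⟩ := natarajan F k (n + n * n) L (lt_of_lt_of_le hk hL)
  -- the injection
  obtain ⟨j⟩ : Nonempty ((Fin n ⊕ (Fin n × Fin n)) ↪ A0) := by
    apply Function.Embedding.nonempty_of_card_le
    simp only [Fintype.card_sum, Fintype.card_prod, Fintype.card_fin, Fintype.card_coe]
    exact hA0.le
  let jj : Fin n ⊕ (Fin n × Fin n) → Fin k := fun s => (j s : Fin k)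
  have jj_inj : Function.Injective jj := fun a b h => j.injective (Subtype.ext h)
  have jj_mem : ∀ s, jj s ∈ A0 := fun s => (j s).2
  let w : Fin k → V := fun i => (g1 i - g0 i) • y i
  set P : Submodule F V := Submodule.span F (Set.range x ∪ y '' {i | i ∉ A0}) with hP
  have hxP : Submodule.span F (Set.range x) ≤ P := Submodule.span_mono Set.subset_union_left
  have hyP : ∀ i, i ∉ A0 → y i ∈ P := fun i hi =>
    Submodule.subset_span (Or.inr ⟨i, hi, rfl⟩)
  obtain ⟨c0, hc0L, hc0⟩ := hJ ∅ (Finset.empty_subset _)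
  obtain ⟨r0, hr0R, hr0⟩ := hLR c0 hc0L
  have hdiff : ∀ J : Finset (Fin k), J ⊆ A0 → ∃ r ∈ R, (r - r0) - ∑ i ∈ J, w i ∈ P := by
    intro J hJA
    obtain ⟨c, hcL, hc⟩ := hJ J hJA
    obtain ⟨r, hrR, hr⟩ := hLR c hcL
    refine ⟨r, hrR, ?_⟩
    have e1 : (r - r0) - ∑ i ∈ J, w i =
        ((v + ∑ i, c0 i • y i) - r0) - ((v + ∑ i, c i • y i) - r) +
          (∑ i, (c i - c0 i) • y i - ∑ i ∈ J, w i) := by
      simp only [sub_smul, Finset.sum_sub_distrib]
      abel
    rw [e1]
    refine P.add_mem (P.sub_mem (hxP hr0) (hxP hr)) ?_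
    have e2 : ∑ i ∈ J, w i = ∑ i, if i ∈ J then w i else 0 := by
      rw [Finset.sum_ite_mem, Finset.univ_inter]
    rw [e2, ← Finset.sum_sub_distrib]
    refine P.sum_mem fun i _ => ?_
    by_cases hi : i ∈ A0
    · rw [hc i hi, hc0 i hi]
      by_cases hiJ : i ∈ J
      · simp [hiJ, w]
      · simp [hiJ]
    · have hiJ : i ∉ J := fun h => hi (hJA h)
      simp only [hiJ, if_false, sub_zero]
      exact P.smul_mem _ (hyP i hi)
  have hne1 : ∀ a a' b : Fin n, jj (Sum.inl a) ≠ jj (Sum.inr (a', b)) := fun a a' b h => by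
    have := jj_inj h
    simp at this
  have hsubJ : ∀ s s', ({jj s, jj s'} : Finset (Fin k)) ⊆ A0 := by
    intro s s' i hi
    rcases Finset.mem_insert.1 hi with rfl | hi
    · exact jj_mem s
    · rw [Finset.mem_singleton.1 hi]
      exact jj_mem s'
  have h1 : ∀ p : Fin n × Fin n, ∃ r ∈ R,
      (r - r0) - (w (jj (Sum.inl p.1)) + w (jj (Sum.inr p))) ∈ P := by
    intro p
    obtain ⟨r, hr, hr'⟩ := hdiff {jj (Sum.inl p.1), jj (Sum.inr p)} (hsubJ _ _)
    rw [Finset.sum_pair (hne1 _ _ _)] at hr'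
    exact ⟨r, hr, hr'⟩
  have h2 : ∀ p : Fin n × Fin n, ∃ r ∈ R,
      (r - r0) - (w (jj (Sum.inl p.2)) + w (jj (Sum.inr p))) ∈ P := by
    intro p
    obtain ⟨r, hr, hr'⟩ := hdiff {jj (Sum.inl p.2), jj (Sum.inr p)} (hsubJ _ _)
    rw [Finset.sum_pair (hne1 _ _ _)] at hr'
    exact ⟨r, hr, hr'⟩
  choose r1 hr1R hr1 using h1
  choose r2 hr2R hr2 using h2
  set X : Set V := (Set.range x ∪ y '' {i | i ∉ A0}) ∪ ({r0} ∪ Set.range r1) with hX
  have hPX : P ≤ Submodule.span F X := Submodule.span_mono Set.subset_union_left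
  refine ⟨X, ?_, fun a => w (jj (Sum.inl a)), ?_, ?_⟩
  · rintro z ((⟨i, rfl⟩ | ⟨i, -, rfl⟩) | (hz | ⟨p, rfl⟩))
    · exact hYA (hx i)
    · exact hYA (hy i)
    · rw [Set.mem_singleton_iff.1 hz]
      exact hRA hr0R
    · exact hRA (hr1R p)
  · -- independence
    intro c hc
    funext a
    have hli : LinearIndependent F (Sum.elim x y) := by
      rw [Fintype.linearIndependent_iff]
      intro g hg'
      rw [Fintype.sum_sum_type] at hg'
      simp only [Sum.elim_inl, Sum.elim_inr] at hg'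
      obtain ⟨ha, hb⟩ := hind _ _ hg'
      rintro (i | i)
      · exact congrFun ha i
      · exact congrFun hb i
    let τ : Fin k → F := fun i => if i = jj (Sum.inl a) then 1 else
      if ∃ b, i = jj (Sum.inr (a, b)) then -1 else 0
    obtain ⟨φ, hφ⟩ := exists_functional _ hli
      (Sum.elim (fun _ => 0) (fun i => if i ∈ A0 then τ i / (g1 i - g0 i) else 0))
    have hφx : ∀ i, φ (x i) = 0 := fun i => by simpa using hφ (Sum.inl i)
    have hφy : ∀ i, φ (y i) = if i ∈ A0 then τ i / (g1 i - g0 i) else 0 :=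
      fun i => by simpa using hφ (Sum.inr i)
    let ψ : V →ₗ[F] F := φ - φ r0 • f
    have hψ : ∀ z, ψ z = φ z - φ r0 * f z := fun z => by simp [ψ]
    have hψP : ∀ z ∈ P, ψ z = 0 := by
      intro z hz
      have : P ≤ LinearMap.ker ψ := by
        rw [hP, Submodule.span_le]
        rintro z (⟨i, rfl⟩ | ⟨i, hi, rfl⟩)
        · rw [SetLike.mem_coe, LinearMap.mem_ker, hψ, hφx, hfY _ (hx i)]
          ring
        · have hi' : i ∉ A0 := hi
          rw [SetLike.mem_coe, LinearMap.mem_ker, hψ, hφy, hfY _ (hy i), if_neg hi']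
          ring
      exact this hz
    have hψw : ∀ i ∈ A0, ψ (w i) = τ i := by
      intro i hi
      have hne : g1 i - g0 i ≠ 0 := sub_ne_zero.2 (hg i hi).symm
      simp only [w, map_smul, smul_eq_mul]
      rw [hψ, hφy, hfY _ (hy i), if_pos hi]
      field_simp
      ring
    have hψ0 : ψ r0 = 0 := by rw [hψ, hfR r0 hr0R]; ring
    have hτl : ∀ b, τ (jj (Sum.inl b)) = if b = a then 1 else 0 := by
      intro b
      simp only [τ]
      by_cases hb : b = a
      · simp [hb]
      · have e1 : jj (Sum.inl b) ≠ jj (Sum.inl a) := fun h => hb (by simpa using jj_inj h)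
        have e2 : ¬ ∃ b', jj (Sum.inl b) = jj (Sum.inr (a, b')) := by
          rintro ⟨b', h⟩
          exact hne1 _ _ _ h
        simp [e1, e2, hb]
    have hτr : ∀ p : Fin n × Fin n, τ (jj (Sum.inr p)) = if p.1 = a then -1 else 0 := by
      rintro ⟨b, b'⟩
      simp only [τ]
      rw [if_neg (Ne.symm (hne1 a b b'))]
      by_cases hb : b = a
      · rw [if_pos ⟨b', by rw [hb]⟩, if_pos hb]
      · rw [if_neg, if_neg hb]
        rintro ⟨b'', h⟩
        have := jj_inj h
        simp at this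
        exact hb this.1
    have hψ1 : ∀ p, ψ (r1 p) = 0 := by
      intro p
      have e1 := hψP _ (hr1 p)
      rw [map_sub, map_sub, map_add, hψ0, hψw _ (jj_mem _), hψw _ (jj_mem _), hτl, hτr] at e1
      by_cases hb : p.1 = a
      · simpa [hb] using e1
      · simpa [hb] using e1
    have hψX : Submodule.span F X ≤ LinearMap.ker ψ := by
      rw [Submodule.span_le]
      rintro z (hz | (hz | ⟨p, rfl⟩))
      · exact hψP z (Submodule.subset_span hz)
      · rw [Set.mem_singleton_iff.1 hz]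
        exact hψ0
      · exact hψ1 p
    have h3 : ψ (∑ b, c b • w (jj (Sum.inl b))) = 0 := hψX hc
    rw [map_sum] at h3
    simp only [map_smul, hψw _ (jj_mem _), hτl, smul_eq_mul, mul_ite, mul_one, mul_zero,
      Finset.sum_ite_eq', Finset.mem_univ, if_true] at h3
    rw [h3]
    rfl
  · intro a b hab
    refine ⟨-r2 (a, b), ?_, ?_⟩
    · have := hA.2 _ (hRA (hr2R (a, b))) (-1) (by simp)
      simpa using this
    · have e1 : -r2 (a, b) - (w (jj (Sum.inl a)) - w (jj (Sum.inl b))) =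
          ((r1 (a, b) - r0) - (w (jj (Sum.inl a)) + w (jj (Sum.inr (a, b))))) -
            ((r2 (a, b) - r0) - (w (jj (Sum.inl b)) + w (jj (Sum.inr (a, b))))) -
              r1 (a, b) := by abel
      rw [e1]
      refine Submodule.sub_mem _ (Submodule.sub_mem _ (hPX (hr1 (a, b))) (hPX (hr2 (a, b)))) ?_
      exact Submodule.subset_span (Or.inr (Or.inr ⟨(a, b), rfl⟩))

end Pool.Agent.Lib.MP_71775e_co
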