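import Mathlib
import Pool.Agent.Lib.MP_71775e_co.H15Defs
import Pool.Agent.Lib.MP_71775e_co.H15Stage
import Pool.Agent.Lib.MP_71775e_co.H15Dens
import Pool.Agent.Lib.MP_71775e_co.H15Minor
import Pool.Agent.Lib.MP_71775e_co.H68_D
import Pool.Agent.Lib.MP_71775e_co.H82_A
import Pool.Agent.Lib.MP_71775e_co.H90_ShatClique

/-!
Final assembly: logarithmic girth of cosimple matroids without an `M(K_n)*` minor.
-/

set_option autoImplicit false

open Matroid

namespace Pool.Agent.Lib.MP_71775e_co

open Finset Classical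

/-- the density theorem. -/
theorem density (F : Type) [Field F] [Fintype F] (n : ℕ) :
    ∃ lam : ℕ, ∀ (V : Type) [AddCommGroup V] [Module F V] [Finite V] (A : Set V),
      LabelSet F A → lam * Module.finrank F V < Nat.card A → CliqueMinor F n A :=
  density_of F n (stage_of_dense F n (dense_clique F n)) (shat_clique F n)

section

variable {F : Type} [Field F] {α : Type} [Fintype α] {m : ℕ}

/-- the nullity. -/
noncomputable def nul (v : α → (Fin m → F)) (M : Matroid α) (X : Finset α) : ℕ :=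
  Module.finrank F (Rel F v ((X : Set α) ∩ M.E))

theorem nul_empty (v : α → (Fin m → F)) (M : Matroid α) : nul v M ∅ = 0 := by
  unfold nul
  have h : Rel F v (((∅ : Finset α) : Set α) ∩ M.E) = ⊥ := by
    rw [eq_bot_iff]
    rintro c ⟨h1, _⟩
    rw [Submodule.mem_bot]
    funext x
    exact h1 x (by simp)
  rw [h]
  exact finrank_bot F _

theorem rel_erase_le (v : α → (Fin m → F)) (M : Matroid α) (X : Finset α) (x : α) :
    Rel F v (((X.erase x : Finset α) : Set α) ∩ M.E) ≤ Rel F v ((X : Set α) ∩ M.E) :=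
  Rel_mono v (Set.inter_subset_inter_left _ (by
    rw [Finset.coe_erase]; exact Set.sdiff_subset))

theorem nul_erase_le (v : α → (Fin m → F)) (M : Matroid α) (X : Finset α) (x : α) :
    nul v M (X.erase x) ≤ nul v M X :=
  Submodule.finrank_mono (rel_erase_le v M X x)

theorem mem_rel_erase (v : α → (Fin m → F)) (M : Matroid α) (X : Finset α) (x : α) (c : α → F)
    (hc : c ∈ Rel F v ((X : Set α) ∩ M.E)) (hx : c x = 0) :
    c ∈ Rel F v (((X.erase x : Finset α) : Set α) ∩ M.E) := by
  refine ⟨?_, hc.2⟩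
  intro y hy
  by_cases hyx : y = x
  · rw [hyx]; exact hx
  · apply hc.1
    rintro ⟨h1, h2⟩
    exact hy ⟨by rw [Finset.coe_erase]; exact ⟨h1, hyx⟩, h2⟩

theorem nul_le_erase (v : α → (Fin m → F)) (M : Matroid α) (X : Finset α) (x : α) :
    nul v M X ≤ nul v M (X.erase x) + 1 := by
  unfold nul
  set P := Rel F v ((X : Set α) ∩ M.E) with hP
  have h1 := LinearMap.finrank_range_add_finrank_ker (ev P x)
  have h2 : Module.finrank F (LinearMap.range (ev P x)) ≤ 1 := by
    have := Submodule.finrank_le (LinearMap.range (ev P x))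
    rwa [Module.finrank_self] at this
  have h3 : Module.finrank F (LinearMap.ker (ev P x)) ≤
      Module.finrank F (Rel F v (((X.erase x : Finset α) : Set α) ∩ M.E)) := by
    have h4 : (LinearMap.ker (ev P x)).map P.subtype ≤
        Rel F v (((X.erase x : Finset α) : Set α) ∩ M.E) := by
      rintro _ ⟨c, hc, rfl⟩
      exact mem_rel_erase v M X x c c.2 hc
    have h5 := Submodule.finrank_map_subtype_eq P (LinearMap.ker (ev P x))
    rw [← h5]
    exact Submodule.finrank_mono h4
  omega

theorem nul_lt_iff (v : α → (Fin m → F)) (M : Matroid α)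
    (hM : ∀ I : Set α, M.Indep I ↔ (I ⊆ M.E ∧ LinearIndependent F (fun x : I => v x)))
    (X : Finset α) (x : α) :
    nul v M (X.erase x) < nul v M X ↔ ∃ C : Finset α, M.IsCircuit (C : Set α) ∧ x ∈ C ∧ C ⊆ X := by
  constructor
  · intro h
    have h1 : ∃ c ∈ Rel F v ((X : Set α) ∩ M.E), c x ≠ 0 := by
      by_contra hcon
      push Not at hcon
      have h2 : Rel F v ((X : Set α) ∩ M.E) ≤ Rel F v (((X.erase x : Finset α) : Set α) ∩ M.E) :=
        fun c hc => mem_rel_erase v M X x c hc (hcon c hc)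
      exact absurd h (not_lt.mpr (Submodule.finrank_mono h2))
    obtain ⟨c, hc, hcx⟩ := h1
    obtain ⟨C, hC, hxC, hCX⟩ := rel_circuit F v M hM ((X : Set α) ∩ M.E) Set.inter_subset_right
      c hc x hcx
    refine ⟨C.toFinset, by rw [Set.coe_toFinset]; exact hC, Set.mem_toFinset.mpr hxC, ?_⟩
    intro y hy
    exact Finset.mem_coe.mp (hCX (Set.mem_toFinset.mp hy)).1
  · rintro ⟨C, hC, hxC, hCX⟩
    obtain ⟨c, hc, hc0⟩ := circuit_rel F v M hM C hC
    apply Submodule.finrank_lt_finrank_of_lt
    refine lt_of_le_of_ne (rel_erase_le v M X x) ?_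
    intro heq
    have h1 : c ∈ Rel F v ((X : Set α) ∩ M.E) :=
      Rel_mono v (Set.subset_inter (Finset.coe_subset.mpr hCX) hC.subset_ground) hc
    rw [← heq] at h1
    have h2 := h1.1 x (by
      rintro ⟨h3, _⟩
      rw [Finset.coe_erase] at h3
      exact h3.2 rfl)
    exact hc0 x (Finset.mem_coe.mpr hxC) h2

theorem nul_base (v : α → (Fin m → F)) (M : Matroid α)
    (hM : ∀ I : Set α, M.Indep I ↔ (I ⊆ M.E ∧ LinearIndependent F (fun x : I => v x)))
    (B : Set α) (hB : M.IsBase B) (T : Finset α) (hT : ∀ x ∈ T, x ∈ M.E ∧ x ∉ B) :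
    nul v M (B.toFinset ∪ T) = T.card := by
  induction T using Finset.induction_on with
  | empty =>
    simp only [Finset.union_empty, Finset.card_empty]
    unfold nul
    have h : Rel F v ((B.toFinset : Set α) ∩ M.E) = ⊥ := by
      rw [eq_bot_iff]
      intro c hc
      rw [Submodule.mem_bot]
      by_contra hne
      obtain ⟨x, hx⟩ : ∃ x, c x ≠ 0 := by
        by_contra hcon
        push Not at hcon
        exact hne (funext hcon)
      obtain ⟨C, hC, _, hCX⟩ := rel_circuit F v M hM _ Set.inter_subset_right c hc x hx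
      apply hC.dep.not_indep
      apply hB.indep.subset
      intro y hy
      have := (hCX hy).1
      rw [Set.coe_toFinset] at this
      exact this
    rw [h]
    exact finrank_bot F _
  | insert x T hxT ih =>
    have ih' := ih (fun y hy => hT y (Finset.mem_insert_of_mem hy))
    have hx := hT x (Finset.mem_insert_self _ _)
    have hxBT : x ∉ B.toFinset ∪ T := by
      rw [Finset.mem_union, Set.mem_toFinset]
      rintro (h | h)
      · exact hx.2 h
      · exact hxT h
    have h1 : (B.toFinset ∪ insert x T).erase x = B.toFinset ∪ T := by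
      rw [Finset.union_insert, Finset.erase_insert hxBT]
    have h2 := nul_le_erase v M (B.toFinset ∪ insert x T) x
    have h3 : nul v M ((B.toFinset ∪ insert x T).erase x) < nul v M (B.toFinset ∪ insert x T) := by
      rw [nul_lt_iff v M hM]
      have h4 := hB.fundCircuit_isCircuit hx.1 hx.2
      refine ⟨(M.fundCircuit x B).toFinset, by rw [Set.coe_toFinset]; exact h4,
        Set.mem_toFinset.mpr (M.mem_fundCircuit x B), ?_⟩
      intro y hy
      have h5 := M.fundCircuit_subset_insert x B (Set.mem_toFinset.mp hy)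
      rw [Finset.mem_union, Finset.mem_insert, Set.mem_toFinset]
      rcases h5 with h5 | h5
      · exact Or.inr (Or.inl h5)
      · exact Or.inl h5
    rw [h1, ih'] at h2 h3
    rw [Finset.card_insert_of_notMem hxT]
    omega

/-- series class bound from the density theorem. -/
theorem sep_bound [Fintype F] [Nonempty α] (v : α → (Fin m → F)) (M : Matroid α)
    (hM : ∀ I : Set α, M.Indep I ↔ (I ⊆ M.E ∧ LinearIndependent F (fun x : I => v x)))
    (n lam : ℕ)
    (hlam : ∀ (V : Type) [AddCommGroup V] [Module F V] [Finite V] (A : Set V),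
      LabelSet F A → lam * Module.finrank F V < Nat.card A → CliqueMinor F n A)
    (hno : ¬ ∃ (C D : Set α) (f : Fin n × Fin n → α),
          Set.InjOn f {p : Fin n × Fin n | p.1 < p.2} ∧
          f '' {p : Fin n × Fin n | p.1 < p.2} = (M✶ ／ C ＼ D).E ∧
          ∀ I : Set (Fin n × Fin n), I ⊆ {p : Fin n × Fin n | p.1 < p.2} →
            ((M✶ ／ C ＼ D).Indep (f '' I) ↔
              LinearIndependent ℚ
                (fun p : I => ((Pi.single p.1.1 (1:ℚ) : Fin n → ℚ) -
                  (Pi.single p.1.2 (1:ℚ) : Fin n → ℚ)))))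
    (X T : Finset α) (hTX : T ⊆ X)
    (h1 : ∀ t ∈ T, ∃ C : Finset α, M.IsCircuit (C : Set α) ∧ C ⊆ X ∧ t ∈ C)
    (h2 : ∀ s ∈ T, ∀ t ∈ T, s ≠ t → ∃ C : Finset α, M.IsCircuit (C : Set α) ∧ C ⊆ X ∧
      ¬ (s ∈ C ↔ t ∈ C)) :
    T.card ≤ lam * nul v M X := by
  by_contra hcon
  push Not at hcon
  apply hno
  set X' : Set α := (X : Set α) ∩ M.E with hX'
  have hTX' : (T : Set α) ⊆ X' := by
    intro t ht
    obtain ⟨C, hC, _, htC⟩ := h1 t ht
    exact ⟨hTX ht, hC.subset_ground htC⟩
  have hrel : ∀ C : Finset α, M.IsCircuit (C : Set α) → C ⊆ X →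
      ∃ c : Rel F v X', (∀ x ∈ C, (c : α → F) x ≠ 0) ∧ ∀ x, x ∉ C → (c : α → F) x = 0 := by
    intro C hC hCX
    obtain ⟨c, hc, hc0⟩ := circuit_rel F v M hM C hC
    refine ⟨⟨c, Rel_mono v (Set.subset_inter (Finset.coe_subset.mpr hCX) hC.subset_ground) hc⟩,
      fun x hx => hc0 x hx, fun x hx => hc.1 x hx⟩
  have hev0 : ∀ t ∈ T, ev (Rel F v X') t ≠ 0 := by
    intro t ht h0
    obtain ⟨C, hC, hCX, htC⟩ := h1 t ht
    obtain ⟨c, hc1, _⟩ := hrel C hC hCX
    apply hc1 t htC
    rw [← ev_apply, h0, LinearMap.zero_apply]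
  set A : Set ((Rel F v X') →ₗ[F] F) := {w | ∃ t ∈ (T : Set α), ∃ c : F, c ≠ 0 ∧
      w = c • ev (Rel F v X') t} with hA
  have hAL : LabelSet F A := by
    constructor
    · rintro ⟨t, ht, c, hc, h0⟩
      exact hev0 t ht ((smul_eq_zero.mp h0.symm).resolve_left hc)
    · rintro _ ⟨t, ht, c, hc, rfl⟩ d hd
      exact ⟨t, ht, d * c, mul_ne_zero hd hc, by rw [smul_smul]⟩
  have hfin : Finite ((Rel F v X') →ₗ[F] F) := DFunLike.finite _
  have hcard : T.card ≤ Nat.card A := by
    have hinj : Function.Injective (fun t : T => (⟨ev (Rel F v X') t, t, t.2, 1, one_ne_zero,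
        by rw [one_smul]⟩ : A)) := by
      intro s t hst
      by_contra hne
      have hst' : ev (Rel F v X') s = ev (Rel F v X') t := congrArg Subtype.val hst
      obtain ⟨C, hC, hCX, hsep⟩ := h2 s s.2 t t.2 (fun h => hne (Subtype.ext h))
      obtain ⟨c, hc1, hc2⟩ := hrel C hC hCX
      have h3 : (c : α → F) s = (c : α → F) t := by
        rw [← ev_apply, ← ev_apply, hst']
      apply hsep
      constructor
      · intro hs
        by_contra ht
        exact hc1 s hs (h3.trans (hc2 t ht))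
      · intro ht
        by_contra hs
        exact hc1 t ht (h3.symm.trans (hc2 s hs))
    have h4 := Nat.card_le_card_of_injective _ hinj
    rwa [Nat.card_eq_fintype_card, Fintype.card_coe] at h4
  have hfr : Module.finrank F ((Rel F v X') →ₗ[F] F) = nul v M X := by
    unfold nul
    exact Subspace.dual_finrank_eq
  have hcm : CliqueMinor F n A := by
    apply hlam _ A hAL
    rw [hfr]
    exact hcon.trans_le hcard
  exact minor_of_clique v M hM X' Set.inter_subset_right (T : Set α) hTX' n hcm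

end

theorem main_theorem (F : Type) [Field F] [Fintype F] (n : ℕ) :
    ∃ c : ℕ, ∀ (α : Type) [Fintype α] (M : Matroid α),
      (∃ (m : ℕ) (v : α → (Fin m → F)), ∀ I : Set α,
          M.Indep I ↔ (I ⊆ M.E ∧ LinearIndependent F (fun x : I => v x))) →
      (∀ I : Set α, I ⊆ M.E → I.ncard ≤ 2 → M✶.Indep I) →
      (¬ ∃ (C D : Set α) (f : Fin n × Fin n → α),
          Set.InjOn f {p : Fin n × Fin n | p.1 < p.2} ∧
          f '' {p : Fin n × Fin n | p.1 < p.2} = (M✶ ／ C ＼ D).E ∧
          ∀ I : Set (Fin n × Fin n), I ⊆ {p : Fin n × Fin n | p.1 < p.2} →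
            ((M✶ ／ C ＼ D).Indep (f '' I) ↔
              LinearIndependent ℚ
                (fun p : I => ((Pi.single p.1.1 (1:ℚ) : Fin n → ℚ) -
                  (Pi.single p.1.2 (1:ℚ) : Fin n → ℚ))))) →
      ∀ B : Set α, M.IsBase B → 2 ≤ B.ncard →
        ∃ C : Set α, M.IsCircuit C ∧ (C.ncard : ℝ) ≤ (c : ℝ) * Real.log (B.ncard : ℝ) := by
  obtain ⟨lam, hlam⟩ := density F n
  obtain ⟨K, hK⟩ := abstract_girth lam
  refine ⟨6 * K * lam, ?_⟩
  rintro α _ M ⟨m, v, hM⟩ hcos hno B hB hB2
  have hne : Nonempty α := by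
    by_contra h
    rw [not_nonempty_iff] at h
    have : B = ∅ := Set.eq_empty_of_isEmpty B
    rw [this, Set.ncard_empty] at hB2
    omega
  have hBcard : B.toFinset.card = B.ncard := by
    rw [Set.ncard_eq_toFinset_card']
  -- hypothesis of the abstract theorem
  have hsep := sep_bound v M hM n lam hlam hno
  have hK' := hK α (nul v M) (fun C => M.IsCircuit (C : Set α)) (nul_empty v M)
    (fun X x _ => nul_le_erase v M X x) (fun X x _ => nul_erase_le v M X x)
    (fun X x _ => nul_lt_iff v M hM X x) hsep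
  -- the ground set
  set E := M.E.toFinset with hE
  have hBE : B ⊆ M.E := hB.subset_ground
  set N := E \ B.toFinset with hN
  have hEunion : B.toFinset ∪ N = E := by
    rw [hN, Finset.union_sdiff_of_subset]
    intro x hx
    exact Set.mem_toFinset.mpr (hBE (Set.mem_toFinset.mp hx))
  have hNmem : ∀ x ∈ N, x ∈ M.E ∧ x ∉ B := by
    intro x hx
    rw [hN, Finset.mem_sdiff, Set.mem_toFinset, Set.mem_toFinset] at hx
    exact hx
  have hnulE : nul v M E = N.card := by
    rw [← hEunion]
    exact nul_base v M hM B hB N hNmem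
  have hcirc : ∀ s t : α, s ∈ M.E → t ∈ M.E → ∃ C : Finset α, M.IsCircuit (C : Set α) ∧ C ⊆ E ∧
      s ∈ C ∧ (s ≠ t → t ∉ C) := by
    intro s t hs ht
    have h1 : M✶.Indep {s, t} := by
      apply hcos
      · rintro x (rfl | hx)
        · exact hs
        · rw [Set.mem_singleton_iff.mp hx]; exact ht
      · have h0 := Set.ncard_insert_le s {t}
        rw [Set.ncard_singleton] at h0
        exact h0
    rw [Matroid.dual_indep_iff_exists'] at h1
    obtain ⟨_, B', hB', hdisj⟩ := h1
    rw [Set.disjoint_left] at hdisj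
    have hsB : s ∉ B' := hdisj (Set.mem_insert s _)
    have htB : t ∉ B' := hdisj (Set.mem_insert_of_mem _ rfl)
    have hCc := hB'.fundCircuit_isCircuit hs hsB
    refine ⟨(M.fundCircuit s B').toFinset, by rw [Set.coe_toFinset]; exact hCc, ?_,
      Set.mem_toFinset.mpr (M.mem_fundCircuit s B'), ?_⟩
    · intro y hy
      exact Set.mem_toFinset.mpr (hCc.subset_ground (Set.mem_toFinset.mp hy))
    · intro hst htC
      have h5 := M.fundCircuit_subset_insert s B' (Set.mem_toFinset.mp htC)
      rcases h5 with h5 | h5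
      · exact hst h5.symm
      · exact htB h5
  have hEcard : E.card ≤ lam * N.card := by
    rw [← hnulE]
    apply hsep E E (Finset.Subset.refl _)
    · intro t ht
      obtain ⟨C, h1, h2, h3, _⟩ := hcirc t t (Set.mem_toFinset.mp ht) (Set.mem_toFinset.mp ht)
      exact ⟨C, h1, h2, h3⟩
    · intro s hs t ht hst
      obtain ⟨C, h1, h2, h3, h4⟩ := hcirc s t (Set.mem_toFinset.mp hs) (Set.mem_toFinset.mp ht)
      exact ⟨C, h1, h2, fun h => h4 hst (h.mp h3)⟩
  set ρ := B.toFinset.card with hρ
  have hρ2 : 2 ≤ ρ := by rw [hBcard]; exact hB2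
  have hρE : ρ ≤ E.card := by
    apply Finset.card_le_card
    rw [← hEunion]
    exact Finset.subset_union_left
  have hlam1 : 1 ≤ lam := by
    rcases Nat.eq_zero_or_pos lam with h | h
    · rw [h] at hEcard; omega
    · exact h
  set t := min N.card ρ with ht
  have hlt : ρ ≤ lam * t := by
    rcases min_choice N.card ρ with h | h
    · rw [ht, h]; omega
    · rw [ht, h]; nlinarith
  have ht1 : 1 ≤ t := by
    rcases Nat.eq_zero_or_pos t with h | h
    · rw [h] at hlt; omega
    · exact h
  obtain ⟨T', hT'N, hT'c⟩ := Finset.exists_subset_card_eq (min_le_left N.card ρ)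
  have hnulX : nul v M (B.toFinset ∪ T') = t := by
    rw [nul_base v M hM B hB T' (fun x hx => hNmem x (hT'N hx)), hT'c]
  obtain ⟨C, hC, hCX, hbound⟩ := hK' (B.toFinset ∪ T') (by rw [hnulX]; exact ht1)
  rw [hnulX] at hbound
  have hXcard : (B.toFinset ∪ T').card ≤ 2 * ρ := by
    have h1 := Finset.card_union_le B.toFinset T'
    have h2 : t ≤ ρ := min_le_right _ _
    rw [hT'c] at h1
    omega
  have hlog : Nat.log 2 t ≤ Nat.log 2 ρ := Nat.log_mono_right (min_le_right _ _)
  have hC1 : C.card * t ≤ (K * (1 + Nat.log 2 ρ) * (2 * lam)) * t := by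
    calc C.card * t ≤ K * (1 + Nat.log 2 t) * (B.toFinset ∪ T').card := hbound
      _ ≤ K * (1 + Nat.log 2 ρ) * (2 * (lam * t)) := by
          apply Nat.mul_le_mul
          · apply Nat.mul_le_mul_left; omega
          · omega
      _ = (K * (1 + Nat.log 2 ρ) * (2 * lam)) * t := by ring
  have hC2 : C.card ≤ K * (1 + Nat.log 2 ρ) * (2 * lam) := Nat.le_of_mul_le_mul_right hC1 ht1
  refine ⟨(C : Set α), hC, ?_⟩
  rw [Set.ncard_coe_finset, ← hBcard]
  have hl2 : 0 < Real.log 2 := Real.log_pos (by norm_num)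
  have hlogρ : Real.log 2 ≤ Real.log (ρ : ℝ) := by
    apply Real.log_le_log (by norm_num)
    exact_mod_cast hρ2
  have h1 : (1 + (Nat.log 2 ρ : ℝ)) ≤ 3 * Real.log (ρ : ℝ) := by
    have h2 : (Nat.log 2 ρ : ℝ) ≤ Real.logb 2 ρ := by
      have := Real.natLog_le_logb ρ 2
      simpa using this
    rw [Real.logb, le_div_iff₀ hl2] at h2
    have h3 : (0.6931471803 : ℝ) < Real.log 2 := Real.log_two_gt_d9
    have h4 : (0 : ℝ) ≤ (Nat.log 2 ρ : ℝ) := Nat.cast_nonneg _
    nlinarith
  calc (C.card : ℝ) ≤ ((K * (1 + Nat.log 2 ρ) * (2 * lam) : ℕ) : ℝ) := by exact_mod_cast hC2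
    _ = (K : ℝ) * (2 * lam) * (1 + (Nat.log 2 ρ : ℝ)) := by push_cast; ring
    _ ≤ (K : ℝ) * (2 * lam) * (3 * Real.log (ρ : ℝ)) := by
        apply mul_le_mul_of_nonneg_left h1
        positivity
    _ = ((6 * K * lam : ℕ) : ℝ) * Real.log (ρ : ℝ) := by push_cast; ring

end Pool.Agent.Lib.MP_71775e_co
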